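import Pool.Agent.Q233.TFWe

/-!
# Truncated Thomas-Fermi problems (`γ = 1`)
-/

set_option autoImplicit false
open MeasureTheory Set Filter Topology Metric
open scoped RealInnerProductSpace BigOperators ENNReal
open Pool.Agent.Helper557 Pool.Agent.Helper557.TFP
open Pool.Agent.H9R2.TF Pool.Agent.Q233.TFShell Pool.Agent.Q233.TFAtom Pool.Agent.Q233.TFSat
  Pool.Agent.Q233.TFSup Pool.Agent.Q233.TFCmp Pool.Agent.Q233.TFMol Pool.Agent.Q233.TFIon

namespace Pool.Agent.Q233.FT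

variable {k : ℕ} {z : Fin k → ℝ} {R : Fin k → E3}

/-! ### pointwise inequalities -/

lemma mono_key {c c' u v : ℝ} (hc : 0 ≤ c) (hcc : c ≤ c') :
    (min c (be u) - min c' (be v)) * (min c (be u) ^ (2/3:ℝ) - min c' (be v) ^ (2/3:ℝ))
      ≤ (min c (be u) - min c' (be v)) * (u - v) + max (min c' (be v) - c) 0 * max u 0 := by
  have ha0 : 0 ≤ min c (be u) := le_min hc (be_nonneg u)
  have hb0 : 0 ≤ min c' (be v) := le_min (hc.trans hcc) (be_nonneg v)
  set a := min c (be u) with ha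
  set b := min c' (be v) with hb
  have hA0 : 0 ≤ a ^ (2/3:ℝ) := Real.rpow_nonneg ha0 _
  have hB0 : 0 ≤ b ^ (2/3:ℝ) := Real.rpow_nonneg hb0 _
  have hAu : a ^ (2/3:ℝ) ≤ max u 0 := by
    rw [← be_pow]; exact Real.rpow_le_rpow ha0 (min_le_right _ _) (by norm_num)
  have hBv : b ^ (2/3:ℝ) ≤ max v 0 := by
    rw [← be_pow]; exact Real.rpow_le_rpow hb0 (min_le_right _ _) (by norm_num)
  have hm0 : 0 ≤ max (b - c) 0 * max u 0 := mul_nonneg (le_max_right _ _) (le_max_right _ _)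
  have pos_of : ∀ {w r : ℝ}, 0 < r → r ≤ be w → 0 < w := by
    intro w r hr hw
    by_contra hcon
    rw [be_zero_of (not_lt.1 hcon)] at hw
    linarith
  rcases lt_trichotomy a b with h | h | h
  · have hv : 0 < v := pos_of (ha0.trans_lt h) (hb.trans_le (min_le_right _ _))
    rw [max_eq_left hv.le] at hBv
    rcases le_or_gt (be u) c with h1 | h1
    · have e : a = be u := by rw [ha]; exact min_eq_right h1
      have e2 : u ≤ a ^ (2/3:ℝ) := by rw [e, be_pow]; exact le_max_left _ _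
      nlinarith
    · have e : a = c := by rw [ha]; exact min_eq_left h1.le
      have hu : 0 < u := by
        by_contra hcon
        rw [be_zero_of (not_lt.1 hcon)] at h1
        linarith
      rw [max_eq_left (by linarith : 0 ≤ b - c), max_eq_left hu.le]
      rw [← e]
      nlinarith
  · rw [← h] at hm0 ⊢
    simp only [sub_self, zero_mul, zero_add]
    exact hm0
  · have hb' : b = be v := by
      rcases le_total c' (be v) with h2 | h2
      · exfalso
        have : b = c' := by rw [hb]; exact min_eq_left h2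
        have h3 : a ≤ c := min_le_left _ _
        linarith
      · rw [hb]; exact min_eq_right h2
    have e2 : v ≤ b ^ (2/3:ℝ) := by rw [hb', be_pow]; exact le_max_left _ _
    have hu : 0 < u := pos_of (hb0.trans_lt h) (ha.trans_le (min_le_right _ _))
    rw [max_eq_left hu.le] at hAu
    nlinarith

lemma young_aux {α β t : ℝ} (hβ : 0 ≤ β) (hαβ : β ≤ α) (ht : 0 < t) :
    α ^ 3 - β ^ 3 ≤ t * ((α ^ 3 - β ^ 3) * (α ^ 2 - β ^ 2)) + 3 / (8 * t) * α := by
  have hα : 0 ≤ α := hβ.trans hαβ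
  rcases eq_or_lt_of_le hα with h | h
  · have : β = 0 := le_antisymm (hαβ.trans h.symm.le) hβ
    rw [← h, this]; simp
  set d := α ^ 3 - β ^ 3 with hd
  have hd0 : 0 ≤ d := sub_nonneg.2 (pow_le_pow_left₀ hβ hαβ 3)
  have h1 : 2/3 * d ≤ (α ^ 2 - β ^ 2) * α := by
    have : 3 * ((α ^ 2 - β ^ 2) * α) - 2 * d = (α - β) ^ 2 * (α + 2 * β) := by rw [hd]; ring
    have h2 : 0 ≤ (α - β) ^ 2 * (α + 2 * β) := by positivity
    linarith
  have h2 : d * α ≤ (t * (d * (α ^ 2 - β ^ 2)) + 3 / (8 * t) * α) * α := by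
    have e1 : (t * (d * (α ^ 2 - β ^ 2)) + 3 / (8 * t) * α) * α = t * d * ((α ^ 2 - β ^ 2) * α) + 3 / (8 * t) * α ^ 2 := by ring
    have e2 : t * d * (2/3 * d) ≤ t * d * ((α ^ 2 - β ^ 2) * α) := mul_le_mul_of_nonneg_left h1 (by positivity)
    have e3 : t * d * (2/3 * d) + 3 / (8 * t) * α ^ 2 - d * α = 2 * t / 3 * (d - 3 / (4 * t) * α) ^ 2 := by
      field_simp; ring
    have e4 : 0 ≤ 2 * t / 3 * (d - 3 / (4 * t) * α) ^ 2 := by positivity
    linarith
  exact le_of_mul_le_mul_right h2 h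

lemma young_key {a b t : ℝ} (ha : 0 ≤ a) (hb : 0 ≤ b) (ht : 0 < t) :
    |a - b| ≤ t * ((a - b) * (a ^ (2/3:ℝ) - b ^ (2/3:ℝ))) + 3 / (8 * t) * (max a b) ^ (1/3 : ℝ) := by
  have key : ∀ {a b : ℝ}, 0 ≤ b → b ≤ a → a - b ≤ t * ((a - b) * (a ^ (2/3:ℝ) - b ^ (2/3:ℝ))) + 3 / (8 * t) * a ^ (1/3 : ℝ) := by
    intro a b hb hab
    have ha := hb.trans hab
    obtain ⟨a1, a2⟩ := third_cube ha
    obtain ⟨b1, b2⟩ := third_cube hb
    have h := young_aux (α := a ^ (1/3:ℝ)) (β := b ^ (1/3:ℝ)) (t := t) (Real.rpow_nonneg hb _)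
      (Real.rpow_le_rpow hb hab (by norm_num)) ht
    rw [a1, a2, b1, b2] at h
    exact h
  rcases le_total b a with h | h
  · rw [abs_of_nonneg (sub_nonneg.2 h), max_eq_left h]
    exact key hb h
  · rw [abs_sub_comm, abs_of_nonneg (sub_nonneg.2 h), max_eq_right h]
    have := key ha h
    have e : (a - b) * (a ^ (2/3:ℝ) - b ^ (2/3:ℝ)) = (b - a) * (b ^ (2/3:ℝ) - a ^ (2/3:ℝ)) := by ring
    rw [e]
    exact this

/-- the monotone quantity -/
noncomputable def qf (a b : ℝ) : ℝ := (a - b) * (a ^ (2/3:ℝ) - b ^ (2/3:ℝ))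

lemma qf_nonneg {a b : ℝ} (ha : 0 ≤ a) (hb : 0 ≤ b) : 0 ≤ qf a b := by
  unfold qf
  rcases le_total b a with h | h
  · exact mul_nonneg (sub_nonneg.2 h) (sub_nonneg.2 (Real.rpow_le_rpow hb h (by norm_num)))
  · exact mul_nonneg_of_nonpos_of_nonpos (sub_nonpos.2 h) (sub_nonpos.2 (Real.rpow_le_rpow ha h (by norm_num)))

lemma rpow53 {a : ℝ} (ha : 0 ≤ a) : a * a ^ (2/3:ℝ) = a ^ (5/3:ℝ) := by
  rcases eq_or_lt_of_le ha with h | h
  · rw [← h, Real.zero_rpow (by norm_num), Real.zero_rpow (by norm_num), mul_zero]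
  · rw [← Real.rpow_one_add' ha (by norm_num)]; norm_num

lemma qf_le {a b : ℝ} (ha : 0 ≤ a) (hb : 0 ≤ b) : qf a b ≤ a ^ (5/3:ℝ) + b ^ (5/3:ℝ) := by
  unfold qf
  rw [← rpow53 ha, ← rpow53 hb]
  have h1 : 0 ≤ a * b ^ (2/3:ℝ) := mul_nonneg ha (Real.rpow_nonneg hb _)
  have h2 : 0 ≤ b * a ^ (2/3:ℝ) := mul_nonneg hb (Real.rpow_nonneg ha _)
  nlinarith

/-! ### caps -/

noncomputable def cap (n : ℕ) (x : E3) : ℝ := (ball (0:E3) n).indicator (fun _ => (n:ℝ)) x

lemma cap_nonneg (n : ℕ) (x : E3) : 0 ≤ cap n x := Set.indicator_nonneg (fun _ _ => Nat.cast_nonneg n) x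
lemma cap_le (n : ℕ) (x : E3) : cap n x ≤ n := by
  unfold cap
  by_cases h : x ∈ ball (0:E3) n
  · rw [indicator_of_mem h]
  · rw [indicator_of_notMem h]; exact Nat.cast_nonneg n
lemma cap_in {n : ℕ} {x : E3} (h : ‖x‖ < n) : cap n x = n := by
  unfold cap; rw [indicator_of_mem (mem_ball_zero_iff.2 h)]
lemma cap_meas (n : ℕ) : Measurable (cap n) := measurable_const.indicator measurableSet_ball
lemma cap_intble (n : ℕ) : Integrable (cap n) :=
  (integrable_indicator_iff measurableSet_ball).2 (integrableOn_const (hs := measure_ball_lt_top.ne) (hC := by finiteness))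
lemma cap_nice (n : ℕ) : Nice (cap n) :=
  nice_of_bdd (cap_meas n) (cap_intble n) (Nat.cast_nonneg n) (fun x => by rw [abs_of_nonneg (cap_nonneg n x)]; exact cap_le n x)
lemma cap_third {n : ℕ} (x : E3) : cap n x ^ (1/3 : ℝ) ≤ cap n x := by
  by_cases h : x ∈ ball (0:E3) n
  · unfold cap
    rw [indicator_of_mem h]
    rcases Nat.eq_zero_or_pos n with h0 | h0
    · subst h0
      simp
    · have h1 : (1:ℝ) ≤ n := by exact_mod_cast h0
      calc (n:ℝ) ^ (1/3:ℝ) ≤ (n:ℝ) ^ (1:ℝ) := Real.rpow_le_rpow_of_exponent_le h1 (by norm_num)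
        _ = n := Real.rpow_one _
  · unfold cap
    rw [indicator_of_notMem h, Real.zero_rpow (by norm_num)]

/-- solutions of the truncated TF equation -/
structure TE (n : ℕ) (z : Fin k → ℝ) (R : Fin k → E3) (Φ : ℝ) (τ : E3 → ℝ) : Prop where
  meas : Measurable τ
  eq : ∀ x, τ x = min (cap n x) (be (VV z R x - pot τ x - Φ))

lemma TE.nonneg {n : ℕ} {Φ : ℝ} {τ : E3 → ℝ} (h : TE n z R Φ τ) (x : E3) : 0 ≤ τ x := by
  rw [h.eq]; exact le_min (cap_nonneg n x) (be_nonneg _)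
lemma TE.le_cap {n : ℕ} {Φ : ℝ} {τ : E3 → ℝ} (h : TE n z R Φ τ) (x : E3) : τ x ≤ cap n x := by
  rw [h.eq]; exact min_le_left _ _
lemma TE.nice {n : ℕ} {Φ : ℝ} {τ : E3 → ℝ} (h : TE n z R Φ τ) : Nice τ :=
  nice_of_le (cap_nice n) h.meas (fun x => by
    rw [abs_of_nonneg (h.nonneg x), abs_of_nonneg (cap_nonneg n x)]; exact h.le_cap x)
lemma TE.adm {n : ℕ} {Φ : ℝ} {τ : E3 → ℝ} (h : TE n z R Φ τ) : Adm τ := adm_of_nice h.nice h.nonneg

lemma nice_p53 {σ : E3 → ℝ} (h : Nice σ) (h0 : ∀ x, 0 ≤ σ x) : Integrable (fun x => σ x ^ (5/3 : ℝ)) :=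
  (adm_of_nice h h0).2.2.2

lemma qf_meas {τ σ : E3 → ℝ} (h1 : Measurable τ) (h2 : Measurable σ) : Measurable (fun x => qf (τ x) (σ x)) :=
  (h1.sub h2).mul ((h1.pow_const _).sub (h2.pow_const _))

lemma qf_int {τ σ : E3 → ℝ} (h1 : Nice τ) (h2 : Nice σ) (p1 : ∀ x, 0 ≤ τ x) (p2 : ∀ x, 0 ≤ σ x) :
    Integrable (fun x => qf (τ x) (σ x)) := by
  refine ((nice_p53 h1 p1).add (nice_p53 h2 p2)).mono' (qf_meas h1.1 h2.1).aestronglyMeasurable (ae_of_all _ (fun x => ?_))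
  rw [Real.norm_of_nonneg (qf_nonneg (p1 x) (p2 x))]
  exact qf_le (p1 x) (p2 x)

/-- excess of a density over the cap -/
noncomputable def exc (n : ℕ) (σ : E3 → ℝ) (x : E3) : ℝ := max (σ x - cap n x) 0

lemma exc_nonneg (n : ℕ) (σ : E3 → ℝ) (x : E3) : 0 ≤ exc n σ x := le_max_right _ _

lemma exc_le {n : ℕ} {σ : E3 → ℝ} (h : ∀ x, 0 ≤ σ x) (x : E3) : exc n σ x ≤ σ x := by
  unfold exc
  have := cap_nonneg n x
  exact max_le (by linarith) (h x)

lemma exc_nice {n : ℕ} {σ : E3 → ℝ} (h : Nice σ) (h0 : ∀ x, 0 ≤ σ x) : Nice (exc n σ) :=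
  nice_of_le h ((h.1.sub (cap_meas n)).max measurable_const) (fun x => by
    rw [abs_of_nonneg (exc_nonneg n σ x), abs_of_nonneg (h0 x)]; exact exc_le h0 x)

/-- **stability inequality** -/
theorem stab {n : ℕ} {R' : Fin k → E3} {Φ Φ' : ℝ} {τ σ : E3 → ℝ} (hz : ∀ j, 0 ≤ z j) (hτ : TE n z R' Φ' τ) (hΦ' : 0 ≤ Φ')
    (hn : Nice σ) (c' : E3 → ℝ) (hc : ∀ x, cap n x ≤ c' x) (hσ : ∀ x, σ x = min (c' x) (be (VV z R x - pot σ x - Φ))) :
    ∫ x, qf (τ x) (σ x) ≤ (∫ x, (VV z R' x - VV z R x) * (τ x - σ x)) - (Φ' - Φ) * ((∫ x, τ x) - ∫ x, σ x)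
      + ∫ x, VV z R' x * exc n σ x := by
  have σ0 : ∀ x, 0 ≤ σ x := fun x => by rw [hσ x]; exact le_min ((cap_nonneg n x).trans (hc x)) (be_nonneg _)
  have nτ := hτ.nice
  have nδ : Nice (fun x => τ x - σ x) := nice_sub' nτ hn
  have ne : Nice (exc n σ) := exc_nice hn σ0
  have i0 := qf_int nτ hn hτ.nonneg σ0
  have i1 : Integrable (fun x => (VV z R' x - VV z R x) * (τ x - σ x)) := by
    have := (vint z R' nδ).sub (vint z R nδ)
    refine this.congr (ae_of_all _ (fun x => ?_))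
    simp only [Pi.sub_apply]; ring
  have i2 : Integrable (fun x => (τ x - σ x) * pot (fun y => τ y - σ y) x) := TF_E1_int _ _ nδ.2.1 nδ
  have i3 : Integrable (fun x => (Φ' - Φ) * (τ x - σ x)) := nδ.2.1.const_mul _
  have i4 : Integrable (fun x => VV z R' x * exc n σ x) := vint z R' ne
  have i12 : Integrable (fun x => (VV z R' x - VV z R x) * (τ x - σ x) - (τ x - σ x) * pot (fun y => τ y - σ y) x) := i1.sub i2
  have i123 : Integrable (fun x => (VV z R' x - VV z R x) * (τ x - σ x) - (τ x - σ x) * pot (fun y => τ y - σ y) x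
      - (Φ' - Φ) * (τ x - σ x)) := i12.sub i3
  have hpt : ∫ x, qf (τ x) (σ x) ≤ ∫ x, ((VV z R' x - VV z R x) * (τ x - σ x) - (τ x - σ x) * pot (fun y => τ y - σ y) x
      - (Φ' - Φ) * (τ x - σ x) + VV z R' x * exc n σ x) := by
    refine integral_mono i0 (i123.add i4) (fun x => ?_)
    have h1 := mono_key (c := cap n x) (c' := c' x) (u := VV z R' x - pot τ x - Φ') (v := VV z R x - pot σ x - Φ)
      (cap_nonneg n x) (hc x)
    rw [← hτ.eq x, ← hσ x] at h1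
    have h2 : max (VV z R' x - pot τ x - Φ') 0 ≤ VV z R' x := by
      have hp := pot_nonneg hτ.nonneg x
      have hv := VV_nonneg hz R' x
      exact max_le (by linarith) hv
    have h3 : max (σ x - cap n x) 0 * max (VV z R' x - pot τ x - Φ') 0 ≤ VV z R' x * exc n σ x := by
      rw [mul_comm (VV z R' x)]
      exact mul_le_mul_of_nonneg_left h2 (le_max_right _ _)
    simp only [qf]
    rw [pot_sub nτ hn]
    nlinarith
  have e1 : ∫ x, ((VV z R' x - VV z R x) * (τ x - σ x) - (τ x - σ x) * pot (fun y => τ y - σ y) x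
      - (Φ' - Φ) * (τ x - σ x) + VV z R' x * exc n σ x)
      = (∫ x, ((VV z R' x - VV z R x) * (τ x - σ x) - (τ x - σ x) * pot (fun y => τ y - σ y) x
      - (Φ' - Φ) * (τ x - σ x))) + ∫ x, VV z R' x * exc n σ x := integral_add i123 i4
  have e2 : ∫ x, ((VV z R' x - VV z R x) * (τ x - σ x) - (τ x - σ x) * pot (fun y => τ y - σ y) x
      - (Φ' - Φ) * (τ x - σ x)) = (∫ x, ((VV z R' x - VV z R x) * (τ x - σ x) - (τ x - σ x) * pot (fun y => τ y - σ y) x))
        - ∫ x, (Φ' - Φ) * (τ x - σ x) := integral_sub i12 i3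
  have e3 : ∫ x, ((VV z R' x - VV z R x) * (τ x - σ x) - (τ x - σ x) * pot (fun y => τ y - σ y) x)
      = (∫ x, (VV z R' x - VV z R x) * (τ x - σ x)) - ∫ x, (τ x - σ x) * pot (fun y => τ y - σ y) x := integral_sub i1 i2
  have e4 : ∫ x, (Φ' - Φ) * (τ x - σ x) = (Φ' - Φ) * ((∫ x, τ x) - ∫ x, σ x) := by
    rw [integral_const_mul, integral_sub nτ.2.1 hn.2.1]
  have hD := pot_pos nδ
  rw [e1, e2, e3, e4] at hpt
  linarith

/-! ### existence -/

lemma te_exists (n : ℕ) (z : Fin k → ℝ) (R : Fin k → E3) (Φ : ℝ) : ∃ τ, TE n z R Φ τ := by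
  have hi : Integrable (fun x => (VV z R x - Φ) * cap n x) := by
    have := (vint z R (cap_nice n)).sub ((cap_intble n).const_mul Φ)
    refine this.congr (ae_of_all _ (fun x => ?_))
    simp only [Pi.sub_apply]; ring
  obtain ⟨τ, h1, h2⟩ := exists_EL (kop_full (cap_nice n)) (cap_nice n) (cap_nonneg n) ((VV_meas z R).sub_const Φ) hi
  refine ⟨τ, h1.1, fun x => ?_⟩
  have := h2 x
  rw [this]
  congr 2
  ring

lemma te_lip (hz : ∀ j, 0 ≤ z j) {n : ℕ} {Φ Φ' : ℝ} {τ σ : E3 → ℝ} (h1 : TE n z R Φ' τ) (h2 : TE n z R Φ σ) (hΦ' : 0 ≤ Φ') :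
    |(∫ x, τ x) - ∫ x, σ x| ≤ 3/2 * (∫ x, cap n x) * |Φ' - Φ| := by
  have hs := stab hz h1 hΦ' h2.nice (cap n) (fun x => le_rfl) h2.eq
  have e0 : ∫ x, (VV z R x - VV z R x) * (τ x - σ x) = 0 := by simp
  have e1 : ∫ x, VV z R x * exc n σ x = 0 := by
    have : (fun x => VV z R x * exc n σ x) = fun _ => 0 := by
      funext x
      unfold exc
      rw [max_eq_right (sub_nonpos.2 (h2.le_cap x)), mul_zero]
    rw [this, integral_zero]
  rw [e0, e1] at hs
  have hI : 0 ≤ ∫ x, cap n x := integral_nonneg (cap_nonneg n)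
  have hmain : ∀ t, 0 < t → |(∫ x, τ x) - ∫ x, σ x| ≤ t * (∫ x, qf (τ x) (σ x)) + 3 / (8 * t) * ∫ x, cap n x := by
    intro t ht
    rw [← integral_sub h1.nice.2.1 h2.nice.2.1, ← integral_const_mul, ← integral_const_mul]
    have i0 := qf_int h1.nice h2.nice h1.nonneg h2.nonneg
    rw [← integral_add (i0.const_mul t) ((cap_intble n).const_mul _)]
    refine abs_integral_le_integral_abs.trans ?_
    refine integral_mono (h1.nice.2.1.sub h2.nice.2.1).abs ((i0.const_mul t).add ((cap_intble n).const_mul _)) (fun x => ?_)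
    have h := young_key (h1.nonneg x) (h2.nonneg x) ht
    have h3 : (max (τ x) (σ x)) ^ (1/3 : ℝ) ≤ cap n x :=
      (Real.rpow_le_rpow (le_max_of_le_left (h1.nonneg x)) (max_le (h1.le_cap x) (h2.le_cap x)) (by norm_num)).trans (cap_third x)
    have h4 := mul_le_mul_of_nonneg_left h3 (by positivity : 0 ≤ 3 / (8 * t))
    simp only [qf] at h ⊢
    linarith
  set M := (∫ x, τ x) - ∫ x, σ x with hM
  rcases eq_or_ne Φ' Φ with he | he
  · rw [he, sub_self, zero_mul, zero_sub, neg_zero, zero_add] at hs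
    rw [he, sub_self, abs_zero, mul_zero]
    refine le_of_forall_pos_le_add (fun ε hε => ?_)
    have h := hmain (3 * ((∫ x, cap n x) + 1) / (8 * ε)) (by positivity)
    have h5 : 3 / (8 * (3 * ((∫ x, cap n x) + 1) / (8 * ε))) * (∫ x, cap n x) ≤ ε := by
      have e : 3 / (8 * (3 * ((∫ x, cap n x) + 1) / (8 * ε))) = ε / ((∫ x, cap n x) + 1) := by field_simp
      rw [e, div_mul_eq_mul_div, div_le_iff₀ (by positivity)]
      nlinarith
    have h6 : 3 * ((∫ x, cap n x) + 1) / (8 * ε) * (∫ x, qf (τ x) (σ x)) ≤ 0 :=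
      mul_nonpos_of_nonneg_of_nonpos (by positivity) hs
    linarith
  · have hp : 0 < |Φ' - Φ| := abs_pos.2 (sub_ne_zero.2 he)
    have h := hmain (1 / (2 * |Φ' - Φ|)) (by positivity)
    have h1 : (∫ x, qf (τ x) (σ x)) ≤ |Φ' - Φ| * |M| := by
      have : -(Φ' - Φ) * M ≤ |Φ' - Φ| * |M| := by
        rw [← abs_mul]
        exact (neg_abs_le ((Φ' - Φ) * M) |> fun h => by linarith [neg_le_abs ((Φ' - Φ) * M)])
      linarith
    have h2 : 1 / (2 * |Φ' - Φ|) * (∫ x, qf (τ x) (σ x)) ≤ 1/2 * |M| := by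
      have := mul_le_mul_of_nonneg_left h1 (by positivity : 0 ≤ 1 / (2 * |Φ' - Φ|))
      have e : 1 / (2 * |Φ' - Φ|) * (|Φ' - Φ| * |M|) = 1/2 * |M| := by field_simp
      linarith
    have h3 : 3 / (8 * (1 / (2 * |Φ' - Φ|))) = 3/4 * |Φ' - Φ| := by field_simp; ring
    rw [h3] at h
    nlinarith

/-- existence for the mass constraint `∫ ≤ lam` with complementary slackness -/
theorem te_ion (hz : ∀ j, 0 ≤ z j) (n : ℕ) (R : Fin k → E3) {lam : ℝ} (h0 : 0 < lam) :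
    ∃ Φ τ, 0 ≤ Φ ∧ TE n z R Φ τ ∧ ∫ x, τ x ≤ lam ∧ (0 < Φ → ∫ x, τ x = lam) := by
  choose τ hτ using te_exists n z R
  set m : ℝ → ℝ := fun Φ => ∫ x, τ Φ x with hm
  rcases le_or_gt (m 0) lam with hle | hgt
  · exact ⟨0, τ 0, le_rfl, hτ 0, hle, fun h => absurd h (lt_irrefl _)⟩
  have hcont : ContinuousOn m (Ici 0) := by
    have : LipschitzOnWith (Real.toNNReal (3/2 * (∫ x, cap n x))) m (Ici 0) := by
      refine LipschitzOnWith.of_dist_le_mul (fun Φ hΦ Φ' hΦ' => ?_)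
      have hI : 0 ≤ ∫ x, cap n x := integral_nonneg (cap_nonneg n)
      rw [Real.coe_toNNReal _ (by positivity), Real.dist_eq, Real.dist_eq]
      exact te_lip hz (hτ Φ) (hτ Φ') hΦ
    exact this.continuousOn
  have hlim : Tendsto (fun j : ℕ => m j) atTop (𝓝 (∫ _ : E3, (0:ℝ))) := by
    refine tendsto_integral_of_dominated_convergence (cap n) ?_ (cap_intble n) ?_ ?_
    · intro j
      exact (hτ j).meas.aestronglyMeasurable
    · intro j
      refine ae_of_all _ (fun x => ?_)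
      rw [Real.norm_of_nonneg ((hτ j).nonneg x)]
      exact (hτ j).le_cap x
    · refine ae_of_all _ (fun x => ?_)
      apply tendsto_const_nhds.congr'
      obtain ⟨N, hN⟩ := exists_nat_gt (VV z R x)
      filter_upwards [eventually_ge_atTop N] with j hj
      have h3 := pot_nonneg (hτ j).nonneg x
      have : (N:ℝ) ≤ j := by exact_mod_cast hj
      rw [(hτ j).eq x, be_zero_of (by linarith), min_eq_right (cap_nonneg n x)]
  rw [integral_zero] at hlim
  obtain ⟨j, hj⟩ := (hlim.eventually (gt_mem_nhds h0)).exists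
  have hj0 : (0:ℝ) ≤ j := Nat.cast_nonneg j
  obtain ⟨Φ, hΦ, hmΦ⟩ := intermediate_value_Icc' hj0 (hcont.mono Icc_subset_Ici_self) (show lam ∈ Icc (m j) (m 0) from ⟨hj.le, hgt.le⟩)
  exact ⟨Φ, τ Φ, hΦ.1, hτ Φ, hmΦ.le, fun _ => hmΦ⟩

/-! ### minimality -/

theorem te_expand {n : ℕ} {Φ : ℝ} {ρ σ : E3 → ℝ} (h : TE n z R Φ ρ) (hσ : Adm σ) (hc : ∀ x, σ x ≤ cap n x) :
    EF z R ρ + Φ * ((∫ x, ρ x) - ∫ x, σ x) + 1/2 * (∫ x, (σ x - ρ x) * pot (fun y => σ y - ρ y) x) ≤ EF z R σ := by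
  have nρ := h.nice
  have nσ := nice_of_adm hσ
  have nδ : Nice (fun x => σ x - ρ x) := nice_sub' nσ nρ
  have i1 : Integrable (fun x => 3/5 * σ x ^ (5/3 : ℝ)) := hσ.2.2.2.const_mul _
  have i2 : Integrable (fun x => 3/5 * ρ x ^ (5/3 : ℝ)) := h.adm.2.2.2.const_mul _
  have i3 : Integrable (fun x : E3 => VV z R x * (σ x - ρ x)) := vint z R nδ
  have i4 : Integrable (fun x => (σ x - ρ x) * pot ρ x) := TF_E1_int _ _ nδ.2.1 nρ
  have i5 : Integrable (fun x => Φ * (σ x - ρ x)) := nδ.2.1.const_mul _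
  have i34 : Integrable (fun x => VV z R x * (σ x - ρ x) - (σ x - ρ x) * pot ρ x) := i3.sub i4
  have i6 : Integrable (fun x => VV z R x * (σ x - ρ x) - (σ x - ρ x) * pot ρ x - Φ * (σ x - ρ x)) := i34.sub i5
  have hpt : ∫ x, (VV z R x * (σ x - ρ x) - (σ x - ρ x) * pot ρ x - Φ * (σ x - ρ x)) ≤ ∫ x, (3/5 * σ x ^ (5/3 : ℝ) - 3/5 * ρ x ^ (5/3 : ℝ)) := by
    refine integral_mono i6 (i1.sub i2) (fun x => ?_)
    simp only
    have s0 := hσ.2.1 x
    have r0 := h.nonneg x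
    have h1 := sc2 s0 r0
    set u := VV z R x - pot ρ x - Φ with hu
    have e : VV z R x * (σ x - ρ x) - (σ x - ρ x) * pot ρ x - Φ * (σ x - ρ x) = u * (σ x - ρ x) := by rw [hu]; ring
    rw [e]
    have hle : ρ x ^ (2/3 : ℝ) ≤ max u 0 := by
      rw [← be_pow]; exact Real.rpow_le_rpow r0 (by rw [h.eq x]; exact min_le_right _ _) (by norm_num)
    rcases le_or_gt (cap n x) (be u) with hb | hb
    · have hρc : ρ x = cap n x := by rw [h.eq x]; exact min_eq_left hb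
      have hs := hc x
      rcases le_or_gt u 0 with hu0 | hu0
      · rw [be_zero_of hu0] at hb
        have c0 : cap n x = 0 := le_antisymm hb (cap_nonneg n x)
        have s1 : σ x = 0 := le_antisymm (hs.trans c0.le) s0
        rw [s1, hρc, c0]; simp
      · rw [max_eq_left hu0.le] at hle
        have h3 : u * (σ x - ρ x) ≤ ρ x ^ (2/3 : ℝ) * (σ x - ρ x) := by
          rw [hρc] at hle ⊢
          exact mul_le_mul_of_nonpos_right hle (by linarith)
        linarith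
    · have hρb : ρ x = be u := by rw [h.eq x]; exact min_eq_right hb.le
      have hr : ρ x ^ (2/3 : ℝ) = max u 0 := by rw [hρb, be_pow]
      rcases le_or_gt u 0 with hu0 | hu0
      · have hρ0 : ρ x = 0 := by rw [hρb]; exact be_zero_of hu0
        rw [hρ0, Real.zero_rpow (by norm_num)] at h1 ⊢
        have : 0 ≤ σ x ^ (5/3 : ℝ) := Real.rpow_nonneg s0 _
        nlinarith
      · rw [max_eq_left hu0.le] at hr
        rw [hr] at h1
        nlinarith
  have a2 : ∫ x, (3/5 * σ x ^ (5/3 : ℝ) - 3/5 * ρ x ^ (5/3 : ℝ)) = (∫ x, 3/5 * σ x ^ (5/3 : ℝ)) - ∫ x, 3/5 * ρ x ^ (5/3 : ℝ) :=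
    integral_sub i1 i2
  have a3 : ∫ x, (VV z R x * (σ x - ρ x) - (σ x - ρ x) * pot ρ x - Φ * (σ x - ρ x))
      = (∫ x, (VV z R x * (σ x - ρ x) - (σ x - ρ x) * pot ρ x)) - ∫ x, Φ * (σ x - ρ x) := integral_sub i34 i5
  have a4 : ∫ x, (VV z R x * (σ x - ρ x) - (σ x - ρ x) * pot ρ x)
      = (∫ x, VV z R x * (σ x - ρ x)) - ∫ x, (σ x - ρ x) * pot ρ x := integral_sub i3 i4
  have a5 : ∫ x, VV z R x * (σ x - ρ x) = (∫ x, VV z R x * σ x) - ∫ x, VV z R x * ρ x := by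
    rw [← integral_sub (vint z R nσ) (vint z R nρ)]
    congr 1
    funext x; ring
  have a6 : ∫ x, Φ * (σ x - ρ x) = Φ * ((∫ x, σ x) - ∫ x, ρ x) := by
    rw [integral_const_mul, integral_sub nσ.2.1 nρ.2.1]
  have e1 := (kop_full nρ).exp nρ nδ 1
  have e2 : (fun y => ρ y + 1 * (σ y - ρ y)) = σ := by funext y; ring
  have e3 : ∫ x, σ x * pot σ x = (∫ x, ρ x * pot ρ x) + 2 * (∫ x, (σ x - ρ x) * pot ρ x)
      + ∫ x, (σ x - ρ x) * pot (fun y => σ y - ρ y) x := by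
    rw [e2] at e1
    have : (fun x => (ρ x + 1 * (σ x - ρ x)) * pot σ x) = fun x => σ x * pot σ x := by
      funext x; ring
    rw [this] at e1
    rw [e1]; ring
  rw [a2, a3, a4, a5, a6, integral_const_mul, integral_const_mul] at hpt
  unfold EF
  rw [e3]
  linarith

end Pool.Agent.Q233.FT
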