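import Pool.Agent.Q233.FT.A

/-!
# Coulomb force kernels
-/

set_option autoImplicit false
open MeasureTheory Set Filter Topology Metric
open scoped RealInnerProductSpace BigOperators ENNReal
open Pool.Agent.Helper557 Pool.Agent.Helper557.TFP
open Pool.Agent.H9R2.TF Pool.Agent.Q233.TFShell Pool.Agent.Q233.TFAtom Pool.Agent.Q233.TFSat
  Pool.Agent.Q233.TFSup Pool.Agent.Q233.TFCmp Pool.Agent.Q233.TFMol Pool.Agent.Q233.TFIon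

namespace Pool.Agent.Q233.FT

noncomputable def h5 (a : ℝ) : ℝ := (a ^ 2)⁻¹ * (√a)⁻¹

lemma h5_nonneg (a : ℝ) : 0 ≤ h5 a := by unfold h5; positivity

lemma h5_zero : h5 0 = 0 := by unfold h5; simp

lemma h5_meas : Measurable h5 := by unfold h5; fun_prop

lemma le_of_sq' {x y : ℝ} (hy : 0 ≤ y) (h : x ^ 2 ≤ y ^ 2) : x ≤ y := by
  by_contra hc
  rw [not_le] at hc
  nlinarith

lemma h5_sq {α : ℝ} (h : 0 < α) : h5 (α ^ 2) = (α ^ 5)⁻¹ := by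
  unfold h5
  rw [Real.sqrt_sq h.le, ← mul_inv]
  congr 1; ring

lemma h5_kap (u : E3) : h5 ‖u‖ ≤ kap5 u + 1 := by
  unfold kap5
  rcases eq_or_lt_of_le (norm_nonneg u) with h0 | h0
  · rw [← h0, h5_zero]
    have : (0:ℝ) ≤ (if (0:ℝ) < 1 then (0:ℝ) ^ (-(5/2) : ℝ) else 0) := by
      split_ifs <;> first | exact Real.rpow_nonneg le_rfl _ | exact le_rfl
    linarith
  split_ifs with h
  · rw [rpow52 h0]; unfold h5; linarith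
  · unfold h5
    have h1 : 1 ≤ ‖u‖ := not_lt.1 h
    have h2 : (‖u‖ ^ 2)⁻¹ ≤ 1 := inv_le_one_of_one_le₀ (one_le_pow₀ h1)
    have h3 : (√‖u‖)⁻¹ ≤ 1 := inv_le_one_of_one_le₀ (by rw [Real.one_le_sqrt]; exact h1)
    have : (‖u‖ ^ 2)⁻¹ * (√‖u‖)⁻¹ ≤ 1 * 1 := mul_le_mul h2 h3 (by positivity) (by norm_num)
    linarith

lemma ker_exp_aux {a b w p : ℝ} (ha : 0 < a) (hb : 0 < b) (hw : 0 ≤ w) (hab : |b - a| ≤ w) (hp : |p| ≤ a * w)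
    (hsq : b ^ 2 = a ^ 2 + 2 * p + w ^ 2) : |1 / b - 1 / a + p / a ^ 3| ≤ 6 * (w * √w) * (h5 a + h5 b) := by
  obtain ⟨α, hα, rfl⟩ : ∃ α : ℝ, 0 < α ∧ a = α ^ 2 := ⟨√a, Real.sqrt_pos.2 ha, (Real.sq_sqrt ha.le).symm⟩
  obtain ⟨β, hβ, rfl⟩ : ∃ β : ℝ, 0 < β ∧ b = β ^ 2 := ⟨√b, Real.sqrt_pos.2 hb, (Real.sq_sqrt hb.le).symm⟩
  obtain ⟨s, hs, rfl⟩ : ∃ s : ℝ, 0 ≤ s ∧ w = s ^ 2 := ⟨√w, Real.sqrt_nonneg w, (Real.sq_sqrt hw).symm⟩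
  rw [Real.sqrt_sq hs, h5_sq hα, h5_sq hβ]
  have hab' := abs_le.1 hab
  rcases le_or_gt (s ^ 2) (α ^ 2 / 2) with h | h
  · -- near
    have e : 1 / β ^ 2 - 1 / α ^ 2 + p / (α ^ 2) ^ 3
        = ((β ^ 2 - α ^ 2) ^ 2 * (β ^ 2 + 2 * α ^ 2) - β ^ 2 * (s ^ 2) ^ 2) / (2 * (α ^ 2) ^ 3 * β ^ 2) := by
      have hp' : p = ((β ^ 2) ^ 2 - (α ^ 2) ^ 2 - (s ^ 2) ^ 2) / 2 := by linarith
      rw [hp']
      field_simp
      ring
    rw [e, abs_div, abs_of_pos (by positivity : 0 < 2 * (α ^ 2) ^ 3 * β ^ 2), div_le_iff₀ (by positivity)]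
    have h1 : (β ^ 2 - α ^ 2) ^ 2 ≤ (s ^ 2) ^ 2 := sq_le_sq' (by linarith) (by linarith)
    have h2 : |(β ^ 2 - α ^ 2) ^ 2 * (β ^ 2 + 2 * α ^ 2) - β ^ 2 * (s ^ 2) ^ 2| ≤ (s ^ 2) ^ 2 * (2 * β ^ 2 + 2 * α ^ 2) := by
      rw [abs_le]
      constructor
      · have : 0 ≤ (β ^ 2 - α ^ 2) ^ 2 * (β ^ 2 + 2 * α ^ 2) := by positivity
        nlinarith [sq_nonneg (s ^ 2), sq_nonneg α, mul_nonneg (sq_nonneg (s^2)) (sq_nonneg α), mul_nonneg (sq_nonneg (s^2)) (sq_nonneg β)]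
      · have := mul_le_mul_of_nonneg_right h1 (by positivity : 0 ≤ β ^ 2 + 2 * α ^ 2)
        nlinarith [mul_nonneg (sq_nonneg (s^2)) (sq_nonneg β)]
    refine h2.trans ?_
    have h3 : α ^ 2 ≤ 2 * β ^ 2 := by linarith
    have h4 : (s ^ 2) ^ 2 * (2 * β ^ 2 + 2 * α ^ 2) ≤ (s ^ 2) ^ 2 * (6 * β ^ 2) :=
      mul_le_mul_of_nonneg_left (by linarith) (by positivity)
    have hsα : s ≤ α := by
      apply le_of_sq' hα.le
      nlinarith [sq_nonneg α]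
    have h5' : (s ^ 2) ^ 2 * (6 * β ^ 2) ≤ 6 * (s ^ 2 * s) * (α ^ 5)⁻¹ * (2 * (α ^ 2) ^ 3 * β ^ 2) := by
      have e : 6 * (s ^ 2 * s) * (α ^ 5)⁻¹ * (2 * (α ^ 2) ^ 3 * β ^ 2) = 12 * (s ^ 3 * α) * β ^ 2 := by
        field_simp; ring
      rw [e]
      have : s ^ 3 * s ≤ s ^ 3 * α := mul_le_mul_of_nonneg_left hsα (by positivity)
      have h6 : s ^ 3 * s * β ^ 2 ≤ s ^ 3 * α * β ^ 2 := mul_le_mul_of_nonneg_right this (by positivity)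
      have h7 : 0 ≤ s ^ 3 * α * β ^ 2 := by positivity
      nlinarith
    have h8 : 0 ≤ 6 * (s ^ 2 * s) * (β ^ 5)⁻¹ * (2 * (α ^ 2) ^ 3 * β ^ 2) := by positivity
    nlinarith
  · have hβ2 : β ^ 2 ≤ 3 * s ^ 2 := by linarith
    have hα2 : α ^ 2 ≤ 2 * s ^ 2 := by linarith
    have hb2 : β ≤ 2 * s := by
      apply le_of_sq' (by positivity)
      nlinarith [sq_nonneg s]
    have ha2 : α ≤ 3/2 * s := by
      apply le_of_sq' (by positivity)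
      nlinarith [sq_nonneg s]
    have t1 : |1 / β ^ 2 - 1 / α ^ 2 + p / (α ^ 2) ^ 3| ≤ 1 / β ^ 2 + 1 / α ^ 2 + s ^ 2 / (α ^ 2) ^ 2 := by
      have hp3 : |p / (α ^ 2) ^ 3| ≤ s ^ 2 / (α ^ 2) ^ 2 := by
        rw [abs_div, abs_of_pos (by positivity : 0 < (α ^ 2) ^ 3), div_le_div_iff₀ (by positivity) (by positivity)]
        have := mul_le_mul_of_nonneg_right hp (by positivity : 0 ≤ (α ^ 2) ^ 2)
        nlinarith
      have h1 : 0 ≤ 1 / β ^ 2 := by positivity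
      have h2 : 0 ≤ 1 / α ^ 2 := by positivity
      have h3 := abs_le.1 hp3
      rw [abs_le]; constructor <;> linarith
    refine t1.trans ?_
    have q1 : 1 / β ^ 2 ≤ 6 * (s ^ 2 * s) * (β ^ 5)⁻¹ := by
      rw [← div_eq_mul_inv, div_le_div_iff₀ (by positivity) (by positivity)]
      have : β ^ 3 ≤ 6 * s ^ 3 := by
        calc β ^ 3 = β ^ 2 * β := by ring
          _ ≤ 3 * s ^ 2 * (2 * s) := mul_le_mul hβ2 hb2 hβ.le (by positivity)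
          _ = 6 * s ^ 3 := by ring
      have := mul_le_mul_of_nonneg_right this (by positivity : 0 ≤ β ^ 2)
      nlinarith
    have q2 : 1 / α ^ 2 ≤ 3 * (s ^ 2 * s) * (α ^ 5)⁻¹ := by
      rw [← div_eq_mul_inv, div_le_div_iff₀ (by positivity) (by positivity)]
      have : α ^ 3 ≤ 3 * s ^ 3 := by
        calc α ^ 3 = α ^ 2 * α := by ring
          _ ≤ 2 * s ^ 2 * (3/2 * s) := mul_le_mul hα2 ha2 hα.le (by positivity)
          _ = 3 * s ^ 3 := by ring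
      have := mul_le_mul_of_nonneg_right this (by positivity : 0 ≤ α ^ 2)
      nlinarith
    have q3 : s ^ 2 / (α ^ 2) ^ 2 ≤ 3 * (s ^ 2 * s) * (α ^ 5)⁻¹ := by
      rw [← div_eq_mul_inv, div_le_div_iff₀ (by positivity) (by positivity)]
      have : s ^ 2 * α ≤ s ^ 2 * (3/2 * s) := mul_le_mul_of_nonneg_left ha2 (by positivity)
      have := mul_le_mul_of_nonneg_right this (by positivity : 0 ≤ α ^ 4)
      have : 0 ≤ s ^ 3 * α ^ 4 := by positivity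
      nlinarith
    have e : 6 * (s ^ 2 * s) * ((α ^ 5)⁻¹ + (β ^ 5)⁻¹) = 6 * (s ^ 2 * s) * (β ^ 5)⁻¹ + 3 * (s ^ 2 * s) * (α ^ 5)⁻¹ + 3 * (s ^ 2 * s) * (α ^ 5)⁻¹ := by ring
    rw [e]
    linarith

lemma ker_exp {v w : E3} (hv : v ≠ 0) (hvw : v + w ≠ 0) :
    |1 / ‖v + w‖ - 1 / ‖v‖ + ⟪v, w⟫ / ‖v‖ ^ 3| ≤ 6 * (‖w‖ * √‖w‖) * (h5 ‖v‖ + h5 ‖v + w‖) := by
  refine ker_exp_aux (norm_pos_iff.2 hv) (norm_pos_iff.2 hvw) (norm_nonneg w) ?_ (abs_real_inner_le_norm v w) ?_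
  · have := abs_norm_sub_norm_le (v + w) v
    rwa [add_sub_cancel_left] at this
  · exact norm_add_sq_real v w

/-! ### vector kernels -/

noncomputable def kv (v : E3) : E3 := (‖v‖ ^ 3)⁻¹ • v
noncomputable def ke (ε : ℝ) (v : E3) : E3 := ((max ‖v‖ ε) ^ 3)⁻¹ • v

lemma kv_norm (v : E3) : ‖kv v‖ = (‖v‖ ^ 2)⁻¹ := by
  unfold kv
  rw [norm_smul, Real.norm_of_nonneg (by positivity)]
  rcases eq_or_ne v 0 with h | h
  · subst h; simp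
  · have : 0 < ‖v‖ := norm_pos_iff.2 h
    field_simp

lemma kv_neg (v : E3) : kv (-v) = - kv v := by unfold kv; rw [norm_neg, smul_neg]
lemma ke_neg (ε : ℝ) (v : E3) : ke ε (-v) = - ke ε v := by unfold ke; rw [norm_neg, smul_neg]

lemma kv_inner (v w : E3) : ⟪kv v, w⟫ = ⟪v, w⟫ / ‖v‖ ^ 3 := by
  unfold kv
  rw [real_inner_smul_left, div_eq_inv_mul]

lemma kv_meas : Measurable kv := (measurable_norm.pow_const 3).inv.smul measurable_id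
lemma ke_meas (ε : ℝ) : Measurable (ke ε) := ((measurable_norm.max measurable_const).pow_const 3).inv.smul measurable_id

lemma ke_norm_aux {ε : ℝ} (hε : 0 < ε) (v : E3) : ‖ke ε v‖ ≤ ((max ‖v‖ ε) ^ 2)⁻¹ := by
  unfold ke
  have hM : 0 < max ‖v‖ ε := lt_max_of_lt_right hε
  rw [norm_smul, Real.norm_of_nonneg (by positivity)]
  have h1 : ‖v‖ ≤ max ‖v‖ ε := le_max_left _ _
  calc ((max ‖v‖ ε) ^ 3)⁻¹ * ‖v‖ ≤ ((max ‖v‖ ε) ^ 3)⁻¹ * max ‖v‖ ε := mul_le_mul_of_nonneg_left h1 (by positivity)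
    _ = ((max ‖v‖ ε) ^ 2)⁻¹ := by field_simp

lemma ke_norm_eps {ε : ℝ} (hε : 0 < ε) (v : E3) : ‖ke ε v‖ ≤ (ε ^ 2)⁻¹ :=
  (ke_norm_aux hε v).trans (inv_anti₀ (by positivity) (pow_le_pow_left₀ hε.le (le_max_right _ _) 2))

lemma ke_norm_v {ε : ℝ} (hε : 0 < ε) {v : E3} {L : ℝ} (hL : 0 < L) (h : L ≤ ‖v‖) : ‖ke ε v‖ ≤ (L ^ 2)⁻¹ :=
  (ke_norm_aux hε v).trans (inv_anti₀ (by positivity) (pow_le_pow_left₀ hL.le (h.trans (le_max_left _ _)) 2))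

lemma ke_lip {ε : ℝ} (hε : 0 < ε) (v v' : E3) : ‖ke ε v - ke ε v'‖ ≤ 4 / ε ^ 3 * ‖v - v'‖ := by
  have key : ∀ v v' : E3, max ‖v'‖ ε ≤ max ‖v‖ ε → ‖ke ε v - ke ε v'‖ ≤ 4 / ε ^ 3 * ‖v - v'‖ := by
    intro v v' h
    have hM' : 0 < max ‖v'‖ ε := lt_max_of_lt_right hε
    have hM : 0 < max ‖v‖ ε := lt_max_of_lt_right hε
    have hεM : ε ≤ max ‖v‖ ε := le_max_right _ _
    have hεM' : ε ≤ max ‖v'‖ ε := le_max_right _ _
    have hv' : ‖v'‖ ≤ max ‖v'‖ ε := le_max_left _ _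
    have hd : max ‖v‖ ε - max ‖v'‖ ε ≤ ‖v - v'‖ := by
      have h1 := abs_max_sub_max_le_abs ‖v‖ ‖v'‖ ε
      exact (le_abs_self _).trans (h1.trans (abs_norm_sub_norm_le v v'))
    have e : ke ε v - ke ε v' = ((max ‖v‖ ε) ^ 3)⁻¹ • (v - v') - (((max ‖v'‖ ε) ^ 3)⁻¹ - ((max ‖v‖ ε) ^ 3)⁻¹) • v' := by
      unfold ke; module
    set M := max ‖v‖ ε with hMd
    set M' := max ‖v'‖ ε with hMd'
    have hinv : 0 ≤ (M' ^ 3)⁻¹ - (M ^ 3)⁻¹ := sub_nonneg.2 (inv_anti₀ (by positivity) (pow_le_pow_left₀ hM'.le h 3))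
    rw [e]
    refine (norm_sub_le _ _).trans ?_
    rw [norm_smul, norm_smul, Real.norm_of_nonneg (by positivity : 0 ≤ (M ^ 3)⁻¹), Real.norm_of_nonneg hinv]
    have t1 : (M ^ 3)⁻¹ * ‖v - v'‖ ≤ (ε ^ 3)⁻¹ * ‖v - v'‖ :=
      mul_le_mul_of_nonneg_right (inv_anti₀ (by positivity) (pow_le_pow_left₀ hε.le hεM 3)) (norm_nonneg _)
    have t2 : ((M' ^ 3)⁻¹ - (M ^ 3)⁻¹) * ‖v'‖ ≤ 3 * (ε ^ 3)⁻¹ * ‖v - v'‖ := by
      have s1 : ((M' ^ 3)⁻¹ - (M ^ 3)⁻¹) * ‖v'‖ ≤ ((M' ^ 3)⁻¹ - (M ^ 3)⁻¹) * M' := mul_le_mul_of_nonneg_left hv' hinv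
      have s2 : ((M' ^ 3)⁻¹ - (M ^ 3)⁻¹) * M' = (M - M') * ((M ^ 2 + M * M' + M' ^ 2) * ((M ^ 3)⁻¹ * (M' ^ 2)⁻¹)) := by
        field_simp
        ring
      have s3 : (M ^ 2 + M * M' + M' ^ 2) * ((M ^ 3)⁻¹ * (M' ^ 2)⁻¹) ≤ 3 * (ε ^ 3)⁻¹ := by
        have r1 : M ^ 2 + M * M' + M' ^ 2 ≤ 3 * M ^ 2 := by nlinarith
        have r2 := mul_le_mul_of_nonneg_right r1 (by positivity : 0 ≤ (M ^ 3)⁻¹ * (M' ^ 2)⁻¹)
        have r3 : 3 * M ^ 2 * ((M ^ 3)⁻¹ * (M' ^ 2)⁻¹) = 3 * (M * M' ^ 2)⁻¹ := by field_simp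
        have r4 : (M * M' ^ 2)⁻¹ ≤ (ε ^ 3)⁻¹ := by
          apply inv_anti₀ (by positivity)
          calc ε ^ 3 = ε * ε ^ 2 := by ring
            _ ≤ M * M' ^ 2 := mul_le_mul hεM (pow_le_pow_left₀ hε.le hεM' 2) (by positivity) hM.le
        linarith
      rw [s2] at s1
      refine s1.trans ?_
      calc (M - M') * ((M ^ 2 + M * M' + M' ^ 2) * ((M ^ 3)⁻¹ * (M' ^ 2)⁻¹)) ≤ (M - M') * (3 * (ε ^ 3)⁻¹) :=
            mul_le_mul_of_nonneg_left s3 (sub_nonneg.2 h)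
        _ ≤ ‖v - v'‖ * (3 * (ε ^ 3)⁻¹) := mul_le_mul_of_nonneg_right hd (by positivity)
        _ = 3 * (ε ^ 3)⁻¹ * ‖v - v'‖ := by ring
    calc (M ^ 3)⁻¹ * ‖v - v'‖ + ((M' ^ 3)⁻¹ - (M ^ 3)⁻¹) * ‖v'‖ ≤ (ε ^ 3)⁻¹ * ‖v - v'‖ + 3 * (ε ^ 3)⁻¹ * ‖v - v'‖ := add_le_add t1 t2
      _ = 4 / ε ^ 3 * ‖v - v'‖ := by rw [div_eq_mul_inv]; ring
  rcases le_total (max ‖v'‖ ε) (max ‖v‖ ε) with h | h
  · exact key v v' h
  · rw [norm_sub_rev, norm_sub_rev v v']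
    exact key v' v h

noncomputable def kd (ε : ℝ) (v : E3) : E3 := kv v - ke ε v

lemma kd_meas (ε : ℝ) : Measurable (kd ε) := kv_meas.sub (ke_meas ε)
lemma kd_neg (ε : ℝ) (v : E3) : kd ε (-v) = - kd ε v := by unfold kd; rw [kv_neg, ke_neg]; abel

lemma kd_zero {ε : ℝ} {v : E3} (h : ε ≤ ‖v‖) : kd ε v = 0 := by
  unfold kd kv ke
  rw [max_eq_left h, sub_self]

lemma kd_norm {ε : ℝ} (_hε : 0 < ε) (v : E3) : ‖kd ε v‖ ≤ (‖v‖ ^ 2)⁻¹ := by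
  rcases eq_or_ne v 0 with h0 | h0
  · subst h0; simp [kd, kv, ke]
  have hv : 0 < ‖v‖ := norm_pos_iff.2 h0
  have hM : ‖v‖ ≤ max ‖v‖ ε := le_max_left _ _
  have e : kd ε v = ((‖v‖ ^ 3)⁻¹ - ((max ‖v‖ ε) ^ 3)⁻¹) • v := by unfold kd kv ke; module
  have h1 : 0 ≤ (‖v‖ ^ 3)⁻¹ - ((max ‖v‖ ε) ^ 3)⁻¹ := sub_nonneg.2 (inv_anti₀ (by positivity) (pow_le_pow_left₀ hv.le hM 3))
  rw [e, norm_smul, Real.norm_of_nonneg h1]
  have h2 : 0 ≤ ((max ‖v‖ ε) ^ 3)⁻¹ := by positivity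
  calc ((‖v‖ ^ 3)⁻¹ - ((max ‖v‖ ε) ^ 3)⁻¹) * ‖v‖ ≤ (‖v‖ ^ 3)⁻¹ * ‖v‖ := mul_le_mul_of_nonneg_right (by linarith) hv.le
    _ = (‖v‖ ^ 2)⁻¹ := by field_simp

/-- an integral of a radial weight against an odd kernel vanishes -/
lemma odd_zero (s : ℝ → ℝ) (κ : E3 → E3) (hκ : ∀ v, κ (-v) = - κ v) (x : E3) : ∫ y, s ‖x - y‖ • κ (x - y) = 0 := by
  have h1 : ∫ y, s ‖x - y‖ • κ (x - y) = ∫ u : E3, s ‖u‖ • κ u :=
    integral_sub_left_eq_self (fun u : E3 => s ‖u‖ • κ u) volume x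
  rw [h1]
  have h2 : ∫ u : E3, s ‖u‖ • κ u = ∫ u : E3, s ‖-u‖ • κ (-u) :=
    (integral_neg_eq_self (fun u : E3 => s ‖u‖ • κ u) volume).symm
  have h3 : ∫ u : E3, s ‖-u‖ • κ (-u) = - ∫ u : E3, s ‖u‖ • κ u := by
    rw [← integral_neg]
    congr 1
    funext u
    rw [norm_neg, hκ, smul_neg]
  rw [h3] at h2
  have h4 : (2:ℝ) • (∫ u : E3, s ‖u‖ • κ u) = 0 := by
    rw [two_smul]
    nth_rewrite 1 [h2]
    abel
  rcases smul_eq_zero.1 h4 with h | h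
  · norm_num at h
  · exact h

/-! ### small balls -/

noncomputable def j5 (ε : ℝ) (v : E3) : ℝ := if ‖v‖ < ε then h5 ‖v‖ else 0

lemma j5_nonneg (ε : ℝ) (v : E3) : 0 ≤ j5 ε v := by
  unfold j5; split_ifs
  · exact h5_nonneg _
  · exact le_rfl

lemma j5_meas (ε : ℝ) : Measurable (j5 ε) := by
  unfold j5
  exact Measurable.ite (measurableSet_lt measurable_norm measurable_const) (h5_meas.comp measurable_norm) measurable_const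

lemma j5_mono {ε ε' : ℝ} (h : ε ≤ ε') (v : E3) : j5 ε v ≤ j5 ε' v := by
  unfold j5
  split_ifs with h1 h2 h2
  · exact le_rfl
  · exact absurd (h1.trans_le h) h2
  · exact h5_nonneg _
  · exact le_rfl

lemma j5_kap {ε : ℝ} (h : ε ≤ 1) (v : E3) : j5 ε v ≤ kap5 v := by
  unfold j5 kap5
  split_ifs with h1 h2 h2
  · rcases eq_or_lt_of_le (norm_nonneg v) with h0 | h0
    · rw [← h0, h5_zero]; exact Real.rpow_nonneg le_rfl _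
    · rw [rpow52 h0]; exact le_rfl
  · exact absurd (h1.trans_le h) h2
  · exact Real.rpow_nonneg (norm_nonneg _) _
  · exact le_rfl

lemma j5_int {ε : ℝ} (h : ε ≤ 1) : Integrable (j5 ε) :=
  kap5_int.mono' (j5_meas ε).aestronglyMeasurable (ae_of_all _ (fun v => by
    rw [Real.norm_of_nonneg (j5_nonneg ε v)]; exact j5_kap h v))

noncomputable def J5 (ε : ℝ) : ℝ := ∫ v, j5 ε v

lemma J5_nonneg (ε : ℝ) : 0 ≤ J5 ε := integral_nonneg (j5_nonneg ε)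

lemma J5_small {κ δ : ℝ} (hκ : 0 < κ) (hδ : 0 < δ) : ∃ ε, 0 < ε ∧ ε ≤ δ ∧ ε ≤ 1 ∧ J5 ε ≤ κ := by
  obtain ⟨r, hr, h1, h2⟩ := TF_nice_modulus_small κ hκ
  refine ⟨min (2 * r) (min δ 1), by positivity, (min_le_right _ _).trans (min_le_left _ _),
    (min_le_right _ _).trans (min_le_right _ _), ?_⟩
  refine le_trans ?_ h2
  refine integral_mono (j5_int ((min_le_right _ _).trans (min_le_right _ _))) h1 (fun v => ?_)
  simp only [j5, Set.indicator, mem_ball_zero_iff]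
  split_ifs with h3 h4 h4
  · rcases eq_or_lt_of_le (norm_nonneg v) with h0 | h0
    · rw [← h0, h5_zero]; exact Real.rpow_nonneg le_rfl _
    · rw [rpow52 h0]; exact le_rfl
  · exact absurd (h3.trans_le (min_le_left _ _)) h4
  · exact Real.rpow_nonneg (norm_nonneg _) _
  · exact le_rfl

end Pool.Agent.Q233.FT
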