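import Pool.Agent.Q233.FT.B

/-!
# Force integrals near a nucleus
-/

set_option autoImplicit false
open MeasureTheory Set Filter Topology Metric
open scoped RealInnerProductSpace BigOperators ENNReal
open Pool.Agent.Helper557 Pool.Agent.Helper557.TFP
open Pool.Agent.H9R2.TF Pool.Agent.Q233.TFShell Pool.Agent.Q233.TFAtom Pool.Agent.Q233.TFSat
  Pool.Agent.Q233.TFSup Pool.Agent.Q233.TFCmp Pool.Agent.Q233.TFMol Pool.Agent.Q233.TFIon

namespace Pool.Agent.Q233.FT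

/-- force integral -/
noncomputable def PV (ρ : E3 → ℝ) (x : E3) : E3 := ∫ y, ρ y • kv (x - y)
/-- smoothed force integral -/
noncomputable def Pe (ε : ℝ) (ρ : E3 → ℝ) (x : E3) : E3 := ∫ y, ρ y • ke ε (x - y)

lemma inv_sq_le_kap (u : E3) : (‖u‖ ^ 2)⁻¹ ≤ 1 + kap u := by
  unfold kap
  split_ifs with h
  · linarith
  · have h1 : 1 ≤ ‖u‖ := not_lt.1 h
    have := inv_le_one_of_one_le₀ (one_le_pow₀ h1 : 1 ≤ ‖u‖ ^ 2)
    linarith

lemma smul_kv_meas {ρ : E3 → ℝ} (h : Measurable ρ) (x : E3) : AEStronglyMeasurable (fun y => ρ y • kv (x - y)) volume :=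
  (h.smul (kv_meas.comp (measurable_const.sub measurable_id))).aestronglyMeasurable

lemma pv_int {ρ : E3 → ℝ} (hn : Nice ρ) {N : ℝ} (hN : ∀ y, |ρ y| ≤ N) (x : E3) : Integrable (fun y => ρ y • kv (x - y)) := by
  refine (hn.2.1.abs.add ((kap5_shift1 x).1.const_mul N)).mono' (smul_kv_meas hn.1 x) (ae_of_all _ (fun y => ?_))
  rw [norm_smul, kv_norm, Real.norm_eq_abs]
  have h1 := inv_sq_le_kap (x - y)
  have h2 := kap_le_kap5 (x - y)
  have h3 := mul_le_mul_of_nonneg_left h1 (abs_nonneg (ρ y))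
  have h4 : |ρ y| * kap (x - y) ≤ N * kap5 (x - y) :=
    mul_le_mul (hN y) h2 (kap_nonneg _) ((abs_nonneg _).trans (hN y))
  simp only [Pi.add_apply]
  linarith

lemma pe_int {ρ : E3 → ℝ} (hi : Integrable ρ) {ε : ℝ} (hε : 0 < ε) (x : E3) :
    Integrable (fun y => ρ y • ke ε (x - y)) := by
  have hk : AEStronglyMeasurable (fun y => ke ε (x - y)) volume :=
    ((ke_meas ε).comp (measurable_const.sub measurable_id)).aestronglyMeasurable
  refine (hi.abs.mul_const ((ε ^ 2)⁻¹)).mono' (hi.1.smul hk) (ae_of_all _ (fun y => ?_))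
  rw [norm_smul, Real.norm_eq_abs]
  exact mul_le_mul_of_nonneg_left (ke_norm_eps hε _) (abs_nonneg _)

lemma h5_intble {ρ : E3 → ℝ} (hn : Nice ρ) {N : ℝ} (hN : ∀ y, |ρ y| ≤ N) (x : E3) :
    Integrable (fun y => |ρ y| * h5 ‖x - y‖) ∧ ∫ y, |ρ y| * h5 ‖x - y‖ ≤ N * I5 + ∫ y, |ρ y| := by
  have hb : ∀ y, |ρ y| * h5 ‖x - y‖ ≤ N * kap5 (x - y) + |ρ y| := by
    intro y
    have h1 := mul_le_mul_of_nonneg_left (h5_kap (x - y)) (abs_nonneg (ρ y))
    have h2 := mul_le_mul_of_nonneg_right (hN y) (kap5_nonneg (x - y))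
    linarith
  have i1 : Integrable (fun y => N * kap5 (x - y) + |ρ y|) := ((kap5_shift1 x).1.const_mul N).add hn.2.1.abs
  have i2 : Integrable (fun y => |ρ y| * h5 ‖x - y‖) := by
    refine i1.mono' ?_ (ae_of_all _ (fun y => ?_))
    · exact (hn.1.abs.mul (h5_meas.comp ((measurable_const.sub measurable_id).norm))).aestronglyMeasurable
    · rw [Real.norm_of_nonneg (mul_nonneg (abs_nonneg _) (h5_nonneg _))]
      exact hb y
  refine ⟨i2, (integral_mono i2 i1 hb).trans ?_⟩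
  rw [integral_add ((kap5_shift1 x).1.const_mul N) hn.2.1.abs, integral_const_mul, (kap5_shift1 x).2]

/-- first order expansion of the potential of a bounded density -/
theorem pot_exp {ρ : E3 → ℝ} (hn : Nice ρ) (h0 : ∀ y, 0 ≤ ρ y) {N lam : ℝ} (hN : ∀ y, ρ y ≤ N) (hl : ∫ y, ρ y ≤ lam)
    (x w : E3) : |pot ρ (x + w) - pot ρ x + ⟪PV ρ x, w⟫| ≤ 12 * (N * I5 + lam) * (‖w‖ * √‖w‖) := by
  have hN' : ∀ y, |ρ y| ≤ N := fun y => by rw [abs_of_nonneg (h0 y)]; exact hN y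
  obtain ⟨B, hB⟩ := nice_bound ρ hn
  have i1 := (hB (x + w)).1
  have i2 := (hB x).1
  have i3 := pv_int hn hN' x
  have i3' : Integrable (fun y => ⟪w, ρ y • kv (x - y)⟫) := i3.const_inner w
  have e1 : ⟪PV ρ x, w⟫ = ∫ y, ⟪w, ρ y • kv (x - y)⟫ := by
    rw [real_inner_comm]
    exact (integral_inner i3 w).symm
  have e2 : pot ρ (x + w) - pot ρ x + ⟪PV ρ x, w⟫ = ∫ y, (ρ y / ‖x + w - y‖ - ρ y / ‖x - y‖ + ⟪w, ρ y • kv (x - y)⟫) := by
    have i12 : Integrable (fun y => ρ y / ‖x + w - y‖ - ρ y / ‖x - y‖) := i1.sub i2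
    rw [e1]
    unfold pot
    rw [← integral_sub i1 i2, ← integral_add i12 i3']
  rw [e2]
  have hh : ∫ y, |ρ y| = ∫ y, ρ y := by congr 1; funext y; exact abs_of_nonneg (h0 y)
  obtain ⟨j1, j1'⟩ := h5_intble hn hN' x
  obtain ⟨j2, j2'⟩ := h5_intble hn hN' (x + w)
  refine (abs_integral_le_integral_abs).trans ?_
  have hc : 0 ≤ 6 * (‖w‖ * √‖w‖) := by positivity
  have hi : Integrable (fun y => 6 * (‖w‖ * √‖w‖) * (|ρ y| * h5 ‖x - y‖ + |ρ y| * h5 ‖x + w - y‖)) := (j1.add j2).const_mul _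
  have hle : ∫ y, |ρ y / ‖x + w - y‖ - ρ y / ‖x - y‖ + ⟪w, ρ y • kv (x - y)⟫|
      ≤ ∫ y, 6 * (‖w‖ * √‖w‖) * (|ρ y| * h5 ‖x - y‖ + |ρ y| * h5 ‖x + w - y‖) := by
    refine integral_mono_ae ((i1.sub i2).add i3').abs hi ?_
    have ha1 : ∀ᵐ y : E3, y ≠ x := by
      rw [ae_iff]; simp
    have ha2 : ∀ᵐ y : E3, y ≠ x + w := by
      rw [ae_iff]; simp
    filter_upwards [ha1, ha2] with y hy1 hy2
    have k := ker_exp (v := x - y) (w := w) (sub_ne_zero.2 hy1.symm) (by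
      rw [show x - y + w = x + w - y by abel]; exact sub_ne_zero.2 hy2.symm)
    rw [show x - y + w = x + w - y by abel] at k
    have e3 : ρ y / ‖x + w - y‖ - ρ y / ‖x - y‖ + ⟪w, ρ y • kv (x - y)⟫
        = ρ y * (1 / ‖x + w - y‖ - 1 / ‖x - y‖ + ⟪x - y, w⟫ / ‖x - y‖ ^ 3) := by
      rw [real_inner_smul_right, real_inner_comm, kv_inner]; ring
    rw [e3, abs_mul]
    have := mul_le_mul_of_nonneg_left k (abs_nonneg (ρ y))
    linarith
  refine hle.trans ?_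
  rw [integral_const_mul, integral_add j1 j2]
  have : (∫ y, |ρ y| * h5 ‖x - y‖) + (∫ y, |ρ y| * h5 ‖x + w - y‖) ≤ 2 * (N * I5 + lam) := by
    rw [hh] at j1' j2'
    linarith
  have := mul_le_mul_of_nonneg_left this hc
  linarith

/-- integrability of a bounded radial weight against `kd` -/
lemma s_kd_int {s : ℝ → ℝ} (hs : Measurable s) {N : ℝ} (hN : ∀ r, |s r| ≤ N) {ε : ℝ} (hε : 0 < ε) (h1 : ε ≤ 1) (p : E3) :
    Integrable (fun y => s ‖p - y‖ • kd ε (p - y)) := by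
  have hN0 : 0 ≤ N := (abs_nonneg _).trans (hN 0)
  refine ((kap5_shift1 p).1.const_mul N).mono' ?_ (ae_of_all _ (fun y => ?_))
  · exact ((hs.comp ((measurable_const.sub measurable_id).norm)).smul
      ((kd_meas ε).comp (measurable_const.sub measurable_id))).aestronglyMeasurable
  · rw [norm_smul, Real.norm_eq_abs]
    rcases le_or_gt ε ‖p - y‖ with h | h
    · rw [kd_zero h, norm_zero, mul_zero]
      exact mul_nonneg hN0 (kap5_nonneg _)
    · refine mul_le_mul (hN _) ?_ (norm_nonneg _) hN0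
      refine (kd_norm hε _).trans ?_
      refine le_trans ?_ (kap_le_kap5 _)
      unfold kap
      rw [if_pos (h.trans_le h1)]

lemma kd_bound {f : E3 → ℝ} {p : E3} {A δ ε : ℝ} (hA : 0 ≤ A) (hε : 0 < ε) (hεδ : ε ≤ δ)
    (hf : ∀ y, 0 < ‖p - y‖ → ‖p - y‖ < δ → |f y| ≤ A * (√‖p - y‖)⁻¹) (y : E3) :
    ‖f y • kd ε (p - y)‖ ≤ A * j5 ε (p - y) := by
  rw [norm_smul, Real.norm_eq_abs]
  rcases le_or_gt ε ‖p - y‖ with h | h
  · rw [kd_zero h, norm_zero, mul_zero]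
    exact mul_nonneg hA (j5_nonneg _ _)
  rcases eq_or_lt_of_le (norm_nonneg (p - y)) with h0 | h0
  · have : p - y = 0 := norm_eq_zero.1 h0.symm
    rw [this]
    have e : kd ε (0:E3) = 0 := by simp [kd, kv, ke]
    rw [e, norm_zero, mul_zero]
    exact mul_nonneg hA (j5_nonneg _ _)
  unfold j5
  rw [if_pos h]
  unfold h5
  calc |f y| * ‖kd ε (p - y)‖ ≤ (A * (√‖p - y‖)⁻¹) * (‖p - y‖ ^ 2)⁻¹ :=
        mul_le_mul (hf y h0 (h.trans_le hεδ)) (kd_norm hε _) (norm_nonneg _) (by positivity)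
    _ = A * ((‖p - y‖ ^ 2)⁻¹ * (√‖p - y‖)⁻¹) := by ring

/-- bounded densities -/
theorem near_bdd {ρ : E3 → ℝ} (hn : Nice ρ) {N : ℝ} (hN : ∀ y, |ρ y| ≤ N) {p : E3} {δ A : ℝ} {s : ℝ → ℝ} (hs : Measurable s)
    (hsN : ∀ r, |s r| ≤ N) (hA : 0 ≤ A)
    (hc : ∀ y, 0 < ‖p - y‖ → ‖p - y‖ < δ → |ρ y - s ‖p - y‖| ≤ A * (√‖p - y‖)⁻¹) {ε : ℝ} (hε : 0 < ε) (hεδ : ε ≤ δ) (hε1 : ε ≤ 1) :
    ‖PV ρ p - Pe ε ρ p‖ ≤ A * J5 ε := by
  have i1 := pv_int hn hN p
  have i2 := pe_int hn.2.1 hε p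
  have i3 := s_kd_int hs hsN hε hε1 p
  have e1 : PV ρ p - Pe ε ρ p = ∫ y, ρ y • kd ε (p - y) := by
    unfold PV Pe
    rw [← integral_sub i1 i2]
    congr 1
    funext y
    rw [← smul_sub]; rfl
  have i4 : Integrable (fun y => ρ y • kd ε (p - y)) := by
    refine (i1.sub i2).congr (ae_of_all _ (fun y => ?_))
    simp only [Pi.sub_apply]
    rw [← smul_sub]; rfl
  have e2 : ∫ y, ρ y • kd ε (p - y) = ∫ y, (ρ y - s ‖p - y‖) • kd ε (p - y) := by
    have h1 := odd_zero s (kd ε) (kd_neg ε) p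
    have h2 : ∫ y, (ρ y - s ‖p - y‖) • kd ε (p - y) = (∫ y, ρ y • kd ε (p - y)) - ∫ y, s ‖p - y‖ • kd ε (p - y) := by
      rw [← integral_sub i4 i3]
      congr 1
      funext y
      rw [sub_smul]
    rw [h2, h1, sub_zero]
  rw [e1, e2]
  refine (norm_integral_le_integral_norm _).trans ?_
  have i5 : Integrable (fun y => (ρ y - s ‖p - y‖) • kd ε (p - y)) := by
    refine (i4.sub i3).congr (ae_of_all _ (fun y => ?_))
    simp only [Pi.sub_apply]
    rw [sub_smul]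
  have hj : Integrable (fun y => A * j5 ε (p - y)) := ((j5_int hε1).comp_sub_left p).const_mul A
  refine (integral_mono i5.norm hj (fun y => kd_bound hA hε hεδ hc y)).trans ?_
  rw [integral_const_mul, integral_sub_left_eq_self (j5 ε) volume p]
  exact le_rfl

/-- the density minus the radial leading part -/
noncomputable def rf (ρ : E3 → ℝ) (s : ℝ → ℝ) (δ : ℝ) (p y : E3) : ℝ := ρ y - (if ‖p - y‖ < δ then s ‖p - y‖ else 0)

lemma sd_meas {s : ℝ → ℝ} (hs : Measurable s) (δ : ℝ) : Measurable (fun r : ℝ => if r < δ then s r else 0) :=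
  Measurable.ite (measurableSet_lt measurable_id measurable_const) hs measurable_const

lemma rf_meas {ρ : E3 → ℝ} (hρ : Measurable ρ) {s : ℝ → ℝ} (hs : Measurable s) (δ : ℝ) (p : E3) : Measurable (rf ρ s δ p) :=
  hρ.sub ((sd_meas hs δ).comp ((measurable_const.sub measurable_id).norm))

/-- the force, as an absolutely convergent integral -/
noncomputable def FZ (ρ : E3 → ℝ) (s : ℝ → ℝ) (δ : ℝ) (p : E3) : E3 := - ∫ y, rf ρ s δ p y • kv (p - y)

/-- the cut off force integral -/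
noncomputable def Tr (ρ : E3 → ℝ) (p : E3) (a : ℝ) : E3 := ∫ y in {y | a < ‖y - p‖}, (ρ y / ‖y - p‖ ^ 3) • (y - p)

section Full
variable {ρ : E3 → ℝ} {p : E3} {δ A : ℝ} {s : ℝ → ℝ}

lemma rf_near (hc : ∀ y, 0 < ‖p - y‖ → ‖p - y‖ < δ → |ρ y - s ‖p - y‖| ≤ A * (√‖p - y‖)⁻¹) (y : E3) (h0 : 0 < ‖p - y‖)
    (h : ‖p - y‖ < δ) : |rf ρ s δ p y| ≤ A * (√‖p - y‖)⁻¹ := by
  unfold rf
  rw [if_pos h]
  exact hc y h0 h

lemma rf_far (y : E3) (h : δ ≤ ‖p - y‖) : rf ρ s δ p y = ρ y := by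
  unfold rf
  rw [if_neg (not_lt.2 h), sub_zero]

lemma rf_kv_bound (hA : 0 ≤ A) (hδ : 0 < δ)
    (hc : ∀ y, 0 < ‖p - y‖ → ‖p - y‖ < δ → |ρ y - s ‖p - y‖| ≤ A * (√‖p - y‖)⁻¹) (y : E3) :
    ‖rf ρ s δ p y • kv (p - y)‖ ≤ A * j5 δ (p - y) + |ρ y| * (δ ^ 2)⁻¹ := by
  rw [norm_smul, Real.norm_eq_abs, kv_norm]
  have hx : 0 ≤ |ρ y| * (δ ^ 2)⁻¹ := by positivity
  have hy : 0 ≤ A * j5 δ (p - y) := mul_nonneg hA (j5_nonneg _ _)
  rcases le_or_gt δ ‖p - y‖ with h | h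
  · rw [rf_far y h]
    have : (‖p - y‖ ^ 2)⁻¹ ≤ (δ ^ 2)⁻¹ := inv_anti₀ (by positivity) (pow_le_pow_left₀ hδ.le h 2)
    have := mul_le_mul_of_nonneg_left this (abs_nonneg (ρ y))
    linarith
  rcases eq_or_lt_of_le (norm_nonneg (p - y)) with h0 | h0
  · rw [← h0]; simp
    linarith
  · have h1 := mul_le_mul_of_nonneg_right (rf_near hc y h0 h) (by positivity : (0:ℝ) ≤ (‖p - y‖ ^ 2)⁻¹)
    have e : j5 δ (p - y) = (‖p - y‖ ^ 2)⁻¹ * (√‖p - y‖)⁻¹ := by unfold j5; rw [if_pos h]; rfl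
    rw [e]
    nlinarith

lemma rf_kv_int (hn : Nice ρ) (hs : Measurable s) (hA : 0 ≤ A) (hδ : 0 < δ) (hδ1 : δ ≤ 1)
    (hc : ∀ y, 0 < ‖p - y‖ → ‖p - y‖ < δ → |ρ y - s ‖p - y‖| ≤ A * (√‖p - y‖)⁻¹) :
    Integrable (fun y => rf ρ s δ p y • kv (p - y)) := by
  have hj : Integrable (fun y => A * j5 δ (p - y)) := ((j5_int hδ1).comp_sub_left p).const_mul A
  exact (hj.add (hn.2.1.abs.mul_const _)).mono' (smul_kv_meas (rf_meas hn.1 hs δ p) p) (ae_of_all _ (rf_kv_bound hA hδ hc))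

lemma ae_ne' (p : E3) : ∀ᵐ y : E3, 0 < ‖p - y‖ := by
  have : ∀ᵐ y : E3, y ≠ p := by rw [ae_iff]; simp
  filter_upwards [this] with y hy
  exact norm_pos_iff.2 (sub_ne_zero.2 hy.symm)

lemma rf_int (hn : Nice ρ) (hs : Measurable s) (hA : 0 ≤ A) (hδ1 : δ ≤ 1)
    (hc : ∀ y, 0 < ‖p - y‖ → ‖p - y‖ < δ → |ρ y - s ‖p - y‖| ≤ A * (√‖p - y‖)⁻¹) : Integrable (rf ρ s δ p) := by
  have hj : Integrable (fun y => A * j5 δ (p - y)) := ((j5_int hδ1).comp_sub_left p).const_mul A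
  refine (hj.add hn.2.1.abs).mono' (rf_meas hn.1 hs δ p).aestronglyMeasurable ?_
  filter_upwards [ae_ne' p] with y h0
  rw [Real.norm_eq_abs, Pi.add_apply]
  have hy : 0 ≤ A * j5 δ (p - y) := mul_nonneg hA (j5_nonneg _ _)
  rcases le_or_gt δ ‖p - y‖ with h | h
  · rw [rf_far y h]; linarith
  · refine (rf_near hc y h0 h).trans ?_
    have e : j5 δ (p - y) = (‖p - y‖ ^ 2)⁻¹ * (√‖p - y‖)⁻¹ := by unfold j5; rw [if_pos h]; rfl
    have h1 : 1 ≤ (‖p - y‖ ^ 2)⁻¹ := (one_le_inv₀ (by positivity)).2 (pow_le_one₀ h0.le (h.le.trans hδ1))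
    have h2 : (√‖p - y‖)⁻¹ ≤ (‖p - y‖ ^ 2)⁻¹ * (√‖p - y‖)⁻¹ := le_mul_of_one_le_left (by positivity) h1
    rw [e]
    have := mul_le_mul_of_nonneg_left h2 hA
    have := abs_nonneg (ρ y)
    linarith

lemma sd_int (hn : Nice ρ) (hs : Measurable s) (hA : 0 ≤ A) (hδ1 : δ ≤ 1)
    (hc : ∀ y, 0 < ‖p - y‖ → ‖p - y‖ < δ → |ρ y - s ‖p - y‖| ≤ A * (√‖p - y‖)⁻¹) :
    Integrable (fun y => if ‖p - y‖ < δ then s ‖p - y‖ else 0) := by
  refine (hn.2.1.sub (rf_int hn hs hA hδ1 hc)).congr (ae_of_all _ (fun y => ?_))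
  simp only [Pi.sub_apply, rf]
  ring

theorem near_Pe (hn : Nice ρ) (hs : Measurable s) (hA : 0 ≤ A) (hδ : 0 < δ) (hδ1 : δ ≤ 1)
    (hc : ∀ y, 0 < ‖p - y‖ → ‖p - y‖ < δ → |ρ y - s ‖p - y‖| ≤ A * (√‖p - y‖)⁻¹) {ε : ℝ} (hε : 0 < ε) (hεδ : ε ≤ δ) :
    ‖-FZ ρ s δ p - Pe ε ρ p‖ ≤ A * J5 ε := by
  have i1 := rf_kv_int hn hs hA hδ hδ1 hc
  have i2 := pe_int (rf_int hn hs hA hδ1 hc) hε p
  have i3 := pe_int (sd_int hn hs hA hδ1 hc) hε p
  have e1 : Pe ε ρ p = ∫ y, rf ρ s δ p y • ke ε (p - y) := by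
    have h0 := odd_zero (fun r => if r < δ then s r else 0) (ke ε) (ke_neg ε) p
    have h1 : (fun y => ρ y • ke ε (p - y)) = fun y => rf ρ s δ p y • ke ε (p - y) + (if ‖p - y‖ < δ then s ‖p - y‖ else 0) • ke ε (p - y) := by
      funext y
      rw [← add_smul]
      congr 1
      unfold rf; ring
    unfold Pe
    rw [h1, integral_add i2 i3, h0, add_zero]
  have e2 : -FZ ρ s δ p - Pe ε ρ p = ∫ y, rf ρ s δ p y • kd ε (p - y) := by
    rw [e1]
    unfold FZ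
    rw [neg_neg, ← integral_sub i1 i2]
    congr 1
    funext y
    rw [← smul_sub]; rfl
  rw [e2]
  refine (norm_integral_le_integral_norm _).trans ?_
  have i4 : Integrable (fun y => rf ρ s δ p y • kd ε (p - y)) := by
    refine (i1.sub i2).congr (ae_of_all _ (fun y => ?_))
    simp only [Pi.sub_apply]
    rw [← smul_sub]; rfl
  have hε1 := hεδ.trans hδ1
  have hj : Integrable (fun y => A * j5 ε (p - y)) := ((j5_int hε1).comp_sub_left p).const_mul A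
  refine (integral_mono i4.norm hj (fun y => kd_bound hA hε hεδ (fun y h0 h => rf_near hc y h0 h) y)).trans ?_
  rw [integral_const_mul, integral_sub_left_eq_self (j5 ε) volume p]
  exact le_rfl

theorem near_Tr (hn : Nice ρ) (hs : Measurable s) (hA : 0 ≤ A) (hδ : 0 < δ) (hδ1 : δ ≤ 1)
    (hc : ∀ y, 0 < ‖p - y‖ → ‖p - y‖ < δ → |ρ y - s ‖p - y‖| ≤ A * (√‖p - y‖)⁻¹) :
    Tendsto (Tr ρ p) (𝓝[>] 0) (𝓝 (FZ ρ s δ p)) := by
  have i1 := rf_kv_int hn hs hA hδ hδ1 hc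
  have hSm : ∀ a : ℝ, MeasurableSet {y : E3 | a < ‖y - p‖} := fun a =>
    measurableSet_lt measurable_const (measurable_id.sub measurable_const).norm
  have e1 : ∀ a : ℝ, 0 < a → Tr ρ p a = - ∫ y, ({y : E3 | a < ‖y - p‖}).indicator (fun y => rf ρ s δ p y • kv (p - y)) y := by
    intro a ha
    have hkb : ∀ y ∈ {y : E3 | a < ‖y - p‖}, ‖kv (p - y)‖ ≤ (a ^ 2)⁻¹ := by
      intro y hy
      rw [kv_norm, norm_sub_rev]
      exact inv_anti₀ (by positivity) (pow_le_pow_left₀ ha.le (le_of_lt hy) 2)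
    have hsd : IntegrableOn (fun y => (if ‖p - y‖ < δ then s ‖p - y‖ else 0) • kv (p - y)) {y : E3 | a < ‖y - p‖} := by
      have h := sd_int hn hs hA hδ1 hc
      have hm : AEStronglyMeasurable (fun y => (if ‖p - y‖ < δ then s ‖p - y‖ else 0) • kv (p - y)) volume :=
        smul_kv_meas ((sd_meas hs δ).comp ((measurable_const.sub measurable_id).norm)) p
      refine (h.abs.mul_const ((a ^ 2)⁻¹)).integrableOn.mono' hm.restrict ?_
      refine (ae_restrict_iff' (hSm a)).2 (ae_of_all _ (fun y hy => ?_))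
      rw [norm_smul, Real.norm_eq_abs]
      exact mul_le_mul_of_nonneg_left (hkb y hy) (abs_nonneg _)
    have h1 : Tr ρ p a = - ∫ y in {y : E3 | a < ‖y - p‖}, ρ y • kv (p - y) := by
      unfold Tr
      rw [← integral_neg]
      congr 1
      funext y
      rw [← smul_neg, ← kv_neg, neg_sub]
      unfold kv
      rw [smul_smul, div_eq_mul_inv]
    have h2 : ∫ y in {y : E3 | a < ‖y - p‖}, ρ y • kv (p - y)
        = (∫ y in {y : E3 | a < ‖y - p‖}, rf ρ s δ p y • kv (p - y))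
          + ∫ y in {y : E3 | a < ‖y - p‖}, (if ‖p - y‖ < δ then s ‖p - y‖ else 0) • kv (p - y) := by
      rw [← integral_add i1.integrableOn hsd]
      congr 1
      funext y
      rw [← add_smul]
      congr 1
      unfold rf; ring
    have h3 : ∫ y in {y : E3 | a < ‖y - p‖}, (if ‖p - y‖ < δ then s ‖p - y‖ else 0) • kv (p - y) = 0 := by
      rw [← integral_indicator (hSm a), ← odd_zero (fun r => if a < r then (if r < δ then s r else 0) else 0) kv kv_neg p]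
      congr 1
      funext y
      by_cases h : a < ‖p - y‖
      · rw [if_pos h, indicator_of_mem (by rw [mem_ofPred_eq, norm_sub_rev]; exact h)]
      · rw [if_neg h, zero_smul, indicator_of_notMem (by rw [mem_ofPred_eq, norm_sub_rev]; exact h)]
    rw [h1, h2, h3, add_zero, integral_indicator (hSm a)]
  unfold FZ
  have hlim : Tendsto (fun a : ℝ => ∫ y, ({y : E3 | a < ‖y - p‖}).indicator (fun y => rf ρ s δ p y • kv (p - y)) y) (𝓝[>] 0)
      (𝓝 (∫ y, rf ρ s δ p y • kv (p - y))) := by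
    refine tendsto_integral_filter_of_dominated_convergence (fun y => ‖rf ρ s δ p y • kv (p - y)‖) ?_ ?_ i1.norm ?_
    · exact Eventually.of_forall (fun a => i1.1.indicator (hSm a))
    · exact Eventually.of_forall (fun a => ae_of_all _ (fun y => norm_indicator_le_norm_self _ _))
    · filter_upwards [ae_ne' p] with y hy
      apply tendsto_const_nhds.congr'
      have : ∀ᶠ a in 𝓝[>] (0:ℝ), a < ‖p - y‖ := nhdsWithin_le_nhds (gt_mem_nhds hy)
      filter_upwards [this] with a ha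
      rw [indicator_of_mem (by rw [mem_ofPred_eq, norm_sub_rev]; exact ha)]
  refine hlim.neg.congr' ?_
  filter_upwards [self_mem_nhdsWithin] with a ha
  exact (e1 a ha).symm

end Full

end Pool.Agent.Q233.FT
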