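import Pool.Agent.Q233.FT.C

/-!
# Uniform bounds
-/

set_option autoImplicit false
open MeasureTheory Set Filter Topology Metric
open scoped RealInnerProductSpace BigOperators ENNReal
open Pool.Agent.Helper557 Pool.Agent.Helper557.TFP
open Pool.Agent.H9R2.TF Pool.Agent.Q233.TFShell Pool.Agent.Q233.TFAtom Pool.Agent.Q233.TFSat
  Pool.Agent.Q233.TFSup Pool.Agent.Q233.TFCmp Pool.Agent.Q233.TFMol Pool.Agent.Q233.TFIon

namespace Pool.Agent.Q233.FT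

variable {k : ℕ} {z : Fin k → ℝ} {R : Fin k → E3}

theorem unif_modulus {G N : ℝ} (hG0 : 0 ≤ G) (hN0 : 0 ≤ N) (ε : ℝ) (hε : 0 < ε) :
    ∃ η : ℝ, 0 < η ∧ ∀ g : E3 → ℝ, Nice g → ∫ x, |g x| ^ (5/3 : ℝ) ≤ G → ∫ x, |g x| ≤ N → ∀ x x' : E3, ‖x - x'‖ < η →
      Integrable (fun y => |g y| * |1 / ‖x - y‖ - 1 / ‖x' - y‖|) ∧
      ∫ y, |g y| * |1 / ‖x - y‖ - 1 / ‖x' - y‖| ≤ ε := by
  obtain ⟨C, hC, hyoung⟩ := TF_nice_modulus_young (ε / (6 * (G + 1))) (by positivity)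
  obtain ⟨r, hr, hψi, hψ⟩ := TF_nice_modulus_small (ε / (6 * C)) (by positivity)
  refine ⟨min r (ε * r ^ 2 / (3 * (N + 1))), by positivity, fun g hg hGG hNN x x' hxx => ?_⟩
  obtain ⟨hgm, hg1, hg2⟩ := hg
  have hxr : ‖x - x'‖ < r := lt_of_lt_of_le hxx (min_le_left _ _)
  have hxe : ‖x - x'‖ ≤ ε * r ^ 2 / (3 * (N + 1)) := (lt_of_lt_of_le hxx (min_le_right _ _)).le
  have hψx : ∀ z : E3, Integrable (fun y =>
      indicator (ball (0:E3) (2 * r)) (fun u : E3 => ‖u‖ ^ (-(5/2) : ℝ)) (z - y)) := fun z =>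
    hψi.comp_sub_left z
  have hpw : ∀ u : E3, (indicator (ball (0:E3) (2 * r)) (fun u => 1 / ‖u‖) u) ^ (5/2 : ℝ) =
      indicator (ball (0:E3) (2 * r)) (fun u : E3 => ‖u‖ ^ (-(5/2) : ℝ)) u := by
    intro u
    by_cases hu : u ∈ ball (0:E3) (2 * r)
    · rw [Set.indicator_of_mem hu, Set.indicator_of_mem hu, one_div,
        Real.inv_rpow (norm_nonneg _), Real.rpow_neg (norm_nonneg _)]
    · rw [Set.indicator_of_notMem hu, Set.indicator_of_notMem hu, Real.zero_rpow (by norm_num)]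
  have hφ : ∀ u : E3, 0 ≤ indicator (ball (0:E3) (2 * r)) (fun u => 1 / ‖u‖) u := fun u =>
    Set.indicator_nonneg (fun u _ => by positivity) u
  -- dominating function
  have hbound : ∀ y, |g y| * |1 / ‖x - y‖ - 1 / ‖x' - y‖| ≤
      (ε / (6 * (G + 1)) * |g y| ^ (5/3 : ℝ) +
        C * indicator (ball (0:E3) (2 * r)) (fun u : E3 => ‖u‖ ^ (-(5/2) : ℝ)) (x - y)) +
      (ε / (6 * (G + 1)) * |g y| ^ (5/3 : ℝ) +
        C * indicator (ball (0:E3) (2 * r)) (fun u : E3 => ‖u‖ ^ (-(5/2) : ℝ)) (x' - y)) +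
      |g y| * (‖x - x'‖ / r ^ 2) := by
    intro y
    have h1 := mul_le_mul_of_nonneg_left (TF_nice_modulus_pt r hr x x' y hxr) (abs_nonneg (g y))
    have h2 := hyoung (|g y|) _ (abs_nonneg _) (hφ (x - y))
    have h3 := hyoung (|g y|) _ (abs_nonneg _) (hφ (x' - y))
    rw [hpw] at h2 h3
    rw [mul_add, mul_add] at h1
    linarith
  have i1 : Integrable (fun y => ε / (6 * (G + 1)) * |g y| ^ (5/3 : ℝ)) := hg2.const_mul _
  have i2 : ∀ z : E3, Integrable (fun y => C *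
      indicator (ball (0:E3) (2 * r)) (fun u : E3 => ‖u‖ ^ (-(5/2) : ℝ)) (z - y)) := fun z =>
    (hψx z).const_mul C
  have i3 : Integrable (fun y => |g y| * (‖x - x'‖ / r ^ 2)) := hg1.abs.mul_const _
  have hD : Integrable (fun y => (ε / (6 * (G + 1)) * |g y| ^ (5/3 : ℝ) +
        C * indicator (ball (0:E3) (2 * r)) (fun u : E3 => ‖u‖ ^ (-(5/2) : ℝ)) (x - y)) +
      (ε / (6 * (G + 1)) * |g y| ^ (5/3 : ℝ) +
        C * indicator (ball (0:E3) (2 * r)) (fun u : E3 => ‖u‖ ^ (-(5/2) : ℝ)) (x' - y)) +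
      |g y| * (‖x - x'‖ / r ^ 2)) := ((i1.add (i2 x)).add (i1.add (i2 x'))).add i3
  have hmeas : AEStronglyMeasurable (fun y => |g y| * |1 / ‖x - y‖ - 1 / ‖x' - y‖|) volume := by
    have m1 : Measurable fun y => |g y| := hgm.abs
    have m2 : Measurable fun y : E3 => |1 / ‖x - y‖ - 1 / ‖x' - y‖| := by fun_prop
    exact (m1.mul m2).aestronglyMeasurable
  have hint : Integrable (fun y => |g y| * |1 / ‖x - y‖ - 1 / ‖x' - y‖|) := by
    refine hD.mono' hmeas (Filter.Eventually.of_forall fun y => ?_)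
    rw [Real.norm_of_nonneg (by positivity)]
    exact hbound y
  refine ⟨hint, ?_⟩
  refine (integral_mono hint hD hbound).trans ?_
  have hψe : ∀ z : E3, ∫ y, C *
      indicator (ball (0:E3) (2 * r)) (fun u : E3 => ‖u‖ ^ (-(5/2) : ℝ)) (z - y) ≤ ε / 6 := by
    intro z
    rw [integral_const_mul, integral_sub_left_eq_self
      (fun u => indicator (ball (0:E3) (2 * r)) (fun u : E3 => ‖u‖ ^ (-(5/2) : ℝ)) u) volume z]
    calc _ ≤ C * (ε / (6 * C)) := mul_le_mul_of_nonneg_left hψ hC.le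
      _ = ε / 6 := by field_simp
  have hGe : ∫ y, ε / (6 * (G + 1)) * |g y| ^ (5/3 : ℝ) ≤ ε / 6 := by
    rw [integral_const_mul]
    calc ε / (6 * (G + 1)) * _ ≤ ε / (6 * (G + 1)) * (G + 1) :=
          mul_le_mul_of_nonneg_left (by linarith) (by positivity)
      _ = ε / 6 := by field_simp
  have hNe : ∫ y, |g y| * (‖x - x'‖ / r ^ 2) ≤ ε / 3 := by
    rw [integral_mul_const]
    calc _ * (‖x - x'‖ / r ^ 2) ≤ (N + 1) * ((ε * r ^ 2 / (3 * (N + 1))) / r ^ 2) := by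
          refine mul_le_mul (by linarith) ?_ (by positivity) (by positivity)
          exact div_le_div_of_nonneg_right hxe (by positivity)
      _ = ε / 3 := by field_simp
  have j1 : ∀ z : E3, Integrable (fun y => ε / (6 * (G + 1)) * |g y| ^ (5/3 : ℝ) +
      C * indicator (ball (0:E3) (2 * r)) (fun u : E3 => ‖u‖ ^ (-(5/2) : ℝ)) (z - y)) := fun z =>
    i1.add (i2 z)
  have j2 : Integrable (fun y => (ε / (6 * (G + 1)) * |g y| ^ (5/3 : ℝ) +
        C * indicator (ball (0:E3) (2 * r)) (fun u : E3 => ‖u‖ ^ (-(5/2) : ℝ)) (x - y)) +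
      (ε / (6 * (G + 1)) * |g y| ^ (5/3 : ℝ) +
        C * indicator (ball (0:E3) (2 * r)) (fun u : E3 => ‖u‖ ^ (-(5/2) : ℝ)) (x' - y))) :=
    (j1 x).add (j1 x')
  have e1 : ∀ z : E3, ∫ y, (ε / (6 * (G + 1)) * |g y| ^ (5/3 : ℝ) +
      C * indicator (ball (0:E3) (2 * r)) (fun u : E3 => ‖u‖ ^ (-(5/2) : ℝ)) (z - y)) =
      (∫ y, ε / (6 * (G + 1)) * |g y| ^ (5/3 : ℝ)) +
      ∫ y, C * indicator (ball (0:E3) (2 * r)) (fun u : E3 => ‖u‖ ^ (-(5/2) : ℝ)) (z - y) :=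
    fun z => integral_add i1 (i2 z)
  rw [integral_add j2 i3, integral_add (j1 x) (j1 x'), e1, e1]
  have := hψe x
  have := hψe x'
  linarith

/-- the potential through a Young inequality -/
theorem pot_young {α β : ℝ} (hα : 0 ≤ α) (hβ : 0 ≤ β)
    (h : ∀ a b : ℝ, 0 ≤ a → 0 ≤ b → a * b ≤ α * a ^ (5/3 : ℝ) + β * b ^ (5/2 : ℝ)) {ρ : E3 → ℝ} (hρ : Adm ρ) (x : E3) :
    pot ρ x ≤ α * (∫ y, ρ y ^ (5/3 : ℝ)) + β * I5 + ∫ y, ρ y := by
  obtain ⟨B, hB⟩ := nice_bound ρ (nice_of_adm hρ)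
  have i1 := hρ.2.2.2.const_mul α
  have i2 := (kap5_shift1 x).1.const_mul β
  have i12 : Integrable (fun y => α * ρ y ^ (5/3 : ℝ) + β * kap5 (x - y)) := i1.add i2
  have i3 : Integrable (fun y => α * ρ y ^ (5/3 : ℝ) + β * kap5 (x - y) + ρ y) := i12.add hρ.2.2.1
  have hle : pot ρ x ≤ ∫ y, (α * ρ y ^ (5/3 : ℝ) + β * kap5 (x - y) + ρ y) := by
    unfold pot
    refine integral_mono (hB x).1 i3 (fun y => ?_)
    simp only
    have h0 := hρ.2.1 y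
    have hk := kap5_nonneg (x - y)
    have hp : 0 ≤ ρ y ^ (5/3 : ℝ) := Real.rpow_nonneg h0 _
    rcases lt_or_ge ‖x - y‖ 1 with h1 | h1
    · have h2 := h (ρ y) (‖x - y‖⁻¹) h0 (by positivity)
      have e : (‖x - y‖⁻¹) ^ (5/2 : ℝ) = kap5 (x - y) := by
        unfold kap5
        rw [if_pos h1, Real.inv_rpow (norm_nonneg _), Real.rpow_neg (norm_nonneg _)]
      rw [e] at h2
      rw [div_eq_mul_inv]
      linarith
    · have h2 : ρ y / ‖x - y‖ ≤ ρ y := div_le_self h0 h1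
      have := mul_nonneg hα hp
      have := mul_nonneg hβ hk
      linarith
  refine hle.trans (le_of_eq ?_)
  rw [integral_add i12 hρ.2.2.1, integral_add i1 i2, integral_const_mul, integral_const_mul, (kap5_shift1 x).2]

/-- small constant in front of the kernel -/
theorem pot_small {τ : ℝ} (hτ : 0 < τ) : ∃ C, 0 ≤ C ∧ ∀ (ρ : E3 → ℝ), Adm ρ → ∀ x, pot ρ x ≤ τ + C * (∫ y, ρ y ^ (5/3 : ℝ)) + ∫ y, ρ y := by
  have hI := I5_nonneg
  set s := min 1 (τ / (I5 + 1)) with hs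
  have hs0 : 0 < s := by positivity
  refine ⟨(s⁻¹) ^ (5/3:ℝ), by positivity, fun ρ hρ x => ?_⟩
  have h := pot_young (α := (s⁻¹) ^ (5/3:ℝ)) (β := s) (by positivity) hs0.le (fun a b ha hb => by
    rcases eq_or_lt_of_le hb with h0 | h0
    · rw [← h0, mul_zero]; positivity
    · have h1 := TF_nice_decay_young a (b⁻¹) s ha (by positivity) hs0 (min_le_left _ _)
      rw [div_inv_eq_mul] at h1
      have e : (b⁻¹) ^ (-(5/2) : ℝ) = b ^ (5/2:ℝ) := by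
        rw [Real.inv_rpow hb, Real.rpow_neg hb, inv_inv]
      rw [e] at h1
      exact h1) hρ x
  have h2 : s * I5 ≤ τ := by
    have h3 : s ≤ τ / (I5 + 1) := min_le_right _ _
    calc s * I5 ≤ τ / (I5 + 1) * I5 := mul_le_mul_of_nonneg_right h3 hI
      _ ≤ τ := by rw [div_mul_eq_mul_div, div_le_iff₀ (by positivity)]; nlinarith
  linarith

lemma int_VV (z : Fin k → ℝ) (R : Fin k → E3) {g : E3 → ℝ} (hg : Nice g) : ∫ x, VV z R x * g x = ∑ j, z j * pot g (R j) := by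
  obtain ⟨B, hB⟩ := nice_bound _ hg
  have e : (fun x => VV z R x * g x) = fun x => ∑ j, z j * (g x / ‖R j - x‖) := by
    funext x
    unfold VV
    rw [Finset.sum_mul]
    refine Finset.sum_congr rfl (fun j _ => ?_)
    rw [norm_sub_rev]; ring
  rw [e, integral_finsetSum _ (fun j _ => (hB (R j)).1.const_mul (z j))]
  refine Finset.sum_congr rfl (fun j _ => ?_)
  rw [integral_const_mul]; rfl

/-- uniform bound of kinetic energy and of chemical potential times mass -/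
theorem kin_bound (hz : ∀ j, 0 ≤ z j) (lam : ℝ) : ∃ K0, 0 ≤ K0 ∧ ∀ (R : Fin k → E3) (Φ : ℝ) (ρ : E3 → ℝ), Adm ρ → ∫ x, ρ x ≤ lam →
    0 ≤ Φ → EF z R ρ + Φ * (∫ x, ρ x) ≤ 0 → (∫ x, ρ x ^ (5/3 : ℝ)) ≤ K0 ∧ Φ * (∫ x, ρ x) ≤ K0 := by
  set Z : ℝ := ∑ j, z j with hZ
  have hZ0 : 0 ≤ Z := Finset.sum_nonneg fun j _ => hz j
  obtain ⟨C, hC, hy⟩ := TF_nice_modulus_young (3 / (10 * (Z + 1))) (by positivity)
  refine ⟨max (10/3 * (Z * (C * I5 + lam))) (max (Z * (C * I5 + lam)) 0), le_max_of_le_right (le_max_right _ _), fun R Φ ρ hρ hm hΦ hE => ?_⟩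
  have nρ := nice_of_adm hρ
  have hK : 0 ≤ ∫ x, ρ x ^ (5/3 : ℝ) := integral_nonneg (fun x => Real.rpow_nonneg (hρ.2.1 x) _)
  have h1 : ∀ x, pot ρ x ≤ 3 / (10 * (Z + 1)) * (∫ y, ρ y ^ (5/3 : ℝ)) + C * I5 + ∫ y, ρ y := fun x =>
    pot_young (by positivity) hC.le hy hρ x
  have h2 : ∫ x, VV z R x * ρ x ≤ 3/10 * (∫ y, ρ y ^ (5/3 : ℝ)) + Z * (C * I5 + lam) := by
    rw [int_VV z R nρ]
    calc ∑ j, z j * pot ρ (R j) ≤ ∑ j, z j * (3 / (10 * (Z + 1)) * (∫ y, ρ y ^ (5/3 : ℝ)) + C * I5 + lam) :=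
          Finset.sum_le_sum (fun j _ => mul_le_mul_of_nonneg_left ((h1 (R j)).trans (by linarith)) (hz j))
      _ = Z * (3 / (10 * (Z + 1))) * (∫ y, ρ y ^ (5/3 : ℝ)) + Z * (C * I5 + lam) := by
          rw [← Finset.sum_mul, ← hZ]; ring
      _ ≤ 3/10 * (∫ y, ρ y ^ (5/3 : ℝ)) + Z * (C * I5 + lam) := by
          have : Z * (3 / (10 * (Z + 1))) ≤ 3/10 := by
            rw [mul_div_assoc', div_le_div_iff₀ (by positivity) (by norm_num)]; nlinarith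
          have := mul_le_mul_of_nonneg_right this hK
          linarith
  have h3 := pot_pos nρ
  unfold EF at hE
  have h4 : 3/10 * (∫ y, ρ y ^ (5/3 : ℝ)) + Φ * (∫ x, ρ x) ≤ Z * (C * I5 + lam) := by linarith
  have h5 : 0 ≤ Φ * (∫ x, ρ x) := mul_nonneg hΦ (integral_nonneg hρ.2.1)
  exact ⟨le_max_of_le_left (by linarith), le_max_of_le_right (le_max_of_le_left (by linarith))⟩

lemma zero_adm : Adm (fun _ : E3 => (0:ℝ)) := adm_of_nice nice_zero (fun _ => le_rfl)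

lemma EF_zero (z : Fin k → ℝ) (R : Fin k → E3) : EF z R (fun _ => 0) = 0 := Pool.Agent.Q233.TFDil.EF_zero_of zero_adm (by simp)

lemma te_neg {n : ℕ} {Φ : ℝ} {τ : E3 → ℝ} (h : TE n z R Φ τ) : EF z R τ + Φ * (∫ x, τ x) ≤ 0 := by
  have h1 := te_expand h zero_adm (fun x => cap_nonneg n x)
  have h2 := pot_pos (nice_sub' nice_zero h.nice)
  rw [EF_zero, integral_zero, sub_zero] at h1
  linarith

lemma el_neg {Φ : ℝ} {ρ : E3 → ℝ} (h : ELs z R Φ ρ) : EF z R ρ + Φ * (∫ x, ρ x) ≤ 0 := by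
  have h1 := EF_expand h zero_adm
  have h2 := pot_pos (nice_sub' nice_zero h.nice)
  rw [EF_zero, integral_zero, sub_zero] at h1
  linarith

/-! ### near a nucleus -/

lemma be_close {u v M zi r : ℝ} (hr : 0 < r) (hr1 : r ≤ 1) (hzi : 0 ≤ zi) (hM : 0 ≤ M) (hu : |u - zi / r| ≤ M) (hv : v = zi / r) :
    |be u - be v| ≤ 3/2 * M * √(zi + M) * (√r)⁻¹ := by
  subst hv
  have h1 := abs_le.1 hu
  have hzr : 0 ≤ zi / r := by positivity
  have hmax : ∀ w : ℝ, w ≤ zi / r + M → √(max w 0) ≤ √(zi + M) * (√r)⁻¹ := by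
    intro w hw
    rw [← div_eq_mul_inv, ← Real.sqrt_div (by positivity)]
    apply Real.sqrt_le_sqrt
    refine max_le (hw.trans ?_) (by positivity)
    rw [add_div]
    have : M ≤ M / r := by rw [le_div_iff₀ hr]; nlinarith
    linarith
  rcases le_total (zi / r) u with h | h
  · have h2 := be_lip h
    rw [abs_of_nonneg (sub_nonneg.2 (be_mono h))]
    refine h2.trans ?_
    have h3 := hmax u (by linarith)
    calc 3/2 * √(max u 0) * (u - zi / r) ≤ 3/2 * (√(zi + M) * (√r)⁻¹) * M :=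
          mul_le_mul (by linarith) (by linarith) (by linarith) (by positivity)
      _ = _ := by ring
  · have h2 := be_lip h
    rw [abs_sub_comm, abs_of_nonneg (sub_nonneg.2 (be_mono h))]
    refine h2.trans ?_
    have h3 := hmax (zi / r) (by linarith)
    calc 3/2 * √(max (zi / r) 0) * (zi / r - u) ≤ 3/2 * (√(zi + M) * (√r)⁻¹) * M :=
          mul_le_mul (by linarith) (by linarith) (by linarith) (by positivity)
      _ = _ := by ring

lemma min_close (c a b : ℝ) : |min c a - min c b| ≤ |a - b| := by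
  rcases le_total c a with h1 | h1 <;> rcases le_total c b with h2 | h2
  · rw [min_eq_left h1, min_eq_left h2, sub_self, abs_zero]; exact abs_nonneg _
  · rw [min_eq_left h1, min_eq_right h2, abs_of_nonneg (sub_nonneg.2 h2)]
    exact (by linarith : c - b ≤ a - b).trans (le_abs_self _)
  · rw [min_eq_right h1, min_eq_left h2, abs_sub_comm, abs_of_nonneg (sub_nonneg.2 h1), abs_sub_comm]
    exact (by linarith : c - a ≤ b - a).trans (le_abs_self _)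
  · rw [min_eq_right h1, min_eq_right h2]

/-- the constant -/
noncomputable def Mc (z : Fin k → ℝ) (δ B P : ℝ) : ℝ := (∑ j, z j) / δ + B + P
noncomputable def Ac (z : Fin k → ℝ) (δ B P : ℝ) : ℝ := 3/2 * Mc z δ B P * √((∑ j, z j) + Mc z δ B P)

lemma Mc_nonneg (hz : ∀ j, 0 ≤ z j) {δ B P : ℝ} (hδ : 0 < δ) (hB : 0 ≤ B) (hP : 0 ≤ P) : 0 ≤ Mc z δ B P := by
  have : 0 ≤ ∑ j, z j := Finset.sum_nonneg fun j _ => hz j
  unfold Mc; positivity

lemma Ac_nonneg (hz : ∀ j, 0 ≤ z j) {δ B P : ℝ} (hδ : 0 < δ) (hB : 0 ≤ B) (hP : 0 ≤ P) : 0 ≤ Ac z δ B P := by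
  have := Mc_nonneg hz hδ hB hP
  unfold Ac; positivity

lemma u_close (hz : ∀ j, 0 ≤ z j) {ρ : E3 → ℝ} {B P Φ δ : ℝ} (h0 : ∀ x, 0 ≤ pot ρ x) (hB : ∀ x, pot ρ x ≤ B) (hΦ0 : 0 ≤ Φ) (hΦ : Φ ≤ P)
    (hδ : 0 < δ) {i : Fin k} (hsep : ∀ j, j ≠ i → 2 * δ ≤ ‖R i - R j‖) {y : E3} (hy : ‖R i - y‖ < δ) :
    |(VV z R y - pot ρ y - Φ) - z i / ‖R i - y‖| ≤ Mc z δ B P := by
  classical
  have e : VV z R y = z i / ‖R i - y‖ + ∑ j ∈ Finset.univ.erase i, z j / ‖y - R j‖ := by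
    unfold VV
    rw [← Finset.add_sum_erase _ _ (Finset.mem_univ i), norm_sub_rev y (R i)]
  have h1 : 0 ≤ ∑ j ∈ Finset.univ.erase i, z j / ‖y - R j‖ := Finset.sum_nonneg (fun j _ => div_nonneg (hz j) (norm_nonneg _))
  have h2 : ∑ j ∈ Finset.univ.erase i, z j / ‖y - R j‖ ≤ (∑ j, z j) / δ := by
    rw [Finset.sum_div]
    refine (Finset.sum_le_sum (fun j hj => ?_)).trans (Finset.sum_le_sum_of_subset_of_nonneg (Finset.erase_subset i _) (fun j _ _ => div_nonneg (hz j) hδ.le))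
    have hj' := hsep j (Finset.ne_of_mem_erase hj)
    have h3 : δ ≤ ‖y - R j‖ := by
      have h4 : ‖R i - R j‖ ≤ ‖R i - y‖ + ‖y - R j‖ := by
        rw [show R i - R j = (R i - y) + (y - R j) by abel]; exact norm_add_le _ _
      linarith
    exact div_le_div_of_nonneg_left (hz j) hδ h3
  have h5 := h0 y
  have h6 := hB y
  rw [e]
  unfold Mc
  have hZ : 0 ≤ (∑ j, z j) / δ := h1.trans h2
  rw [abs_le]; constructor <;> linarith

theorem te_close (hz : ∀ j, 0 ≤ z j) {n : ℕ} {Φ : ℝ} {τ : E3 → ℝ} (h : TE n z R Φ τ) {B P δ : ℝ} (hB : ∀ x, pot τ x ≤ B) (hΦ0 : 0 ≤ Φ)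
    (hΦ : Φ ≤ P) (hδ : 0 < δ) (hδ1 : δ ≤ 1) {i : Fin k} (hsep : ∀ j, j ≠ i → 2 * δ ≤ ‖R i - R j‖) (hn : ‖R i‖ + 1 ≤ n) (y : E3)
    (h0 : 0 < ‖R i - y‖) (hy : ‖R i - y‖ < δ) :
    |τ y - min (n:ℝ) (be (z i / ‖R i - y‖))| ≤ Ac z δ B P * (√‖R i - y‖)⁻¹ := by
  have hcap : cap n y = n := by
    apply cap_in
    have h1 : ‖y‖ ≤ ‖R i‖ + ‖R i - y‖ := by
      have : ‖y‖ = ‖R i - (R i - y)‖ := by congr 1; abel
      rw [this]; exact norm_sub_le _ _
    linarith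
  have hB0 : 0 ≤ B := (pot_nonneg h.nonneg 0).trans (hB 0)
  have hP0 : 0 ≤ P := hΦ0.trans hΦ
  have hM := Mc_nonneg hz hδ hB0 hP0
  have hu := u_close hz (pot_nonneg h.nonneg) hB hΦ0 hΦ hδ hsep hy
  rw [h.eq y, hcap]
  refine (min_close _ _ _).trans ((be_close h0 (hy.le.trans hδ1) (hz i) hM hu rfl).trans ?_)
  refine mul_le_mul_of_nonneg_right ?_ (by positivity)
  unfold Ac
  refine mul_le_mul_of_nonneg_left (Real.sqrt_le_sqrt ?_) (by positivity)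
  have := Finset.single_le_sum (f := z) (fun j _ => hz j) (Finset.mem_univ i)
  linarith

theorem el_close (hz : ∀ j, 0 ≤ z j) {Φ : ℝ} {τ : E3 → ℝ} (h : ELs z R Φ τ) {B P δ : ℝ} (hB : ∀ x, pot τ x ≤ B) (hΦ0 : 0 ≤ Φ)
    (hΦ : Φ ≤ P) (hδ : 0 < δ) (hδ1 : δ ≤ 1) {i : Fin k} (hsep : ∀ j, j ≠ i → 2 * δ ≤ ‖R i - R j‖) (y : E3)
    (h0 : 0 < ‖R i - y‖) (hy : ‖R i - y‖ < δ) :
    |τ y - be (z i / ‖R i - y‖)| ≤ Ac z δ B P * (√‖R i - y‖)⁻¹ := by
  have hB0 : 0 ≤ B := (pot_nonneg h.nonneg 0).trans (hB 0)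
  have hP0 : 0 ≤ P := hΦ0.trans hΦ
  have hM := Mc_nonneg hz hδ hB0 hP0
  have hu := u_close hz (pot_nonneg h.nonneg) hB hΦ0 hΦ hδ hsep hy
  rw [h.eq y]
  refine (be_close h0 (hy.le.trans hδ1) (hz i) hM hu rfl).trans ?_
  refine mul_le_mul_of_nonneg_right ?_ (by positivity)
  unfold Ac
  refine mul_le_mul_of_nonneg_left (Real.sqrt_le_sqrt ?_) (by positivity)
  have := Finset.single_le_sum (f := z) (fun j _ => hz j) (Finset.mem_univ i)
  linarith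

end Pool.Agent.Q233.FT
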