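import Pool.Agent.Q233.FT.D

/-!
# Joint convergence of the truncated forces
-/

set_option autoImplicit false
open MeasureTheory Set Filter Topology Metric
open scoped RealInnerProductSpace BigOperators ENNReal
open Pool.Agent.Helper557 Pool.Agent.Helper557.TFP
open Pool.Agent.H9R2.TF Pool.Agent.Q233.TFShell Pool.Agent.Q233.TFAtom Pool.Agent.Q233.TFSat
  Pool.Agent.Q233.TFSup Pool.Agent.Q233.TFCmp Pool.Agent.Q233.TFMol Pool.Agent.Q233.TFIon

namespace Pool.Agent.Q233.FT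

variable {k : ℕ} {z : Fin k → ℝ} {R : Fin k → E3} {lam : ℝ}

def Sol (n : ℕ) (z : Fin k → ℝ) (R : Fin k → E3) (lam : ℝ) (τ : E3 → ℝ) : Prop :=
  ∃ Φ, 0 ≤ Φ ∧ TE n z R Φ τ ∧ ∫ x, τ x ≤ lam ∧ (0 < Φ → ∫ x, τ x = lam)

def Ion (z : Fin k → ℝ) (R : Fin k → E3) (lam : ℝ) (ρ : E3 → ℝ) : Prop :=
  ∃ Φ, 0 ≤ Φ ∧ ELs z R Φ ρ ∧ ∫ x, ρ x = lam

lemma sol_bounds (hz : ∀ j, 0 ≤ z j) (hl : 0 < lam) : ∃ K B P : ℝ, 0 ≤ K ∧ 0 ≤ B ∧ 0 ≤ P ∧
    (∀ (n : ℕ) (R : Fin k → E3) (Φ : ℝ) (τ : E3 → ℝ), 0 ≤ Φ → TE n z R Φ τ → ∫ x, τ x ≤ lam → (0 < Φ → ∫ x, τ x = lam) →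
      (∫ x, τ x ^ (5/3 : ℝ)) ≤ K ∧ (∀ x, pot τ x ≤ B) ∧ Φ ≤ P) ∧
    (∀ (R : Fin k → E3) (Φ : ℝ) (ρ : E3 → ℝ), 0 ≤ Φ → ELs z R Φ ρ → ∫ x, ρ x = lam →
      (∫ x, ρ x ^ (5/3 : ℝ)) ≤ K ∧ (∀ x, pot ρ x ≤ B) ∧ Φ ≤ P) := by
  obtain ⟨K, hK, hk⟩ := kin_bound hz lam
  obtain ⟨C, hC, hy⟩ := TF_nice_modulus_young 1 one_pos
  have hI := I5_nonneg
  have hP : ∀ {Φ m : ℝ}, 0 ≤ Φ → Φ * m ≤ K → (0 < Φ → m = lam) → Φ ≤ K / lam := by
    intro Φ m h0 h1 h2
    rcases eq_or_lt_of_le h0 with h | h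
    · rw [← h]; positivity
    · rw [le_div_iff₀ hl, ← h2 h]; exact h1
  refine ⟨K, 1 * K + C * I5 + lam, K / lam, hK, by positivity, by positivity, ?_, ?_⟩
  · intro n R Φ τ h0 hτ hm hs
    obtain ⟨h1, h2⟩ := hk R Φ τ hτ.adm hm h0 (te_neg hτ)
    refine ⟨h1, fun x => ?_, hP h0 h2 hs⟩
    have := pot_young (by norm_num) hC.le hy hτ.adm x
    linarith
  · intro R Φ ρ h0 hρ hm
    have ha := adm_of_nice hρ.nice hρ.nonneg
    obtain ⟨h1, h2⟩ := hk R Φ ρ ha hm.le h0 (el_neg hρ)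
    refine ⟨h1, fun x => ?_, hP h0 h2 (fun _ => hm)⟩
    have := pot_young (by norm_num) hC.le hy ha x
    linarith

lemma exc_lim {ρ : E3 → ℝ} (hn : Nice ρ) (h0 : ∀ x, 0 ≤ ρ x) :
    Tendsto (fun n : ℕ => ∫ x, exc n ρ x) atTop (𝓝 0) ∧ Tendsto (fun n : ℕ => ∫ x, exc n ρ x ^ (5/3 : ℝ)) atTop (𝓝 0) := by
  have hev : ∀ x, ∀ᶠ n : ℕ in atTop, exc n ρ x = 0 := by
    intro x
    obtain ⟨N, hN⟩ := exists_nat_gt (max ‖x‖ (ρ x))
    filter_upwards [eventually_ge_atTop N] with n hn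
    have h1 : (N:ℝ) ≤ n := by exact_mod_cast hn
    have h2 : ‖x‖ < n := (le_max_left _ _).trans_lt (hN.trans_le h1)
    have h3 : ρ x < n := (le_max_right _ _).trans_lt (hN.trans_le h1)
    unfold exc
    rw [cap_in h2]
    exact max_eq_right (by linarith)
  have hm : ∀ n, Measurable (exc n ρ) := fun n => (exc_nice hn h0).1
  constructor
  · rw [← integral_zero E3 ℝ]
    refine tendsto_integral_of_dominated_convergence ρ (fun n => (hm n).aestronglyMeasurable) hn.2.1 (fun n => ae_of_all _ (fun x => ?_))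
      (ae_of_all _ (fun x => ?_))
    · rw [Real.norm_of_nonneg (exc_nonneg n ρ x)]; exact exc_le h0 x
    · exact tendsto_const_nhds.congr' ((hev x).mono (fun n h => h.symm))
  · rw [← integral_zero E3 ℝ]
    refine tendsto_integral_of_dominated_convergence (fun x => ρ x ^ (5/3 : ℝ)) (fun n => ((hm n).pow_const _).aestronglyMeasurable)
      (nice_p53 hn h0) (fun n => ae_of_all _ (fun x => ?_)) (ae_of_all _ (fun x => ?_))
    · rw [Real.norm_of_nonneg (Real.rpow_nonneg (exc_nonneg n ρ x) _)]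
      exact Real.rpow_le_rpow (exc_nonneg n ρ x) (exc_le h0 x) (by norm_num)
    · refine tendsto_const_nhds.congr' ((hev x).mono (fun n h => ?_))
      simp only
      rw [h, Real.zero_rpow (by norm_num)]

lemma third_le {x : ℝ} (hx : 0 ≤ x) : x ^ (1/3 : ℝ) ≤ 1 + x := by
  rcases le_total x 1 with h | h
  · have := Real.rpow_le_one hx h (by norm_num : (0:ℝ) ≤ 1/3)
    linarith
  · have := Real.rpow_le_rpow_of_exponent_le h (by norm_num : (1/3:ℝ) ≤ 1)
    rw [Real.rpow_one] at this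
    linarith

/-- the monotone quantity becomes small -/
theorem q_small (hz : ∀ j, 0 ≤ z j) (hl : 0 < lam) {ρ : E3 → ℝ} (hρ : Ion z R lam ρ) {κ : ℝ} (hκ : 0 < κ) :
    ∃ η > 0, ∃ n0 : ℕ, ∀ n ≥ n0, ∀ R' : Fin k → E3, (∀ j, ‖R' j - R j‖ < η) → ∀ τ, Sol n z R' lam τ → ∫ x, qf (τ x) (ρ x) ≤ κ := by
  obtain ⟨K, B, P, hK, hB, hP, hs1, hs2⟩ := sol_bounds hz hl
  obtain ⟨Φ, hΦ, hEL, hmass⟩ := hρ
  have Z0 : 0 ≤ ∑ j, z j := Finset.sum_nonneg fun j _ => hz j
  set Z := ∑ j, z j with hZ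
  obtain ⟨η, hη, hmod⟩ := unif_modulus (G := 2 * K) (N := 2 * lam) (by positivity) (by positivity) (κ / (2 * (Z + 1))) (by positivity)
  obtain ⟨C, hC, hps⟩ := pot_small (τ := κ / (6 * (Z + 1))) (by positivity)
  obtain ⟨l1, l2⟩ := exc_lim hEL.nice hEL.nonneg
  have e1 := l1.eventually (gt_mem_nhds (show (0:ℝ) < κ / (6 * (Z + 1)) by positivity))
  have e2 := l2.eventually (gt_mem_nhds (show (0:ℝ) < κ / (6 * (Z + 1) * (C + 1)) by positivity))
  obtain ⟨n0, hn0⟩ := (e1.and e2).exists_forall_of_atTop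
  refine ⟨η, hη, n0, fun n hn R' hR' τ hτ => ?_⟩
  obtain ⟨Φ', hΦ', hTE, hm, hcs⟩ := hτ
  obtain ⟨a1, a2⟩ := hn0 n hn
  have hst := stab (R := R) (Φ := Φ) (σ := ρ) hz hTE hΦ' hEL.nice (fun x => max (cap n x) (ρ x)) (fun x => le_max_left _ _) (fun x => by
    rw [← hEL.eq x]; exact (min_eq_right (le_max_right _ _)).symm)
  have hslack : 0 ≤ (Φ' - Φ) * ((∫ x, τ x) - ∫ x, ρ x) := by
    rw [hmass]
    have h1 : Φ' * ((∫ x, τ x) - lam) = 0 := by
      rcases eq_or_lt_of_le hΦ' with h | h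
      · rw [← h, zero_mul]
      · rw [hcs h, sub_self, mul_zero]
    have h2 : 0 ≤ Φ * (lam - ∫ x, τ x) := mul_nonneg hΦ (by linarith)
    nlinarith
  have hg : Nice (fun x => τ x - ρ x) := nice_sub' hTE.nice hEL.nice
  obtain ⟨k1, -, -⟩ := hs1 n R' Φ' τ hΦ' hTE hm hcs
  obtain ⟨k2, -, -⟩ := hs2 R Φ ρ hΦ hEL hmass
  have hG : ∫ x, |τ x - ρ x| ^ (5/3 : ℝ) ≤ 2 * K := by
    have h1 := nice_p53 hTE.nice hTE.nonneg
    have h2 := nice_p53 hEL.nice hEL.nonneg
    refine (integral_mono hg.2.2 (h1.add h2) (fun x => ?_)).trans ?_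
    · simp only [Pi.add_apply]
      have t0 := hTE.nonneg x
      have r0 := hEL.nonneg x
      have p1 : 0 ≤ τ x ^ (5/3 : ℝ) := Real.rpow_nonneg t0 _
      have p2 : 0 ≤ ρ x ^ (5/3 : ℝ) := Real.rpow_nonneg r0 _
      rcases le_total (ρ x) (τ x) with h | h
      · rw [abs_of_nonneg (by linarith)]
        have := Real.rpow_le_rpow (by linarith) (by linarith : τ x - ρ x ≤ τ x) (by norm_num : (0:ℝ) ≤ 5/3)
        linarith
      · rw [abs_sub_comm, abs_of_nonneg (by linarith)]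
        have := Real.rpow_le_rpow (by linarith) (by linarith : ρ x - τ x ≤ ρ x) (by norm_num : (0:ℝ) ≤ 5/3)
        linarith
    · simp only [Pi.add_apply]
      rw [integral_add h1 h2]; linarith
  have hN : ∫ x, |τ x - ρ x| ≤ 2 * lam := by
    refine (integral_mono hg.2.1.abs (hTE.nice.2.1.add hEL.nice.2.1) (fun x => ?_)).trans ?_
    · simp only [Pi.add_apply]
      have t0 := hTE.nonneg x
      have r0 := hEL.nonneg x
      rw [abs_le]; constructor <;> linarith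
    · simp only [Pi.add_apply]
      rw [integral_add hTE.nice.2.1 hEL.nice.2.1]; linarith
  -- difference of the attractions
  have t1 : ∫ x, (VV z R' x - VV z R x) * (τ x - ρ x) ≤ κ / 2 := by
    have hpt : ∀ x, (VV z R' x - VV z R x) * (τ x - ρ x) ≤ ∑ j, z j * (|τ x - ρ x| * |1 / ‖R' j - x‖ - 1 / ‖R j - x‖|) := by
      intro x
      have e : (VV z R' x - VV z R x) * (τ x - ρ x) = ∑ j, z j * ((τ x - ρ x) * (1 / ‖R' j - x‖ - 1 / ‖R j - x‖)) := by
        unfold VV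
        rw [← Finset.sum_sub_distrib, Finset.sum_mul]
        refine Finset.sum_congr rfl (fun j _ => ?_)
        rw [norm_sub_rev x, norm_sub_rev x]; ring
      rw [e]
      refine Finset.sum_le_sum (fun j _ => mul_le_mul_of_nonneg_left ?_ (hz j))
      rw [← abs_mul]; exact le_abs_self _
    have hi : ∀ j, Integrable (fun x => z j * (|τ x - ρ x| * |1 / ‖R' j - x‖ - 1 / ‖R j - x‖|)) := fun j =>
      (hmod _ hg hG hN (R' j) (R j) (hR' j)).1.const_mul _
    have i0 : Integrable (fun x => (VV z R' x - VV z R x) * (τ x - ρ x)) := by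
      refine ((vint z R' hg).sub (vint z R hg)).congr (ae_of_all _ (fun x => ?_))
      simp only [Pi.sub_apply]; ring
    refine (integral_mono i0 (integrable_finsetSum _ (fun j _ => hi j)) hpt).trans ?_
    rw [integral_finsetSum _ (fun j _ => hi j)]
    calc ∑ j, ∫ x, z j * (|τ x - ρ x| * |1 / ‖R' j - x‖ - 1 / ‖R j - x‖|) ≤ ∑ j, z j * (κ / (2 * (Z + 1))) := by
          refine Finset.sum_le_sum (fun j _ => ?_)
          rw [integral_const_mul]
          exact mul_le_mul_of_nonneg_left (hmod _ hg hG hN (R' j) (R j) (hR' j)).2 (hz j)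
      _ = Z * (κ / (2 * (Z + 1))) := by rw [← Finset.sum_mul]
      _ ≤ κ / 2 := by
          rw [mul_div_assoc', div_le_div_iff₀ (by positivity) (by norm_num)]; nlinarith
  have t2 : ∫ x, VV z R' x * exc n ρ x ≤ κ / 2 := by
    have ne := exc_nice (n := n) hEL.nice hEL.nonneg
    have ae := adm_of_nice ne (exc_nonneg n ρ)
    rw [int_VV z R' ne]
    calc ∑ j, z j * pot (exc n ρ) (R' j) ≤ ∑ j, z j * (κ / (6 * (Z + 1)) + C * (κ / (6 * (Z + 1) * (C + 1))) + κ / (6 * (Z + 1))) := by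
          refine Finset.sum_le_sum (fun j _ => mul_le_mul_of_nonneg_left ?_ (hz j))
          refine (hps _ ae (R' j)).trans ?_
          have := mul_le_mul_of_nonneg_left a2.le hC
          linarith
      _ = Z * (κ / (6 * (Z + 1)) + C * (κ / (6 * (Z + 1) * (C + 1))) + κ / (6 * (Z + 1))) := by rw [← Finset.sum_mul]
      _ ≤ (Z + 1) * (3 * (κ / (6 * (Z + 1)))) := by
          refine mul_le_mul (by linarith) ?_ (by positivity) (by positivity)
          have : C * (κ / (6 * (Z + 1) * (C + 1))) ≤ κ / (6 * (Z + 1)) := by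
            rw [mul_div_assoc', div_le_div_iff₀ (by positivity) (by positivity)]
            have : 0 ≤ κ * (6 * (Z + 1)) := by positivity
            nlinarith
          linarith
      _ = κ / 2 := by field_simp; ring
  linarith

/-- local convergence in mean -/
theorem l1_conv (hz : ∀ j, 0 ≤ z j) (hl : 0 < lam) {ρ : E3 → ℝ} (hρ : Ion z R lam ρ) {κ : ℝ} (hκ : 0 < κ) (p : E3) (L : ℝ) :
    ∃ η > 0, ∃ n0 : ℕ, ∀ n ≥ n0, ∀ R' : Fin k → E3, (∀ j, ‖R' j - R j‖ < η) → ∀ τ, Sol n z R' lam τ →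
      ∫ x in ball p L, |τ x - ρ x| ≤ κ := by
  set v : ℝ := (volume : Measure E3).real (ball p L) with hv
  have hv0 : 0 ≤ v := measureReal_nonneg
  set t : ℝ := 3 * (v + 2 * lam) / (4 * κ) with ht
  have ht0 : 0 < t := by positivity
  obtain ⟨η, hη, n0, h⟩ := q_small hz hl hρ (κ := κ / (2 * t)) (by positivity)
  obtain ⟨Φ, hΦ, hEL, hmass⟩ := hρ
  refine ⟨η, hη, n0, fun n hn R' hR' τ hτ => ?_⟩
  have hq := h n hn R' hR' τ hτ
  obtain ⟨Φ', hΦ', hTE, hm, hcs⟩ := hτ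
  have iq := qf_int hTE.nice hEL.nice hTE.nonneg hEL.nonneg
  have ic : IntegrableOn (fun _ : E3 => (1:ℝ)) (ball p L) := integrableOn_const (hs := measure_ball_lt_top.ne) (hC := by finiteness)
  have is : Integrable (fun x => τ x + ρ x) := hTE.nice.2.1.add hEL.nice.2.1
  have hpt : ∀ x, |τ x - ρ x| ≤ t * qf (τ x) (ρ x) + 3 / (8 * t) * (1 + (τ x + ρ x)) := by
    intro x
    have t0 := hTE.nonneg x
    have r0 := hEL.nonneg x
    have h1 := young_key t0 r0 ht0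
    have h2 : (max (τ x) (ρ x)) ^ (1/3 : ℝ) ≤ 1 + (τ x + ρ x) := by
      refine (third_le (le_max_of_le_left t0)).trans ?_
      have : max (τ x) (ρ x) ≤ τ x + ρ x := max_le (by linarith) (by linarith)
      linarith
    have h3 := mul_le_mul_of_nonneg_left h2 (by positivity : 0 ≤ 3 / (8 * t))
    unfold qf
    linarith
  have hi : IntegrableOn (fun x => t * qf (τ x) (ρ x) + 3 / (8 * t) * (1 + (τ x + ρ x))) (ball p L) :=
    (iq.const_mul t).integrableOn.add ((ic.add is.integrableOn).const_mul _)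
  have h1 : ∫ x in ball p L, |τ x - ρ x| ≤ ∫ x in ball p L, (t * qf (τ x) (ρ x) + 3 / (8 * t) * (1 + (τ x + ρ x))) :=
    setIntegral_mono (hTE.nice.2.1.sub hEL.nice.2.1).abs.integrableOn hi hpt
  have h2 : ∫ x in ball p L, (t * qf (τ x) (ρ x) + 3 / (8 * t) * (1 + (τ x + ρ x)))
      = t * (∫ x in ball p L, qf (τ x) (ρ x)) + 3 / (8 * t) * (v + ∫ x in ball p L, (τ x + ρ x)) := by
    have i3 : IntegrableOn (fun x => 1 + (τ x + ρ x)) (ball p L) := ic.add is.integrableOn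
    rw [integral_add (iq.const_mul t).integrableOn (i3.const_mul _), integral_const_mul, integral_const_mul, integral_add ic is.integrableOn]
    congr 2
    rw [setIntegral_const, smul_eq_mul, mul_one]
  have h3 : ∫ x in ball p L, qf (τ x) (ρ x) ≤ ∫ x, qf (τ x) (ρ x) :=
    setIntegral_le_integral iq (ae_of_all _ (fun x => qf_nonneg (hTE.nonneg x) (hEL.nonneg x)))
  have h4 : ∫ x in ball p L, (τ x + ρ x) ≤ 2 * lam := by
    refine (setIntegral_le_integral is (ae_of_all _ (fun x => add_nonneg (hTE.nonneg x) (hEL.nonneg x)))).trans ?_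
    rw [integral_add hTE.nice.2.1 hEL.nice.2.1]; linarith
  have h5 : t * (∫ x in ball p L, qf (τ x) (ρ x)) ≤ κ / 2 := by
    calc _ ≤ t * (κ / (2 * t)) := mul_le_mul_of_nonneg_left (h3.trans hq) ht0.le
      _ = κ / 2 := by field_simp
  have h6 : 3 / (8 * t) * (v + ∫ x in ball p L, (τ x + ρ x)) ≤ κ / 2 := by
    calc _ ≤ 3 / (8 * t) * (v + 2 * lam) := mul_le_mul_of_nonneg_left (by linarith) (by positivity)
      _ = κ / 2 := by rw [ht]; field_simp; ring
  linarith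

/-- **joint convergence of the forces** -/
theorem joint (hz : ∀ j, 0 ≤ z j) (hl : 0 < lam) {δ : ℝ} (hδ : 0 < δ) (hδ1 : δ ≤ 1) (hsep : ∀ i j, j ≠ i → 4 * δ ≤ ‖R i - R j‖)
    {ρ : E3 → ℝ} (hρ : Ion z R lam ρ) {κ : ℝ} (hκ : 0 < κ) (i : Fin k) :
    ∃ η > 0, ∃ n0 : ℕ, ∀ n ≥ n0, ∀ R' : Fin k → E3, (∀ j, ‖R' j - R j‖ < η) → ∀ τ, Sol n z R' lam τ →
      ‖PV τ (R' i) + FZ ρ (fun r => be (z i / r)) δ (R i)‖ ≤ κ := by
  obtain ⟨K, B, P, hK, hB, hP, hs1, hs2⟩ := sol_bounds hz hl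
  set A := Ac z δ B P with hA
  have hA0 : 0 ≤ A := Ac_nonneg hz hδ hB hP
  obtain ⟨ε, hε, hεδ, hε1, hJ⟩ := J5_small (κ := κ / (4 * (A + 1))) (δ := δ) (by positivity) hδ
  set L : ℝ := max 1 (16 * lam / κ) with hL
  have hL1 : 1 ≤ L := le_max_left _ _
  have hL0 : 0 < L := by linarith
  obtain ⟨η1, hη1, n1, hc⟩ := l1_conv hz hl hρ (κ := κ * ε ^ 2 / 8) (by positivity) (R i) L
  obtain ⟨n2, hn2⟩ := exists_nat_gt (‖R i‖ + 2)
  obtain ⟨Φ, hΦ, hEL, hmass⟩ := hρ
  obtain ⟨-, hB2, hP2⟩ := hs2 R Φ ρ hΦ hEL hmass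
  refine ⟨min (min η1 δ) (κ * ε ^ 3 / (32 * lam)), by positivity, max n1 n2, fun n hn R' hR' τ hτ => ?_⟩
  have hn1 : n1 ≤ n := (le_max_left _ _).trans hn
  have hn2' : (n2:ℝ) ≤ n := by exact_mod_cast (le_max_right _ _).trans hn
  have hR1 : ∀ j, ‖R' j - R j‖ < η1 := fun j => (hR' j).trans_le ((min_le_left _ _).trans (min_le_left _ _))
  have hR2 : ∀ j, ‖R' j - R j‖ < δ := fun j => (hR' j).trans_le ((min_le_left _ _).trans (min_le_right _ _))
  have hR3 : ‖R' i - R i‖ < κ * ε ^ 3 / (32 * lam) := (hR' i).trans_le (min_le_right _ _)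
  have hloc := hc n hn1 R' hR1 τ hτ
  obtain ⟨Φ', hΦ', hTE, hm, hcs⟩ := hτ
  obtain ⟨-, hB1, hP1⟩ := hs1 n R' Φ' τ hΦ' hTE hm hcs
  -- separation at `R'`
  have hsep' : ∀ j, j ≠ i → 2 * δ ≤ ‖R' i - R' j‖ := by
    intro j hj
    have h1 := hsep i j hj
    have h2 : ‖R i - R j‖ ≤ ‖R' i - R' j‖ + ‖R' i - R i‖ + ‖R' j - R j‖ := by
      have e : R i - R j = (R' i - R' j) - (R' i - R i) + (R' j - R j) := by abel
      rw [e]
      refine (norm_add_le _ _).trans ?_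
      have := norm_sub_le (R' i - R' j) (R' i - R i)
      linarith
    have h3 := hR2 i
    have h4 := hR2 j
    linarith
  have hsep2 : ∀ j, j ≠ i → 2 * δ ≤ ‖R i - R j‖ := fun j hj => by have := hsep i j hj; linarith
  have hnR : ‖R' i‖ + 1 ≤ n := by
    have : ‖R' i‖ ≤ ‖R' i - R i‖ + ‖R i‖ := by
      have e : R' i = (R' i - R i) + R i := by abel
      nth_rewrite 1 [e]; exact norm_add_le _ _
    have := hR2 i
    linarith
  have hbe : Measurable (fun r : ℝ => be (z i / r)) := be_meas.comp (measurable_const.div measurable_id)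
  have q1 : ‖PV τ (R' i) - Pe ε τ (R' i)‖ ≤ A * J5 ε := by
    refine near_bdd (N := n) (s := fun r => min (n:ℝ) (be (z i / r))) hTE.nice (fun y => ?_) (measurable_const.min hbe) (fun r => ?_) hA0
      (te_close hz hTE hB1 hΦ' hP1 hδ hδ1 hsep' hnR) hε hεδ hε1
    · rw [abs_of_nonneg (hTE.nonneg y)]; exact (hTE.le_cap y).trans (cap_le n y)
    · rw [abs_of_nonneg (le_min (Nat.cast_nonneg n) (be_nonneg _))]; exact min_le_left _ _
  have q2 : ‖-FZ ρ (fun r => be (z i / r)) δ (R i) - Pe ε ρ (R i)‖ ≤ A * J5 ε :=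
    near_Pe hEL.nice hbe hA0 hδ hδ1 (el_close hz hEL hB2 hΦ hP2 hδ hδ1 hsep2) hε hεδ
  have hAJ : A * J5 ε ≤ κ / 4 := by
    calc A * J5 ε ≤ A * (κ / (4 * (A + 1))) := mul_le_mul_of_nonneg_left hJ hA0
      _ ≤ κ / 4 := by rw [mul_div_assoc', div_le_div_iff₀ (by positivity) (by norm_num)]; nlinarith
  -- the smoothed forces
  have q3 : ‖Pe ε τ (R' i) - Pe ε ρ (R i)‖ ≤ 3 * κ / 8 := by
    have j1 := pe_int hTE.nice.2.1 hε (R' i)
    have j2 := pe_int hTE.nice.2.1 hε (R i)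
    have j3 := pe_int hEL.nice.2.1 hε (R i)
    have e : Pe ε τ (R' i) - Pe ε ρ (R i) = (∫ y, τ y • (ke ε (R' i - y) - ke ε (R i - y))) + ∫ y, (τ y - ρ y) • ke ε (R i - y) := by
      unfold Pe
      have e1 : ∫ y, τ y • (ke ε (R' i - y) - ke ε (R i - y)) = (∫ y, τ y • ke ε (R' i - y)) - ∫ y, τ y • ke ε (R i - y) := by
        rw [← integral_sub j1 j2]; congr 1; funext y; rw [smul_sub]
      have e2 : ∫ y, (τ y - ρ y) • ke ε (R i - y) = (∫ y, τ y • ke ε (R i - y)) - ∫ y, ρ y • ke ε (R i - y) := by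
        rw [← integral_sub j2 j3]; congr 1; funext y; rw [sub_smul]
      rw [e1, e2]; abel
    have r1 : ‖∫ y, τ y • (ke ε (R' i - y) - ke ε (R i - y))‖ ≤ κ / 8 := by
      refine (norm_integral_le_of_norm_le (hTE.nice.2.1.const_mul (4 / ε ^ 3 * (κ * ε ^ 3 / (32 * lam)))) (ae_of_all _ (fun y => ?_))).trans ?_
      · rw [norm_smul, Real.norm_of_nonneg (hTE.nonneg y), mul_comm]
        refine mul_le_mul_of_nonneg_right ?_ (hTE.nonneg y)
        refine (ke_lip hε _ _).trans ?_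
        refine mul_le_mul_of_nonneg_left ?_ (by positivity)
        rw [sub_sub_sub_cancel_right]
        exact hR3.le
      · rw [integral_const_mul]
        calc 4 / ε ^ 3 * (κ * ε ^ 3 / (32 * lam)) * ∫ y, τ y ≤ 4 / ε ^ 3 * (κ * ε ^ 3 / (32 * lam)) * lam :=
              mul_le_mul_of_nonneg_left hm (by positivity)
          _ = κ / 8 := by field_simp; ring
    have r2 : ‖∫ y, (τ y - ρ y) • ke ε (R i - y)‖ ≤ κ / 8 + κ / 8 := by
      have hd := hTE.nice.2.1.sub hEL.nice.2.1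
      have hi1 : Integrable (fun y => (ε ^ 2)⁻¹ * (ball (R i) L).indicator (fun y => |τ y - ρ y|) y) :=
        (hd.abs.indicator measurableSet_ball).const_mul _
      have hi2 : Integrable (fun y => (L ^ 2)⁻¹ * (τ y + ρ y)) := (hTE.nice.2.1.add hEL.nice.2.1).const_mul _
      refine (norm_integral_le_of_norm_le (hi1.add hi2) (ae_of_all _ (fun y => ?_))).trans ?_
      · rw [norm_smul, Real.norm_eq_abs, Pi.add_apply]
        have t0 := hTE.nonneg y
        have r0 := hEL.nonneg y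
        have hs : |τ y - ρ y| ≤ τ y + ρ y := by rw [abs_le]; constructor <;> linarith
        have hL2 : 0 ≤ (L ^ 2)⁻¹ * (τ y + ρ y) := by positivity
        by_cases hy : y ∈ ball (R i) L
        · rw [indicator_of_mem hy]
          have := mul_le_mul_of_nonneg_left (ke_norm_eps hε (R i - y)) (abs_nonneg (τ y - ρ y))
          linarith
        · rw [indicator_of_notMem hy, mul_zero, zero_add]
          have hy' : L ≤ ‖R i - y‖ := by
            rw [mem_ball, dist_eq_norm, norm_sub_rev] at hy; exact not_lt.1 hy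
          calc |τ y - ρ y| * ‖ke ε (R i - y)‖ ≤ (τ y + ρ y) * (L ^ 2)⁻¹ :=
                mul_le_mul hs (ke_norm_v hε hL0 hy') (norm_nonneg _) (by linarith)
            _ = (L ^ 2)⁻¹ * (τ y + ρ y) := mul_comm _ _
      · simp only [Pi.add_apply]
        rw [integral_add hi1 hi2, integral_const_mul, integral_const_mul, integral_indicator measurableSet_ball,
          integral_add hTE.nice.2.1 hEL.nice.2.1]
        refine add_le_add ?_ ?_
        · calc (ε ^ 2)⁻¹ * ∫ y in ball (R i) L, |τ y - ρ y| ≤ (ε ^ 2)⁻¹ * (κ * ε ^ 2 / 8) := mul_le_mul_of_nonneg_left hloc (by positivity)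
            _ = κ / 8 := by field_simp
        · have h1 : 16 * lam / κ ≤ L ^ 2 := by
            have h2 : 16 * lam / κ ≤ L := le_max_right _ _
            nlinarith
          have h2 : (∫ y, τ y) + (∫ y, ρ y) ≤ 2 * lam := by linarith
          have h3 : (L ^ 2)⁻¹ * (2 * lam) ≤ κ / 8 := by
            rw [inv_mul_le_iff₀ (by positivity)]
            rw [div_le_iff₀ hκ] at h1
            linarith
          exact (mul_le_mul_of_nonneg_left h2 (by positivity)).trans h3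
    rw [e]
    refine (norm_add_le _ _).trans ?_
    linarith
  have e : PV τ (R' i) + FZ ρ (fun r => be (z i / r)) δ (R i) = (PV τ (R' i) - Pe ε τ (R' i)) + (Pe ε τ (R' i) - Pe ε ρ (R i))
      - (-FZ ρ (fun r => be (z i / r)) δ (R i) - Pe ε ρ (R i)) := by abel
  rw [e]
  refine (norm_sub_le _ _).trans ?_
  have := norm_add_le (PV τ (R' i) - Pe ε τ (R' i)) (Pe ε τ (R' i) - Pe ε ρ (R i))
  linarith

end Pool.Agent.Q233.FT
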