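import Pool.Agent.Q233.FT.E

/-!
# Differentiability of the energy
-/

set_option autoImplicit false
open MeasureTheory Set Filter Topology Metric
open scoped RealInnerProductSpace BigOperators ENNReal
open Pool.Agent.Helper557 Pool.Agent.Helper557.TFP
open Pool.Agent.H9R2.TF Pool.Agent.Q233.TFShell Pool.Agent.Q233.TFAtom Pool.Agent.Q233.TFSat
  Pool.Agent.Q233.TFSup Pool.Agent.Q233.TFCmp Pool.Agent.Q233.TFMol Pool.Agent.Q233.TFIon Pool.Agent.Q233.TFDil

namespace Pool.Agent.Q233.FT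

variable {k : ℕ} {z : Fin k → ℝ} {R : Fin k → E3} {lam : ℝ}

/-! ### convergence of the truncated energies -/

theorem en_lim (hz : ∀ j, 0 ≤ z j) {ρ : E3 → ℝ} (hρ : Ion z R lam ρ) (τ : ℕ → E3 → ℝ) (hτ : ∀ n, Sol n z R lam (τ n)) :
    Tendsto (fun n => EF z R (τ n)) atTop (𝓝 (EF z R ρ)) := by
  obtain ⟨Φ, hΦ, hEL, hmass⟩ := hρ
  have nρ := hEL.nice
  have r0 := hEL.nonneg
  set σ : ℕ → E3 → ℝ := fun n x => min (ρ x) (cap n x) with hσ
  have σ0 : ∀ n x, 0 ≤ σ n x := fun n x => le_min (r0 x) (cap_nonneg n x)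
  have σm : ∀ n, Measurable (σ n) := fun n => nρ.1.min (cap_meas n)
  have σle : ∀ n x, |σ n x| ≤ ρ x := fun n x => by rw [abs_of_nonneg (σ0 n x)]; exact min_le_left _ _
  have σn : ∀ n, Nice (σ n) := fun n => nice_of_le nρ (σm n) (fun x => (σle n x).trans (le_abs_self _))
  have hev : ∀ x, ∀ᶠ n : ℕ in atTop, σ n x = ρ x := by
    intro x
    obtain ⟨N, hN⟩ := exists_nat_gt (max ‖x‖ (ρ x))
    filter_upwards [eventually_ge_atTop N] with n hn
    have h1 : (N:ℝ) ≤ n := by exact_mod_cast hn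
    have h2 : ‖x‖ < n := (le_max_left _ _).trans_lt (hN.trans_le h1)
    have h3 : ρ x < n := (le_max_right _ _).trans_lt (hN.trans_le h1)
    simp only [hσ]
    rw [cap_in h2]
    exact min_eq_left h3.le
  have hlow : ∀ n, EF z R ρ ≤ EF z R (τ n) := by
    intro n
    obtain ⟨Φ', hΦ', hTE, hm, hcs⟩ := hτ n
    have h1 := EF_expand hEL hTE.adm
    have h2 := pot_pos (nice_sub' hTE.nice nρ)
    have h3 : 0 ≤ Φ * ((∫ x, ρ x) - ∫ x, τ n x) := mul_nonneg hΦ (by linarith)
    linarith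
  have hup : ∀ n, EF z R (τ n) ≤ EF z R (σ n) := by
    intro n
    obtain ⟨Φ', hΦ', hTE, hm, hcs⟩ := hτ n
    have hσm : ∫ x, σ n x ≤ lam := by
      rw [← hmass]
      exact integral_mono (σn n).2.1 nρ.2.1 (fun x => min_le_left _ _)
    have h1 := te_expand hTE (adm_of_nice (σn n) (σ0 n)) (fun x => min_le_right _ _)
    have h2 := pot_pos (nice_sub' (σn n) hTE.nice)
    have h3 : 0 ≤ Φ' * ((∫ x, τ n x) - ∫ x, σ n x) := by
      rcases eq_or_lt_of_le hΦ' with h | h
      · rw [← h, zero_mul]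
      · rw [hcs h]; exact mul_nonneg hΦ' (by linarith)
    linarith
  have hlim : Tendsto (fun n => EF z R (σ n)) atTop (𝓝 (EF z R ρ)) := by
    unfold EF
    refine ((Tendsto.const_mul _ ?_).sub ?_).add (Tendsto.const_mul _ ?_)
    · refine tendsto_integral_of_dominated_convergence (fun x => ρ x ^ (5/3 : ℝ)) (fun n => ((σm n).pow_const _).aestronglyMeasurable)
        (nice_p53 nρ r0) (fun n => ae_of_all _ (fun x => ?_)) (ae_of_all _ (fun x => ?_))
      · rw [Real.norm_of_nonneg (Real.rpow_nonneg (σ0 n x) _)]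
        exact Real.rpow_le_rpow (σ0 n x) (min_le_left _ _) (by norm_num)
      · refine tendsto_const_nhds.congr' ((hev x).mono (fun n h => ?_))
        simp only
        rw [h]
    · refine tendsto_integral_of_dominated_convergence (fun x => VV z R x * ρ x) (fun n => ((VV_meas z R).mul (σm n)).aestronglyMeasurable)
        (vint z R nρ) (fun n => ae_of_all _ (fun x => ?_)) (ae_of_all _ (fun x => ?_))
      · have hv := VV_nonneg hz R x
        rw [Real.norm_of_nonneg (mul_nonneg hv (σ0 n x))]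
        exact mul_le_mul_of_nonneg_left (min_le_left _ _) hv
      · refine tendsto_const_nhds.congr' ((hev x).mono (fun n h => ?_))
        simp only
        rw [h]
    · obtain ⟨B, hB⟩ := pot_bdd nρ
      have hp : ∀ n x, |pot (σ n) x| ≤ B := by
        intro n x
        rw [abs_of_nonneg (pot_nonneg (σ0 n) x)]
        exact (pot_mono (σn n) nρ (fun y => min_le_left _ _) x).trans ((le_abs_self _).trans (hB.2 x))
      refine tendsto_integral_of_dominated_convergence (fun x => ρ x * B) (fun n => ?_)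
        (nρ.2.1.mul_const _) (fun n => ae_of_all _ (fun x => ?_)) (ae_of_all _ (fun x => ?_))
      · exact ((σm n).mul (pot_cont (σn n)).measurable).aestronglyMeasurable
      · rw [norm_mul, Real.norm_eq_abs, Real.norm_eq_abs]
        exact mul_le_mul (σle n x) (hp n x) (abs_nonneg _) (r0 x)
      · have h1 : Tendsto (fun n => σ n x) atTop (𝓝 (ρ x)) := tendsto_const_nhds.congr' ((hev x).mono (fun n h => h.symm))
        have h2 := (kop_full nρ).cont σ ρ σm nρ.1 σle (ae_of_all _ (fun x => tendsto_const_nhds.congr' ((hev x).mono (fun n h => h.symm)))) x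
        exact h1.mul h2
  exact tendsto_of_tendsto_of_tendsto_of_le_of_le tendsto_const_nhds hlim hlow hup

/-! ### increments of the truncated energies -/

lemma EF_move (z : Fin k → ℝ) (R' R'' : Fin k → E3) {τ : E3 → ℝ} (hn : Nice τ) :
    EF z R'' τ = EF z R' τ - ∑ j, z j * (pot τ (R'' j) - pot τ (R' j)) := by
  unfold EF
  rw [int_VV z R'' hn, int_VV z R' hn]
  simp only [mul_sub, Finset.sum_sub_distrib]
  ring

lemma EF_step (hz : ∀ j, 0 ≤ z j) {n : ℕ} {R' R'' : Fin k → E3} {τ' τ'' : E3 → ℝ} (h' : Sol n z R' lam τ') (h'' : Sol n z R'' lam τ'') :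
    EF z R'' τ'' ≤ EF z R' τ' + (∑ j, z j * ⟪PV τ' (R' j), R'' j - R' j⟫)
      + ∑ j, z j * (12 * (n * I5 + lam) * (‖R'' j - R' j‖ * √‖R'' j - R' j‖)) := by
  obtain ⟨Φ', hΦ', hTE', hm', hcs'⟩ := h'
  obtain ⟨Φ, hΦ, hTE, hm, hcs⟩ := h''
  have h1 := te_expand hTE hTE'.adm hTE'.le_cap
  have h2 := pot_pos (nice_sub' hTE'.nice hTE.nice)
  have h3 : 0 ≤ Φ * ((∫ x, τ'' x) - ∫ x, τ' x) := by
    rcases eq_or_lt_of_le hΦ with h | h
    · rw [← h, zero_mul]
    · rw [hcs h]; exact mul_nonneg hΦ (by linarith)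
  have h4 := EF_move z R' R'' hTE'.nice
  have h5 : -∑ j, z j * (pot τ' (R'' j) - pot τ' (R' j)) ≤ (∑ j, z j * ⟪PV τ' (R' j), R'' j - R' j⟫)
      + ∑ j, z j * (12 * (n * I5 + lam) * (‖R'' j - R' j‖ * √‖R'' j - R' j‖)) := by
    rw [← Finset.sum_neg_distrib, ← Finset.sum_add_distrib]
    refine Finset.sum_le_sum (fun j _ => ?_)
    have h6 := pot_exp hTE'.nice hTE'.nonneg (fun y => (hTE'.le_cap y).trans (cap_le n y)) hm' (R' j) (R'' j - R' j)
    rw [add_sub_cancel] at h6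
    have h7 := (abs_le.1 h6).1
    have h8 := mul_le_mul_of_nonneg_left h7 (hz j)
    linarith
  linarith

/-- a telescoping estimate -/
lemma tele {f : ℝ → ℝ} {A B c : ℝ} (hf : ∀ s t, 0 ≤ s → s ≤ t → t ≤ 1 → |f t - f s - (t - s) * c| ≤ A * (t - s) + B * ((t - s) * √(t - s))) :
    |f 1 - f 0 - c| ≤ A := by
  have key : ∀ N : ℕ, |f 1 - f 0 - c| ≤ A + B * √(1 / ((N:ℝ) + 1)) := by
    intro N
    have hN : (0:ℝ) < (N:ℝ) + 1 := by positivity
    have e : f 1 - f 0 - c = ∑ j ∈ Finset.range (N + 1), (f (((j:ℝ) + 1) / (N + 1)) - f ((j:ℝ) / (N + 1)) - (1 / ((N:ℝ) + 1)) * c) := by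
      rw [Finset.sum_sub_distrib, Finset.sum_const, Finset.card_range, nsmul_eq_mul]
      have h1 := Finset.sum_range_sub (fun j : ℕ => f ((j:ℝ) / (N + 1))) (N + 1)
      simp only [Nat.cast_add, Nat.cast_one, Nat.cast_zero, zero_div] at h1
      rw [h1, div_self hN.ne']
      push_cast
      field_simp
    rw [e]
    refine (Finset.abs_sum_le_sum_abs _ _).trans ?_
    have hb : ∀ j ∈ Finset.range (N + 1), |f (((j:ℝ) + 1) / (N + 1)) - f ((j:ℝ) / (N + 1)) - (1 / ((N:ℝ) + 1)) * c|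
        ≤ (A + B * √(1 / ((N:ℝ) + 1))) * (1 / ((N:ℝ) + 1)) := by
      intro j hj
      have hj' : (j:ℝ) + 1 ≤ N + 1 := by
        have := Finset.mem_range.1 hj
        have : (j:ℝ) + 1 ≤ ((N + 1 : ℕ) : ℝ) := by exact_mod_cast this
        push_cast at this
        exact this
      have e1 : ((j:ℝ) + 1) / (N + 1) - (j:ℝ) / (N + 1) = 1 / ((N:ℝ) + 1) := by ring
      have := hf ((j:ℝ) / (N + 1)) (((j:ℝ) + 1) / (N + 1)) (by positivity) (by gcongr; linarith) (by rw [div_le_one hN]; exact hj')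
      rw [e1] at this
      refine this.trans (le_of_eq ?_)
      ring
    refine (Finset.sum_le_sum hb).trans (le_of_eq ?_)
    rw [Finset.sum_const, Finset.card_range, nsmul_eq_mul]
    push_cast
    field_simp
  have hlim : Tendsto (fun N : ℕ => A + B * √(1 / ((N:ℝ) + 1))) atTop (𝓝 (A + B * √0)) :=
    ((Real.continuous_sqrt.tendsto 0).comp tendsto_one_div_add_atTop_nhds_zero_nat |>.const_mul B).const_add A
  rw [Real.sqrt_zero, mul_zero, add_zero] at hlim
  exact ge_of_tendsto' hlim key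

/-- first order estimate for the truncated energies, from closeness of the forces -/
theorem en_step (hz : ∀ j, 0 ≤ z j) (hl : 0 < lam) {n : ℕ} (τ : (Fin k → E3) → E3 → ℝ) (hτ : ∀ R', Sol n z R' lam (τ R')) {κ η : ℝ} (hκ : 0 ≤ κ)
    (F : Fin k → E3) (hF : ∀ R' : Fin k → E3, (∀ j, ‖R' j - R j‖ < η) → ∀ i, ‖PV (τ R') (R' i) + F i‖ ≤ κ) (R1 : Fin k → E3)
    (hR1 : ∀ j, ‖R1 j - R j‖ < η) :
    |EF z R1 (τ R1) - EF z R (τ R) + ∑ j, z j * ⟪F j, R1 j - R j⟫| ≤ κ * ∑ j, z j * ‖R1 j - R j‖ := by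
  set H : Fin k → E3 := fun j => R1 j - R j with hH
  set P : ℝ → Fin k → E3 := fun t j => R j + t • H j with hP
  have hPin : ∀ t, 0 ≤ t → t ≤ 1 → ∀ j, ‖P t j - R j‖ < η := by
    intro t h0 h1 j
    simp only [hP]
    rw [add_sub_cancel_left, norm_smul, Real.norm_of_nonneg h0]
    exact (mul_le_of_le_one_left (norm_nonneg _) h1).trans_lt (hR1 j)
  have hPd : ∀ s t j, P t j - P s j = (t - s) • H j := by
    intro s t j
    simp only [hP]
    module
  set C : ℝ := ∑ j, z j * (12 * (n * I5 + lam) * (‖H j‖ * √‖H j‖)) with hC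
  have one : ∀ s t, 0 ≤ s → s ≤ 1 → 0 ≤ t → t ≤ 1 → EF z (P t) (τ (P t)) ≤ EF z (P s) (τ (P s)) - (t - s) * (∑ j, z j * ⟪F j, H j⟫)
      + (κ * ∑ j, z j * ‖H j‖) * |t - s| + C * (|t - s| * √|t - s|) := by
    intro s t hs0 hs1 ht0 ht1
    have h1 := EF_step hz (hτ (P s)) (hτ (P t))
    have h2 : ∑ j, z j * ⟪PV (τ (P s)) (P s j), P t j - P s j⟫ ≤ - (t - s) * (∑ j, z j * ⟪F j, H j⟫) + (κ * ∑ j, z j * ‖H j‖) * |t - s| := by
      have e : - (t - s) * (∑ j, z j * ⟪F j, H j⟫) + (κ * ∑ j, z j * ‖H j‖) * |t - s|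
          = ∑ j, z j * (-(t - s) * ⟪F j, H j⟫ + κ * ‖H j‖ * |t - s|) := by
        simp only [Finset.mul_sum, Finset.sum_mul, ← Finset.sum_add_distrib]
        refine Finset.sum_congr rfl (fun j _ => by ring)
      rw [e]
      refine Finset.sum_le_sum (fun j _ => mul_le_mul_of_nonneg_left ?_ (hz j))
      rw [hPd, real_inner_smul_right]
      have h3 : ⟪PV (τ (P s)) (P s j), H j⟫ = ⟪PV (τ (P s)) (P s j) + F j, H j⟫ - ⟪F j, H j⟫ := by
        rw [inner_add_left]; ring
      have h4 : |(t - s) * ⟪PV (τ (P s)) (P s j) + F j, H j⟫| ≤ κ * ‖H j‖ * |t - s| := by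
        rw [abs_mul]
        have h5 := abs_real_inner_le_norm (PV (τ (P s)) (P s j) + F j) (H j)
        have h6 := mul_le_mul_of_nonneg_right (hF (P s) (hPin s hs0 hs1) j) (norm_nonneg (H j))
        have := mul_le_mul_of_nonneg_left (h5.trans h6) (abs_nonneg (t - s))
        linarith
      have := (abs_le.1 h4).2
      rw [h3]
      linarith
    have h7 : ∑ j, z j * (12 * (n * I5 + lam) * (‖P t j - P s j‖ * √‖P t j - P s j‖)) = C * (|t - s| * √|t - s|) := by
      rw [hC, Finset.sum_mul]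
      refine Finset.sum_congr rfl (fun j _ => ?_)
      rw [hPd, norm_smul, Real.norm_eq_abs, Real.sqrt_mul (abs_nonneg _)]
      ring
    linarith
  have h := tele (f := fun t => EF z (P t) (τ (P t))) (A := κ * ∑ j, z j * ‖H j‖) (B := C) (c := - ∑ j, z j * ⟪F j, H j⟫) (fun s t hs hst ht => by
    have a := one s t hs (hst.trans ht) (hs.trans hst) ht
    have b := one t s (hs.trans hst) ht hs (hst.trans ht)
    rw [abs_sub_comm s t, abs_of_nonneg (sub_nonneg.2 hst)] at b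
    rw [abs_of_nonneg (sub_nonneg.2 hst)] at a
    rw [abs_le]
    constructor <;> linarith)
  have e1 : P 1 = R1 := by funext j; simp only [hP, hH, one_smul]; abel
  have e0 : P 0 = R := by funext j; simp only [hP, zero_smul, add_zero]
  rw [e1, e0, sub_neg_eq_add] at h
  exact h

end Pool.Agent.Q233.FT
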