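import Pool.Agent.Q233.FT.F

/-!
# The energy is continuously differentiable in the nuclear positions (`γ = 1`)
-/

set_option autoImplicit false
open MeasureTheory Set Filter Topology Metric
open scoped RealInnerProductSpace BigOperators ENNReal ContDiff
open Pool.Agent.Helper557 Pool.Agent.Helper557.TFP
open Pool.Agent.H9R2.TF Pool.Agent.Q233.TFShell Pool.Agent.Q233.TFAtom Pool.Agent.Q233.TFSat
  Pool.Agent.Q233.TFSup Pool.Agent.Q233.TFCmp Pool.Agent.Q233.TFMol Pool.Agent.Q233.TFIon Pool.Agent.Q233.TFDil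

namespace Pool.Agent.Q233.FT

variable {k : ℕ} {z : Fin k → ℝ} {R : Fin k → E3} {lam : ℝ}

/-- distinct positions -/
def Om (k : ℕ) : Set (Fin k → E3) := {R | ∀ i j, i ≠ j → R i ≠ R j}

lemma Om_open (k : ℕ) : IsOpen (Om k) := by
  have : Om k = ⋂ i, ⋂ j, {R : Fin k → E3 | i ≠ j → R i ≠ R j} := by
    ext R; simp [Om]
  rw [this]
  refine isOpen_iInter_of_finite (fun i => isOpen_iInter_of_finite (fun j => ?_))
  by_cases h : i = j
  · have : {R : Fin k → E3 | i ≠ j → R i ≠ R j} = univ := by ext R; simp [h]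
    rw [this]; exact isOpen_univ
  · have : {R : Fin k → E3 | i ≠ j → R i ≠ R j} = {R : Fin k → E3 | R i ≠ R j} := by ext R; simp [h]
    rw [this]
    exact isOpen_ne_fun (continuous_apply i) (continuous_apply j)

lemma exists_sep (hR : R ∈ Om k) : ∃ δ : ℝ, 0 < δ ∧ δ ≤ 1 ∧ ∀ i j, j ≠ i → 4 * δ ≤ ‖R i - R j‖ := by
  have h1 : ∀ᶠ δ in 𝓝[>] (0:ℝ), ∀ i j, j ≠ i → 4 * δ ≤ ‖R i - R j‖ := by
    refine eventually_all.2 (fun i => eventually_all.2 (fun j => ?_))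
    by_cases h : j = i
    · exact Eventually.of_forall (fun δ hc => absurd h hc)
    · have hp : 0 < ‖R i - R j‖ / 4 := by
        have := norm_pos_iff.2 (sub_ne_zero.2 (hR i j (Ne.symm h)))
        positivity
      have : ∀ᶠ δ in 𝓝[>] (0:ℝ), δ < ‖R i - R j‖ / 4 := nhdsWithin_le_nhds (gt_mem_nhds hp)
      filter_upwards [this] with δ hδ _
      linarith
  have h2 : ∀ᶠ δ in 𝓝[>] (0:ℝ), δ < 1 := nhdsWithin_le_nhds (gt_mem_nhds one_pos)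
  have h3 : ∀ᶠ δ in 𝓝[>] (0:ℝ), 0 < δ := self_mem_nhdsWithin
  obtain ⟨δ, a, b, c⟩ := (h1.and (h2.and h3)).exists
  exact ⟨δ, c, b.le, a⟩

/-- the TF ion -/
noncomputable def rhoI (z : Fin k → ℝ) (R : Fin k → E3) (lam : ℝ) : E3 → ℝ := by
  classical exact if h : ∃ ρ, Ion z R lam ρ then h.choose else fun _ => 0

lemma rhoI_ion (hz : ∀ j, 0 ≤ z j) (R : Fin k → E3) (hl : 0 < lam) (hlZ : lam ≤ ∑ j, z j) : Ion z R lam (rhoI z R lam) := by
  have h : ∃ ρ, Ion z R lam ρ := by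
    obtain ⟨Φ, h1, ρ, h2, h3⟩ := ion_exists hz R hl hlZ
    exact ⟨ρ, Φ, h1, h2, h3⟩
  unfold rhoI
  rw [dif_pos h]
  exact h.choose_spec

/-- the force on nucleus `i`, divided by its charge -/
noncomputable def frc (z : Fin k → ℝ) (lam : ℝ) (R : Fin k → E3) (i : Fin k) : E3 := limUnder (𝓝[>] 0) (Tr (rhoI z R lam) (R i))

lemma be_div_meas (c : ℝ) : Measurable (fun r : ℝ => be (c / r)) := be_meas.comp (measurable_const.div measurable_id)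

/-- closeness of an ion to the radial leading term -/
lemma ion_close (hz : ∀ j, 0 ≤ z j) (hl : 0 < lam) {ρ : E3 → ℝ} (h : Ion z R lam ρ) {δ : ℝ} (hδ : 0 < δ) (hδ1 : δ ≤ 1)
    (hsep : ∀ i j, j ≠ i → 4 * δ ≤ ‖R i - R j‖) (i : Fin k) :
    ∃ A, 0 ≤ A ∧ ∀ y, 0 < ‖R i - y‖ → ‖R i - y‖ < δ → |ρ y - be (z i / ‖R i - y‖)| ≤ A * (√‖R i - y‖)⁻¹ := by
  obtain ⟨K, B, P, hK, hB, hP, hs1, hs2⟩ := sol_bounds hz hl
  obtain ⟨Φ, hΦ, hEL, hmass⟩ := h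
  obtain ⟨-, hB2, hP2⟩ := hs2 R Φ ρ hΦ hEL hmass
  exact ⟨Ac z δ B P, Ac_nonneg hz hδ hB hP, el_close hz hEL hB2 hΦ hP2 hδ hδ1 (fun j hj => by have := hsep i j hj; linarith)⟩

lemma ion_Tr (hz : ∀ j, 0 ≤ z j) (hl : 0 < lam) {ρ : E3 → ℝ} (h : Ion z R lam ρ) {δ : ℝ} (hδ : 0 < δ) (hδ1 : δ ≤ 1)
    (hsep : ∀ i j, j ≠ i → 4 * δ ≤ ‖R i - R j‖) (i : Fin k) :
    Tendsto (Tr ρ (R i)) (𝓝[>] 0) (𝓝 (FZ ρ (fun r => be (z i / r)) δ (R i))) := by
  obtain ⟨A, hA, hc⟩ := ion_close hz hl h hδ hδ1 hsep i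
  obtain ⟨Φ, hΦ, hEL, hmass⟩ := h
  exact near_Tr hEL.nice (be_div_meas _) hA hδ hδ1 hc

lemma frc_eq (hz : ∀ j, 0 ≤ z j) (hl : 0 < lam) (hlZ : lam ≤ ∑ j, z j) {δ : ℝ} (hδ : 0 < δ) (hδ1 : δ ≤ 1)
    (hsep : ∀ i j, j ≠ i → 4 * δ ≤ ‖R i - R j‖) (i : Fin k) :
    frc z lam R i = FZ (rhoI z R lam) (fun r => be (z i / r)) δ (R i) :=
  (ion_Tr hz hl (rhoI_ion hz R hl hlZ) hδ hδ1 hsep i).limUnder_eq

lemma frc_Tr (hz : ∀ j, 0 ≤ z j) (hl : 0 < lam) (hlZ : lam ≤ ∑ j, z j) (hR : R ∈ Om k) (i : Fin k) :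
    Tendsto (Tr (rhoI z R lam) (R i)) (𝓝[>] 0) (𝓝 (frc z lam R i)) := by
  obtain ⟨δ, h1, h2, h3⟩ := exists_sep hR
  rw [frc_eq hz hl hlZ h1 h2 h3 i]
  exact ion_Tr hz hl (rhoI_ion hz R hl hlZ) h1 h2 h3 i

theorem joint' (hz : ∀ j, 0 ≤ z j) (hl : 0 < lam) (hlZ : lam ≤ ∑ j, z j) (hR : R ∈ Om k) {κ : ℝ} (hκ : 0 < κ) :
    ∃ η > 0, ∃ n0 : ℕ, ∀ n ≥ n0, ∀ R' : Fin k → E3, (∀ j, ‖R' j - R j‖ < η) → ∀ τ, Sol n z R' lam τ →
      ∀ i, ‖PV τ (R' i) + frc z lam R i‖ ≤ κ := by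
  obtain ⟨δ, h1, h2, h3⟩ := exists_sep hR
  have hj : ∀ i, ∃ η > 0, ∃ n0 : ℕ, ∀ n ≥ n0, ∀ R' : Fin k → E3, (∀ j, ‖R' j - R j‖ < η) → ∀ τ, Sol n z R' lam τ →
      ‖PV τ (R' i) + frc z lam R i‖ ≤ κ := by
    intro i
    rw [frc_eq hz hl hlZ h1 h2 h3 i]
    exact joint hz hl h1 h2 h3 (rhoI_ion hz R hl hlZ) hκ i
  choose η hη n0 hn using hj
  have e1 : ∀ᶠ t in 𝓝[>] (0:ℝ), ∀ i, t < η i := eventually_all.2 (fun i => nhdsWithin_le_nhds (gt_mem_nhds (hη i)))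
  have e2 : ∀ᶠ t in 𝓝[>] (0:ℝ), 0 < t := self_mem_nhdsWithin
  obtain ⟨t, ht1, ht2⟩ := (e1.and e2).exists
  obtain ⟨N, hN⟩ := (eventually_all.2 (fun i => eventually_ge_atTop (n0 i))).exists_forall_of_atTop
  exact ⟨t, ht2, N, fun n hn' R' hR' τ hτ i => hn i n (hN n hn' i) R' (fun j => (hR' j).trans (ht1 i)) τ hτ⟩

/-- the derivative -/
noncomputable def fL (z : Fin k → ℝ) (F : Fin k → E3) : (Fin k → E3) →L[ℝ] ℝ :=
  -∑ j, z j • (innerSL ℝ (F j)).comp (ContinuousLinearMap.proj (R := ℝ) (φ := fun _ : Fin k => E3) j)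

lemma fL_apply (z : Fin k → ℝ) (F H : Fin k → E3) : fL z F H = -∑ j, z j * ⟪F j, H j⟫ := by
  unfold fL
  simp

lemma fL_cont (z : Fin k → ℝ) : Continuous (fL z) := by
  have h : ∀ j, Continuous (fun F : Fin k → E3 => z j • (innerSL ℝ (F j)).comp (ContinuousLinearMap.proj (R := ℝ) (φ := fun _ : Fin k => E3) j)) := by
    intro j
    have h1 : Continuous (fun F : Fin k → E3 => innerSL ℝ (F j)) := (innerSL ℝ (E := E3)).continuous.comp (continuous_apply j)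
    have h2 : Continuous (fun _ : Fin k → E3 => ContinuousLinearMap.proj (R := ℝ) (φ := fun _ : Fin k => E3) j) := continuous_const
    exact (h1.clm_comp h2).const_smul (z j)
  have h3 : Continuous (fun F : Fin k → E3 => ∑ j, z j • (innerSL ℝ (F j)).comp (ContinuousLinearMap.proj (R := ℝ) (φ := fun _ : Fin k => E3) j)) :=
    continuous_finsetSum _ (fun j _ => h j)
  exact h3.neg

theorem el_deriv (hz : ∀ j, 0 ≤ z j) (hl : 0 < lam) (hlZ : lam ≤ ∑ j, z j) (hR : R ∈ Om k) :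
    HasFDerivAt (fun R => el z R lam) (fL z (frc z lam R)) R := by
  have Z0 : 0 ≤ ∑ j, z j := Finset.sum_nonneg fun j _ => hz j
  have hel : ∀ R, el z R lam = EF z R (rhoI z R lam) := by
    intro R
    obtain ⟨Φ, hΦ, hEL, hmass⟩ := rhoI_ion hz R hl hlZ
    have := el_eq hz hEL
    rwa [hmass] at this
  have hex : ∀ (n : ℕ) (R : Fin k → E3), ∃ τ, Sol n z R lam τ := by
    intro n R
    obtain ⟨Φ, τ, h1, h2, h3, h4⟩ := te_ion hz n R hl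
    exact ⟨τ, Φ, h1, h2, h3, h4⟩
  choose τ hτ using hex
  rw [hasFDerivAt_iff_isLittleO, Asymptotics.isLittleO_iff]
  intro c hc
  obtain ⟨η, hη, n0, hj⟩ := joint' hz hl hlZ hR (κ := c / ((∑ j, z j) + 1)) (by positivity)
  filter_upwards [ball_mem_nhds R hη] with R1 hR1
  have hR1' : ∀ j, ‖R1 j - R j‖ ≤ ‖R1 - R‖ := fun j => norm_le_pi_norm (R1 - R) j
  have hR1'' : ‖R1 - R‖ < η := by rwa [mem_ball, dist_eq_norm] at hR1
  have h1 : ∀ᶠ n in atTop, |EF z R1 (τ n R1) - EF z R (τ n R) + ∑ j, z j * ⟪frc z lam R j, R1 j - R j⟫|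
      ≤ c / ((∑ j, z j) + 1) * ∑ j, z j * ‖R1 j - R j‖ := by
    filter_upwards [eventually_ge_atTop n0] with n hn
    exact en_step hz hl (τ n) (fun R' => hτ n R') (by positivity) (frc z lam R)
      (fun R' hR' i => hj n hn R' hR' (τ n R') (hτ n R') i) R1 (fun j => (hR1' j).trans_lt hR1'')
  have h2 : Tendsto (fun n => |EF z R1 (τ n R1) - EF z R (τ n R) + ∑ j, z j * ⟪frc z lam R j, R1 j - R j⟫|) atTop
      (𝓝 |EF z R1 (rhoI z R1 lam) - EF z R (rhoI z R lam) + ∑ j, z j * ⟪frc z lam R j, R1 j - R j⟫|) :=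
    (((en_lim hz (rhoI_ion hz R1 hl hlZ) (fun n => τ n R1) (fun n => hτ n R1)).sub
      (en_lim hz (rhoI_ion hz R hl hlZ) (fun n => τ n R) (fun n => hτ n R))).add_const _).abs
  have h3 := le_of_tendsto h2 h1
  have e : el z R1 lam - el z R lam - fL z (frc z lam R) (R1 - R)
      = EF z R1 (rhoI z R1 lam) - EF z R (rhoI z R lam) + ∑ j, z j * ⟪frc z lam R j, R1 j - R j⟫ := by
    rw [fL_apply, hel, hel]
    simp only [Pi.sub_apply]
    ring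
  rw [e, Real.norm_eq_abs]
  refine h3.trans ?_
  have h4 : ∑ j, z j * ‖R1 j - R j‖ ≤ (∑ j, z j) * ‖R1 - R‖ := by
    rw [Finset.sum_mul]
    exact Finset.sum_le_sum (fun j _ => mul_le_mul_of_nonneg_left (hR1' j) (hz j))
  calc c / ((∑ j, z j) + 1) * ∑ j, z j * ‖R1 j - R j‖ ≤ c / ((∑ j, z j) + 1) * ((∑ j, z j) * ‖R1 - R‖) :=
        mul_le_mul_of_nonneg_left h4 (by positivity)
    _ = (c / ((∑ j, z j) + 1) * (∑ j, z j)) * ‖R1 - R‖ := by ring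
    _ ≤ c * ‖R1 - R‖ := by
        refine mul_le_mul_of_nonneg_right ?_ (norm_nonneg _)
        rw [div_mul_eq_mul_div, div_le_iff₀ (by positivity)]
        nlinarith

theorem frc_cont (hz : ∀ j, 0 ≤ z j) (hl : 0 < lam) (hlZ : lam ≤ ∑ j, z j) : ContinuousOn (frc z lam) (Om k) := by
  intro R hR
  rw [ContinuousWithinAt, Metric.tendsto_nhds]
  intro κ hκ
  obtain ⟨η, hη, n0, hj⟩ := joint' hz hl hlZ hR (κ := κ / 4) (by positivity)
  filter_upwards [self_mem_nhdsWithin, nhdsWithin_le_nhds (ball_mem_nhds R hη)] with R1 hR1 hR1b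
  have hR1' : ∀ j, ‖R1 j - R j‖ ≤ ‖R1 - R‖ := fun j => norm_le_pi_norm (R1 - R) j
  have hR1'' : ‖R1 - R‖ < η := by rwa [mem_ball, dist_eq_norm] at hR1b
  obtain ⟨η', hη', n1, hj'⟩ := joint' hz hl hlZ hR1 (κ := κ / 4) (by positivity)
  obtain ⟨Φ, τ, h1, h2, h3, h4⟩ := te_ion hz (max n0 n1) R1 hl
  have hs : Sol (max n0 n1) z R1 lam τ := ⟨Φ, h1, h2, h3, h4⟩
  have a := hj (max n0 n1) (le_max_left _ _) R1 (fun j => (hR1' j).trans_lt hR1'') τ hs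
  have b := hj' (max n0 n1) (le_max_right _ _) R1 (fun j => by rw [sub_self, norm_zero]; exact hη') τ hs
  rw [dist_pi_lt_iff hκ]
  intro i
  rw [dist_eq_norm]
  have e : frc z lam R1 i - frc z lam R i = (PV τ (R1 i) + frc z lam R1 i) - (PV τ (R1 i) + frc z lam R i) := by abel
  rw [e]
  refine (norm_sub_le _ _).trans_lt ?_
  have := a i
  have := b i
  linarith

theorem el_contDiff (hz : ∀ j, 0 ≤ z j) (hl : 0 < lam) (hlZ : lam ≤ ∑ j, z j) : ContDiffOn ℝ 1 (fun R => el z R lam) (Om k) := by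
  have h := contDiffOn_succ_iff_fderiv_of_isOpen (𝕜 := ℝ) (n := 0) (f := fun R : Fin k → E3 => el z R lam) (Om_open k)
  rw [zero_add] at h
  rw [h]
  refine ⟨fun R hR => (el_deriv hz hl hlZ hR).differentiableAt.differentiableWithinAt, fun h0 => ?_, ?_⟩
  · exact absurd h0 (by simp)
  · rw [contDiffOn_zero]
    refine ((fL_cont z).comp_continuousOn (frc_cont hz hl hlZ)).congr (fun R hR => ?_)
    exact (el_deriv hz hl hlZ hR).fderiv

end Pool.Agent.Q233.FT
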