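import Pool.Agent.Q233.FT.G

/-!
# The gradient of the potential at a nucleus
-/

set_option autoImplicit false
open MeasureTheory Set Filter Topology Metric
open scoped RealInnerProductSpace BigOperators ENNReal
open Pool.Agent.Helper557 Pool.Agent.Helper557.TFP
open Pool.Agent.H9R2.TF Pool.Agent.Q233.TFShell Pool.Agent.Q233.TFAtom Pool.Agent.Q233.TFSat
  Pool.Agent.Q233.TFSup Pool.Agent.Q233.TFCmp Pool.Agent.Q233.TFMol Pool.Agent.Q233.TFIon

namespace Pool.Agent.Q233.FT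

lemma inv_sq_le_h5 (u : E3) : (‖u‖ ^ 2)⁻¹ ≤ 1 + h5 ‖u‖ := by
  rcases eq_or_lt_of_le (norm_nonneg u) with h0 | h0
  · rw [← h0, h5_zero]; norm_num
  rcases le_or_gt 1 ‖u‖ with h | h
  · have := inv_le_one_of_one_le₀ (one_le_pow₀ h : 1 ≤ ‖u‖ ^ 2)
    have := h5_nonneg ‖u‖
    linarith
  · unfold h5
    have h1 : √‖u‖ ≤ 1 := by rw [Real.sqrt_le_one]; exact h.le
    have h2 : 1 ≤ (√‖u‖)⁻¹ := (one_le_inv₀ (by positivity)).2 h1
    have := le_mul_of_one_le_right (by positivity : (0:ℝ) ≤ (‖u‖ ^ 2)⁻¹) h2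
    linarith

lemma h5_anti {a b : ℝ} (ha : 0 < a) (hab : a ≤ b) : h5 b ≤ h5 a := by
  unfold h5
  exact mul_le_mul (inv_anti₀ (by positivity) (pow_le_pow_left₀ ha.le hab 2))
    (inv_anti₀ (Real.sqrt_pos.2 ha) (Real.sqrt_le_sqrt hab)) (by positivity) (by positivity)

lemma loc_bound {f : E3 → ℝ} {x : E3} {r0 N : ℝ} (hr0 : 0 < r0) (hN : 0 ≤ N) (hb : ∀ y, ‖x - y‖ < r0 → |f y| ≤ N) {x' : E3}
    (hx' : ‖x' - x‖ ≤ r0 / 2) (y : E3) : |f y| * h5 ‖x' - y‖ ≤ N * kap5 (x' - y) + (1 + h5 (r0 / 2)) * |f y| := by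
  have hk := kap5_nonneg (x' - y)
  have hf := abs_nonneg (f y)
  have hh := h5_nonneg (r0 / 2)
  rcases le_or_gt (r0 / 2) ‖x' - y‖ with h | h
  · have h1 := mul_le_mul_of_nonneg_left (h5_anti (by positivity) h) hf
    have := mul_nonneg hN hk
    nlinarith
  · have h2 : ‖x - y‖ < r0 := by
      have : ‖x - y‖ ≤ ‖x' - x‖ + ‖x' - y‖ := by
        have e : x - y = -(x' - x) + (x' - y) := by abel
        rw [e]; refine (norm_add_le _ _).trans ?_; rw [norm_neg]
      linarith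
    have h3 := mul_le_mul_of_nonneg_left (h5_kap (x' - y)) hf
    have h4 := mul_le_mul_of_nonneg_right (hb y h2) hk
    have := mul_nonneg hh hf
    nlinarith

lemma loc_int {f : E3 → ℝ} (hn : Nice f) {x : E3} {r0 N : ℝ} (hr0 : 0 < r0) (hN : 0 ≤ N) (hb : ∀ y, ‖x - y‖ < r0 → |f y| ≤ N) {x' : E3}
    (hx' : ‖x' - x‖ ≤ r0 / 2) : Integrable (fun y => |f y| * h5 ‖x' - y‖) ∧
      ∫ y, |f y| * h5 ‖x' - y‖ ≤ N * I5 + (1 + h5 (r0 / 2)) * ∫ y, |f y| := by
  have i1 : Integrable (fun y => N * kap5 (x' - y) + (1 + h5 (r0 / 2)) * |f y|) :=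
    ((kap5_shift1 x').1.const_mul N).add (hn.2.1.abs.const_mul _)
  have i2 : Integrable (fun y => |f y| * h5 ‖x' - y‖) := by
    refine i1.mono' ?_ (ae_of_all _ (fun y => ?_))
    · exact (hn.1.abs.mul (h5_meas.comp ((measurable_const.sub measurable_id).norm))).aestronglyMeasurable
    · rw [Real.norm_of_nonneg (mul_nonneg (abs_nonneg _) (h5_nonneg _))]
      exact loc_bound hr0 hN hb hx' y
  refine ⟨i2, (integral_mono i2 i1 (loc_bound hr0 hN hb hx')).trans ?_⟩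
  rw [integral_add ((kap5_shift1 x').1.const_mul N) (hn.2.1.abs.const_mul _), integral_const_mul, integral_const_mul, (kap5_shift1 x').2]

lemma loc_kv_int {f : E3 → ℝ} (hn : Nice f) {x : E3} {r0 N : ℝ} (hr0 : 0 < r0) (hN : 0 ≤ N) (hb : ∀ y, ‖x - y‖ < r0 → |f y| ≤ N) :
    Integrable (fun y => f y • kv (x - y)) := by
  have h := (loc_int hn hr0 hN hb (x' := x) (by rw [sub_self, norm_zero]; positivity)).1
  refine (hn.2.1.abs.add h).mono' (smul_kv_meas hn.1 x) (ae_of_all _ (fun y => ?_))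
  rw [norm_smul, kv_norm, Real.norm_eq_abs, Pi.add_apply]
  have := mul_le_mul_of_nonneg_left (inv_sq_le_h5 (x - y)) (abs_nonneg (f y))
  linarith

/-- the potential is differentiable where the density is locally bounded -/
theorem pot_fderiv {f : E3 → ℝ} (hn : Nice f) {x : E3} {r0 N : ℝ} (hr0 : 0 < r0) (hN : 0 ≤ N) (hb : ∀ y, ‖x - y‖ < r0 → |f y| ≤ N) :
    HasFDerivAt (pot f) (innerSL ℝ (-PV f x)) x := by
  have hkv := loc_kv_int hn hr0 hN hb
  obtain ⟨B, hB⟩ := nice_bound f hn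
  set D : ℝ := N * I5 + (1 + h5 (r0 / 2)) * ∫ y, |f y| with hD
  have hest : ∀ w : E3, ‖w‖ ≤ r0 / 2 → |pot f (x + w) - pot f x + ⟪PV f x, w⟫| ≤ 12 * D * (‖w‖ * √‖w‖) := by
    intro w hw
    have i1 := (hB (x + w)).1
    have i2 := (hB x).1
    have i3' : Integrable (fun y => ⟪w, f y • kv (x - y)⟫) := hkv.const_inner w
    have e1 : ⟪PV f x, w⟫ = ∫ y, ⟪w, f y • kv (x - y)⟫ := by
      rw [real_inner_comm]
      exact (integral_inner hkv w).symm
    have i12 : Integrable (fun y => f y / ‖x + w - y‖ - f y / ‖x - y‖) := i1.sub i2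
    have e2 : pot f (x + w) - pot f x + ⟪PV f x, w⟫ = ∫ y, (f y / ‖x + w - y‖ - f y / ‖x - y‖ + ⟪w, f y • kv (x - y)⟫) := by
      rw [e1]
      unfold pot
      rw [← integral_sub i1 i2, ← integral_add i12 i3']
    rw [e2]
    obtain ⟨j1, j1'⟩ := loc_int hn hr0 hN hb (x' := x) (by rw [sub_self, norm_zero]; positivity)
    obtain ⟨j2, j2'⟩ := loc_int hn hr0 hN hb (x' := x + w) (by rw [add_sub_cancel_left]; exact hw)
    refine (abs_integral_le_integral_abs).trans ?_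
    have hc : 0 ≤ 6 * (‖w‖ * √‖w‖) := by positivity
    have hi : Integrable (fun y => 6 * (‖w‖ * √‖w‖) * (|f y| * h5 ‖x - y‖ + |f y| * h5 ‖x + w - y‖)) := (j1.add j2).const_mul _
    have hle : ∫ y, |f y / ‖x + w - y‖ - f y / ‖x - y‖ + ⟪w, f y • kv (x - y)⟫|
        ≤ ∫ y, 6 * (‖w‖ * √‖w‖) * (|f y| * h5 ‖x - y‖ + |f y| * h5 ‖x + w - y‖) := by
      refine integral_mono_ae (i12.add i3').abs hi ?_
      have ha1 : ∀ᵐ y : E3, y ≠ x := by
        rw [ae_iff]; simp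
      have ha2 : ∀ᵐ y : E3, y ≠ x + w := by
        rw [ae_iff]; simp
      filter_upwards [ha1, ha2] with y hy1 hy2
      have k := ker_exp (v := x - y) (w := w) (sub_ne_zero.2 hy1.symm) (by
        rw [show x - y + w = x + w - y by abel]; exact sub_ne_zero.2 hy2.symm)
      rw [show x - y + w = x + w - y by abel] at k
      have e3 : f y / ‖x + w - y‖ - f y / ‖x - y‖ + ⟪w, f y • kv (x - y)⟫
          = f y * (1 / ‖x + w - y‖ - 1 / ‖x - y‖ + ⟪x - y, w⟫ / ‖x - y‖ ^ 3) := by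
        rw [real_inner_smul_right, real_inner_comm, kv_inner]; ring
      rw [e3, abs_mul]
      have := mul_le_mul_of_nonneg_left k (abs_nonneg (f y))
      linarith
    refine hle.trans ?_
    rw [integral_const_mul, integral_add j1 j2]
    have : (∫ y, |f y| * h5 ‖x - y‖) + (∫ y, |f y| * h5 ‖x + w - y‖) ≤ 2 * D := by linarith
    have := mul_le_mul_of_nonneg_left this hc
    linarith
  have hD0 : 0 ≤ D := by
    have := I5_nonneg
    have := h5_nonneg (r0 / 2)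
    have : 0 ≤ ∫ y, |f y| := integral_nonneg (fun y => abs_nonneg _)
    positivity
  rw [hasFDerivAt_iff_isLittleO_nhds_zero, Asymptotics.isLittleO_iff]
  intro c hc
  have hη : 0 < min (r0 / 2) ((c / (12 * D + 1)) ^ 2) := by positivity
  filter_upwards [ball_mem_nhds (0:E3) hη] with w hw
  rw [mem_ball_zero_iff] at hw
  have h1 := hest w (hw.le.trans (min_le_left _ _))
  have e : pot f (x + w) - pot f x - (innerSL ℝ (-PV f x)) w = pot f (x + w) - pot f x + ⟪PV f x, w⟫ := by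
    simp
  rw [e, Real.norm_eq_abs]
  refine h1.trans ?_
  have h2 : √‖w‖ ≤ c / (12 * D + 1) := by
    rw [Real.sqrt_le_left (by positivity)]
    exact hw.le.trans (min_le_right _ _)
  calc 12 * D * (‖w‖ * √‖w‖) = (12 * D * √‖w‖) * ‖w‖ := by ring
    _ ≤ c * ‖w‖ := by
        refine mul_le_mul_of_nonneg_right ?_ (norm_nonneg _)
        calc 12 * D * √‖w‖ ≤ 12 * D * (c / (12 * D + 1)) := mul_le_mul_of_nonneg_left h2 (by positivity)
          _ ≤ c := by rw [mul_div_assoc', div_le_iff₀ (by positivity)]; nlinarith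

/-! ### continuity of the regularised force at the nucleus -/

section
variable {f : E3 → ℝ} {p : E3} {δ A : ℝ}

lemma kd_two {ε : ℝ} (hε : 0 < ε) (hA : 0 ≤ A) (hf : ∀ y, 0 < ‖p - y‖ → ‖p - y‖ < δ → |f y| ≤ A * (√‖p - y‖)⁻¹) {x : E3}
    (hx : ‖x - p‖ < δ / 2) (hεδ : ε ≤ δ / 2) (y : E3) (hy : 0 < ‖p - y‖) :
    ‖f y • kd ε (x - y)‖ ≤ A * (j5 ε (x - y) + j5 ε (p - y)) := by
  rw [norm_smul, Real.norm_eq_abs]
  have n1 := j5_nonneg ε (x - y)
  have n2 := j5_nonneg ε (p - y)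
  rcases le_or_gt ε ‖x - y‖ with h | h
  · rw [kd_zero h, norm_zero, mul_zero]; positivity
  have hpy : ‖p - y‖ < δ := by
    have : ‖p - y‖ ≤ ‖x - p‖ + ‖x - y‖ := by
      have e : p - y = -(x - p) + (x - y) := by abel
      rw [e]; refine (norm_add_le _ _).trans ?_; rw [norm_neg]
    linarith
  have h1 := hf y hy hpy
  rcases eq_or_lt_of_le (norm_nonneg (x - y)) with h0 | h0
  · have : x - y = 0 := norm_eq_zero.1 h0.symm
    have e : kd ε (0:E3) = 0 := by simp [kd, kv, ke]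
    rw [this] at n1 ⊢
    rw [e, norm_zero, mul_zero]
    positivity
  have h2 : |f y| * ‖kd ε (x - y)‖ ≤ A * ((√‖p - y‖)⁻¹ * (‖x - y‖ ^ 2)⁻¹) := by
    rw [← mul_assoc]
    exact mul_le_mul h1 (kd_norm hε _) (norm_nonneg _) (by positivity)
  refine h2.trans (mul_le_mul_of_nonneg_left ?_ hA)
  rcases le_or_gt ‖x - y‖ ‖p - y‖ with h3 | h3
  · have h4 : (√‖p - y‖)⁻¹ ≤ (√‖x - y‖)⁻¹ := inv_anti₀ (by positivity) (Real.sqrt_le_sqrt h3)
    have h5' : j5 ε (x - y) = (‖x - y‖ ^ 2)⁻¹ * (√‖x - y‖)⁻¹ := by unfold j5; rw [if_pos h]; rfl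
    have := mul_le_mul_of_nonneg_right h4 (by positivity : (0:ℝ) ≤ (‖x - y‖ ^ 2)⁻¹)
    rw [h5'] at n1 ⊢
    linarith
  · have h4 : (‖x - y‖ ^ 2)⁻¹ ≤ (‖p - y‖ ^ 2)⁻¹ := inv_anti₀ (by positivity) (pow_le_pow_left₀ hy.le h3.le 2)
    have h5' : j5 ε (p - y) = (‖p - y‖ ^ 2)⁻¹ * (√‖p - y‖)⁻¹ := by unfold j5; rw [if_pos (h3.trans h)]; rfl
    have := mul_le_mul_of_nonneg_left h4 (by positivity : (0:ℝ) ≤ (√‖p - y‖)⁻¹)
    rw [h5'] at n2 ⊢
    linarith

lemma near_unif (hn : Nice f) {ε : ℝ} (hε : 0 < ε) (hA : 0 ≤ A) (hf : ∀ y, 0 < ‖p - y‖ → ‖p - y‖ < δ → |f y| ≤ A * (√‖p - y‖)⁻¹) {x : E3}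
    (hx : ‖x - p‖ < δ / 2) (hεδ : ε ≤ δ / 2) (hε1 : ε ≤ 1) : ‖PV f x - Pe ε f x‖ ≤ A * (2 * J5 ε) := by
  have hj : Integrable (fun y => A * (j5 ε (x - y) + j5 ε (p - y))) :=
    (((j5_int hε1).comp_sub_left x).add ((j5_int hε1).comp_sub_left p)).const_mul A
  have hkd : Integrable (fun y => f y • kd ε (x - y)) := by
    refine hj.mono' (hn.1.smul ((kd_meas ε).comp (measurable_const.sub measurable_id))).aestronglyMeasurable ?_
    filter_upwards [ae_ne' p] with y hy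
    exact kd_two hε hA hf hx hεδ y hy
  have hke := pe_int hn.2.1 hε x
  have hkv : Integrable (fun y => f y • kv (x - y)) := by
    refine (hkd.add hke).congr (ae_of_all _ (fun y => ?_))
    simp only [Pi.add_apply]
    rw [← smul_add]
    congr 1
    unfold kd; abel
  have e : PV f x - Pe ε f x = ∫ y, f y • kd ε (x - y) := by
    unfold PV Pe
    rw [← integral_sub hkv hke]
    congr 1
    funext y
    rw [← smul_sub]; rfl
  rw [e]
  refine (norm_integral_le_of_norm_le hj ?_).trans ?_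
  · filter_upwards [ae_ne' p] with y hy
    exact kd_two hε hA hf hx hεδ y hy
  · rw [integral_const_mul, integral_add ((j5_int hε1).comp_sub_left x) ((j5_int hε1).comp_sub_left p),
      integral_sub_left_eq_self (j5 ε) volume x, integral_sub_left_eq_self (j5 ε) volume p]
    unfold J5
    apply le_of_eq; ring

theorem PV_cont (hn : Nice f) (hδ : 0 < δ) (hA : 0 ≤ A) (hf : ∀ y, 0 < ‖p - y‖ → ‖p - y‖ < δ → |f y| ≤ A * (√‖p - y‖)⁻¹) :
    Tendsto (PV f) (𝓝 p) (𝓝 (PV f p)) := by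
  rw [Metric.tendsto_nhds]
  intro κ hκ
  obtain ⟨ε, hε, hεδ, hε1, hJ⟩ := J5_small (κ := κ / (8 * (A + 1))) (δ := δ / 2) (by positivity) (by positivity)
  have hI0 : 0 ≤ ∫ y, |f y| := integral_nonneg (fun y => abs_nonneg _)
  set I : ℝ := ∫ y, |f y| with hI
  have hr : 0 < min (δ / 2) (κ * ε ^ 3 / (16 * (I + 1))) := by positivity
  filter_upwards [ball_mem_nhds p hr] with x hx
  rw [mem_ball, dist_eq_norm] at hx
  have hx1 : ‖x - p‖ < δ / 2 := hx.trans_le (min_le_left _ _)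
  have hx2 : ‖x - p‖ < κ * ε ^ 3 / (16 * (I + 1)) := hx.trans_le (min_le_right _ _)
  have a := near_unif hn hε hA hf hx1 hεδ hε1
  have b := near_unif (x := p) hn hε hA hf (by rw [sub_self, norm_zero]; positivity) hεδ hε1
  have hAJ : A * (2 * J5 ε) ≤ κ / 4 := by
    calc A * (2 * J5 ε) = 2 * (A * J5 ε) := by ring
      _ ≤ 2 * (A * (κ / (8 * (A + 1)))) := by
          have := mul_le_mul_of_nonneg_left hJ hA
          linarith
      _ ≤ κ / 4 := by
          have : A * (κ / (8 * (A + 1))) ≤ κ / 8 := by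
            rw [mul_div_assoc', div_le_div_iff₀ (by positivity) (by norm_num)]; nlinarith
          linarith
  have c : ‖Pe ε f x - Pe ε f p‖ ≤ κ / 4 := by
    unfold Pe
    rw [← integral_sub (pe_int hn.2.1 hε x) (pe_int hn.2.1 hε p)]
    refine (norm_integral_le_of_norm_le (hn.2.1.abs.const_mul (4 / ε ^ 3 * (κ * ε ^ 3 / (16 * (I + 1))))) (ae_of_all _ (fun y => ?_))).trans ?_
    · rw [← smul_sub, norm_smul, Real.norm_eq_abs, mul_comm]
      refine mul_le_mul_of_nonneg_right ?_ (abs_nonneg _)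
      refine (ke_lip hε _ _).trans ?_
      refine mul_le_mul_of_nonneg_left ?_ (by positivity)
      rw [sub_sub_sub_cancel_right]
      exact hx2.le
    · rw [integral_const_mul, ← hI]
      have e : 4 / ε ^ 3 * (κ * ε ^ 3 / (16 * (I + 1))) * I = κ / 4 * (I / (I + 1)) := by field_simp; ring
      rw [e]
      have : I / (I + 1) ≤ 1 := by rw [div_le_one (by positivity)]; linarith
      nlinarith
  rw [dist_eq_norm]
  have e : PV f x - PV f p = (PV f x - Pe ε f x) + (Pe ε f x - Pe ε f p) - (PV f p - Pe ε f p) := by abel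
  rw [e]
  refine (norm_sub_le _ _).trans_lt ?_
  have := norm_add_le (PV f x - Pe ε f x) (Pe ε f x - Pe ε f p)
  linarith

end

end Pool.Agent.Q233.FT
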