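import Pool.Agent.Q233.FT.H

/-!
# The gradient of the potential at a nucleus, II
-/

set_option autoImplicit false
open MeasureTheory Set Filter Topology Metric
open scoped RealInnerProductSpace BigOperators ENNReal
open Pool.Agent.Helper557 Pool.Agent.Helper557.TFP
open Pool.Agent.H9R2.TF Pool.Agent.Q233.TFShell Pool.Agent.Q233.TFAtom Pool.Agent.Q233.TFSat
  Pool.Agent.Q233.TFSup Pool.Agent.Q233.TFCmp Pool.Agent.Q233.TFMol Pool.Agent.Q233.TFIon

namespace Pool.Agent.Q233.FT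

/-! ### regularity of the remainder -/

lemma sqrt_inv_pow {r : ℝ} (hr : 0 < r) (hr1 : r ≤ 1) : ((√r)⁻¹) ^ (5/3 : ℝ) ≤ h5 r := by
  have h1 : √r ≤ 1 := by rw [Real.sqrt_le_one]; exact hr1
  have hs : 0 < √r := Real.sqrt_pos.2 hr
  have h2 : 1 ≤ (√r)⁻¹ := (one_le_inv₀ hs).2 h1
  calc ((√r)⁻¹) ^ (5/3 : ℝ) ≤ ((√r)⁻¹) ^ (5 : ℝ) := Real.rpow_le_rpow_of_exponent_le h2 (by norm_num)
    _ = ((√r)⁻¹) ^ (5 : ℕ) := by rw [← Real.rpow_natCast]; norm_num
    _ = h5 r := by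
      unfold h5
      have e : r ^ 2 = (√r) ^ 4 := by
        nth_rewrite 1 [← Real.sq_sqrt hr.le]; ring
      rw [e]
      field_simp

lemma rf_nice {ρ : E3 → ℝ} {p : E3} {δ A : ℝ} {s : ℝ → ℝ} (hn : Nice ρ) (hs : Measurable s) (hA : 0 ≤ A) (hδ1 : δ ≤ 1)
    (hc : ∀ y, 0 < ‖p - y‖ → ‖p - y‖ < δ → |ρ y - s ‖p - y‖| ≤ A * (√‖p - y‖)⁻¹) : Nice (rf ρ s δ p) := by
  refine ⟨rf_meas hn.1 hs δ p, rf_int hn hs hA hδ1 hc, ?_⟩
  have hj : Integrable (fun y => A ^ (5/3:ℝ) * j5 δ (p - y)) := ((j5_int hδ1).comp_sub_left p).const_mul _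
  refine (hj.add hn.2.2).mono' (((rf_meas hn.1 hs δ p).abs.pow_const _).aestronglyMeasurable) ?_
  filter_upwards [ae_ne' p] with y h0
  rw [Real.norm_of_nonneg (Real.rpow_nonneg (abs_nonneg _) _), Pi.add_apply]
  have p1 : 0 ≤ A ^ (5/3:ℝ) * j5 δ (p - y) := mul_nonneg (Real.rpow_nonneg hA _) (j5_nonneg _ _)
  have p2 : 0 ≤ |ρ y| ^ (5/3:ℝ) := Real.rpow_nonneg (abs_nonneg _) _
  rcases le_or_gt δ ‖p - y‖ with h | h
  · rw [rf_far y h]; linarith
  · have h1 := Real.rpow_le_rpow (abs_nonneg _) (rf_near hc y h0 h) (by norm_num : (0:ℝ) ≤ 5/3)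
    rw [Real.mul_rpow hA (by positivity)] at h1
    have h2 := sqrt_inv_pow h0 (h.le.trans hδ1)
    have e : j5 δ (p - y) = h5 ‖p - y‖ := by unfold j5; rw [if_pos h]
    have h3 := mul_le_mul_of_nonneg_left h2 (Real.rpow_nonneg hA (5/3:ℝ))
    rw [← e] at h3
    linarith

/-! ### the radial part -/

/-- the cut off leading term -/
noncomputable def Gc (c δ r : ℝ) : ℝ := if r < δ then be (c / r) else 0

lemma Gc_meas (c δ : ℝ) : Measurable (Gc c δ) := sd_meas (be_meas.comp (measurable_const.div measurable_id)) δ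

lemma be_div {c r : ℝ} (hc : 0 ≤ c) (hr : 0 < r) : r ^ 2 * be (c / r) = c ^ (3/2:ℝ) * √r := by
  unfold be
  rw [max_eq_left (by positivity), Real.div_rpow hc hr.le, Real.sqrt_eq_rpow]
  have e : r ^ 2 = r ^ (3/2:ℝ) * r ^ (1/2:ℝ) := by
    rw [← Real.rpow_add hr, ← Real.rpow_natCast]; norm_num
  rw [e]
  have : 0 < r ^ (3/2:ℝ) := Real.rpow_pos_of_pos hr _
  field_simp

lemma rad_1d {c δ t : ℝ} (hc : 0 ≤ c) (ht : 0 < t) (htδ : t ≤ δ) :
    ∫ r in Ioi (0:ℝ), r ^ 2 * (Gc c δ r / max r t) = c ^ (3/2:ℝ) * (2 * √δ - 4/3 * √t) := by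
  have hδ : 0 < δ := ht.trans_le htδ
  have e1 : ∫ r in Ioi (0:ℝ), r ^ 2 * (Gc c δ r / max r t) = ∫ r in Ioo (0:ℝ) δ, c ^ (3/2:ℝ) * (√r / max r t) := by
    rw [← integral_indicator measurableSet_Ioi, ← integral_indicator measurableSet_Ioo]
    congr 1
    funext r
    by_cases h1 : 0 < r
    · rw [indicator_of_mem (show r ∈ Ioi (0:ℝ) from h1)]
      by_cases h2 : r < δ
      · rw [indicator_of_mem (show r ∈ Ioo (0:ℝ) δ from ⟨h1, h2⟩)]
        unfold Gc
        rw [if_pos h2, mul_div_assoc', be_div hc h1, mul_div_assoc]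
      · rw [indicator_of_notMem (fun h => h2 h.2)]
        unfold Gc
        rw [if_neg h2]; simp
    · rw [indicator_of_notMem (show r ∉ Ioi (0:ℝ) from h1), indicator_of_notMem (fun h => h1 h.1)]
  rw [e1, integral_const_mul, ← integral_Ioc_eq_integral_Ioo, ← intervalIntegral.integral_of_le hδ.le]
  have c1 : IntervalIntegrable (fun r : ℝ => √r / max r t) volume 0 t := by
    apply Continuous.intervalIntegrable
    exact Real.continuous_sqrt.div (continuous_id.max continuous_const) (fun x => (lt_max_of_lt_right ht).ne')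
  have c2 : IntervalIntegrable (fun r : ℝ => √r / max r t) volume t δ := by
    apply Continuous.intervalIntegrable
    exact Real.continuous_sqrt.div (continuous_id.max continuous_const) (fun x => (lt_max_of_lt_right ht).ne')
  rw [← intervalIntegral.integral_add_adjacent_intervals c1 c2]
  have v1 : ∫ r in (0:ℝ)..t, √r / max r t = 2/3 * √t := by
    have e : ∫ r in (0:ℝ)..t, √r / max r t = ∫ r in (0:ℝ)..t, t⁻¹ * r ^ (1/2:ℝ) := by
      refine intervalIntegral.integral_congr (fun r hr => ?_)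
      rw [uIcc_of_le ht.le] at hr
      rw [max_eq_right hr.2, Real.sqrt_eq_rpow, div_eq_inv_mul]
    rw [e, intervalIntegral.integral_const_mul, integral_rpow (Or.inl (by norm_num))]
    have e2 : t ^ (1/2 + 1 : ℝ) = t * √t := by
      rw [Real.rpow_add ht, Real.rpow_one, ← Real.sqrt_eq_rpow, mul_comm]
    rw [e2, Real.zero_rpow (by norm_num)]
    field_simp
    ring
  have v2 : ∫ r in t..δ, √r / max r t = 2 * √δ - 2 * √t := by
    have e : ∫ r in t..δ, √r / max r t = ∫ r in t..δ, r ^ (-(1/2):ℝ) := by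
      refine intervalIntegral.integral_congr (fun r hr => ?_)
      rw [uIcc_of_le htδ] at hr
      have hr0 : 0 < r := ht.trans_le hr.1
      rw [max_eq_left hr.1, Real.rpow_neg hr0.le, ← Real.sqrt_eq_rpow]
      have : 0 < √r := Real.sqrt_pos.2 hr0
      nth_rewrite 2 [← Real.sq_sqrt hr0.le]
      field_simp
    rw [e, integral_rpow (Or.inl (by norm_num))]
    have e2 : ∀ x : ℝ, x ^ (-(1/2) + 1 : ℝ) = √x := by
      intro x
      rw [Real.sqrt_eq_rpow]; norm_num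
    rw [e2, e2]
    ring
  rw [v1, v2]
  ring

lemma pot_radial (c δ : ℝ) (hc : 0 ≤ c) (p : E3) {x : E3} (hx : x ≠ p) (hxδ : ‖x - p‖ ≤ δ) :
    pot (fun y => if ‖p - y‖ < δ then be (c / ‖p - y‖) else 0) x
      = 4 * Real.pi * (c ^ (3/2:ℝ) * (2 * √δ)) - 16 * Real.pi / 3 * c ^ (3/2:ℝ) * √‖x - p‖ := by
  have e1 : pot (fun y => if ‖p - y‖ < δ then be (c / ‖p - y‖) else 0) x = pot (fun u => Gc c δ ‖u‖) (x - p) := by
    unfold pot
    rw [← integral_sub_right_eq_self (fun u : E3 => Gc c δ ‖u‖ / ‖x - p - u‖) p]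
    congr 1
    funext y
    rw [sub_sub_sub_cancel_right, norm_sub_rev y p]
    rfl
  rw [e1, pot_rad (Gc_meas c δ), rad_1d hc (norm_pos_iff.2 (sub_ne_zero.2 hx)) hxδ]
  ring

/-! ### the gradient limit -/

variable {k : ℕ} {z : Fin k → ℝ} {R : Fin k → E3} {lam : ℝ}

theorem grad_lim (hz : ∀ j, 0 ≤ z j) (hl : 0 < lam) {ρ : E3 → ℝ} (h : Ion z R lam ρ) {δ : ℝ} (hδ : 0 < δ) (hδ1 : δ ≤ 1)
    (hsep : ∀ i j, j ≠ i → 4 * δ ≤ ‖R i - R j‖) (i : Fin k) :
    (∀ᶠ x in 𝓝[≠] (R i), DifferentiableAt ℝ (fun x => pot ρ x + 16 * Real.pi / 3 * z i ^ (3/2:ℝ) * √‖x - R i‖) x) ∧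
    Tendsto (gradient (fun x => pot ρ x + 16 * Real.pi / 3 * z i ^ (3/2:ℝ) * √‖x - R i‖)) (𝓝[≠] (R i))
      (𝓝 (FZ ρ (fun r => be (z i / r)) δ (R i))) := by
  obtain ⟨A, hA, hc⟩ := ion_close hz hl h hδ hδ1 hsep i
  obtain ⟨Φ, hΦ, hEL, hmass⟩ := h
  set p := R i with hp
  set f := rf ρ (fun r => be (z i / r)) δ p with hf
  have nf : Nice f := rf_nice hEL.nice (be_div_meas _) hA hδ1 hc
  have hfn : ∀ y, 0 < ‖p - y‖ → ‖p - y‖ < δ → |f y| ≤ A * (√‖p - y‖)⁻¹ := fun y h0 h1 => rf_near hc y h0 h1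
  set Θ : E3 → ℝ := fun x => pot ρ x + 16 * Real.pi / 3 * z i ^ (3/2:ℝ) * √‖x - p‖ with hΘ
  have hΘf : ∀ x, x ≠ p → ‖x - p‖ < δ → Θ x = pot f x + 4 * Real.pi * (z i ^ (3/2:ℝ) * (2 * √δ)) := by
    intro x hx hxδ
    have h1 := pot_radial (z i) δ (hz i) p hx hxδ.le
    have h2 := pot_sub hEL.nice nf x
    have e : (fun y => ρ y - f y) = fun y => if ‖p - y‖ < δ then be (z i / ‖p - y‖) else 0 := by
      funext y
      rw [hf]
      unfold rf
      ring
    rw [e, h1] at h2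
    simp only [hΘ]
    linarith
  have hgrad : ∀ x, x ≠ p → ‖x - p‖ < δ → HasGradientAt Θ (-PV f x) x := by
    intro x hx hxδ
    have hxp : 0 < ‖x - p‖ := norm_pos_iff.2 (sub_ne_zero.2 hx)
    have hr0 : 0 < min (‖x - p‖ / 2) (δ - ‖x - p‖) := lt_min (by positivity) (by linarith)
    have hloc : ∀ y, ‖x - y‖ < min (‖x - p‖ / 2) (δ - ‖x - p‖) → |f y| ≤ A * (√(‖x - p‖ / 2))⁻¹ := by
      intro y hy
      have h1 : ‖x - y‖ < ‖x - p‖ / 2 := hy.trans_le (min_le_left _ _)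
      have h2 : ‖x - y‖ < δ - ‖x - p‖ := hy.trans_le (min_le_right _ _)
      have h3 : ‖x - p‖ / 2 ≤ ‖p - y‖ := by
        have : ‖x - p‖ ≤ ‖x - y‖ + ‖p - y‖ := by
          have e : x - p = (x - y) - (p - y) := by abel
          rw [e]; exact norm_sub_le _ _
        linarith
      have h4 : ‖p - y‖ < δ := by
        have : ‖p - y‖ ≤ ‖x - y‖ + ‖x - p‖ := by
          have e : p - y = (x - y) - (x - p) := by abel
          rw [e]; exact norm_sub_le _ _
        linarith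
      refine (hfn y (by linarith) h4).trans (mul_le_mul_of_nonneg_left ?_ hA)
      exact inv_anti₀ (by positivity) (Real.sqrt_le_sqrt h3)
    have hd := pot_fderiv nf hr0 (by positivity) hloc
    have hd2 : HasFDerivAt (fun x => pot f x + 4 * Real.pi * (z i ^ (3/2:ℝ) * (2 * √δ))) (innerSL ℝ (-PV f x)) x := hd.add_const _
    have hev : Θ =ᶠ[𝓝 x] fun x => pot f x + 4 * Real.pi * (z i ^ (3/2:ℝ) * (2 * √δ)) := by
      have o1 : ∀ᶠ y in 𝓝 x, y ≠ p := isOpen_ne.mem_nhds hx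
      have o2 : ∀ᶠ y in 𝓝 x, ‖y - p‖ < δ := by
        have : ContinuousAt (fun y : E3 => ‖y - p‖) x := by fun_prop
        exact this.eventually (gt_mem_nhds hxδ)
      filter_upwards [o1, o2] with y hy1 hy2
      exact hΘf y hy1 hy2
    rw [hasGradientAt_iff_hasFDerivAt]
    exact hd2.congr_of_eventuallyEq hev
  have hnear : ∀ᶠ x in 𝓝[≠] p, x ≠ p ∧ ‖x - p‖ < δ := by
    have o2 : ∀ᶠ y in 𝓝 p, ‖y - p‖ < δ := by
      have : ContinuousAt (fun y : E3 => ‖y - p‖) p := by fun_prop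
      refine this.eventually (gt_mem_nhds ?_)
      simp only
      rw [sub_self, norm_zero]; exact hδ
    filter_upwards [self_mem_nhdsWithin, nhdsWithin_le_nhds o2] with y h1 h2
    exact ⟨h1, h2⟩
  constructor
  · filter_upwards [hnear] with x hx
    exact (hgrad x hx.1 hx.2).differentiableAt
  · have hlim : Tendsto (fun x => -PV f x) (𝓝[≠] p) (𝓝 (-PV f p)) := ((PV_cont nf hδ hA hfn).mono_left nhdsWithin_le_nhds).neg
    have e : FZ ρ (fun r => be (z i / r)) δ p = -PV f p := rfl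
    rw [e]
    refine hlim.congr' ?_
    filter_upwards [hnear] with x hx
    exact (hgrad x hx.1 hx.2).gradient.symm

end Pool.Agent.Q233.FT
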